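import Pool.Agent.Lib.UTop.Gam
import Pool.Agent.Lib.UlM.Blk

/-!
# Blk: the top block is a block

PROOF. `down`: `Lq_down`. `loc`: `Lq_loc`. `refl`, `trans`: `Lq_refl`, `Lq_trans`. `xrefl`, `xtrans`: `Ex_refl`, `Ex_trans`. `xr`: definition. `closed`: `cls` with `T = C` (a nonempty type), `r = Subtype.val`, `Y = fun _ => univ`. `mix`: `mix` with `X = univ`. `cc`: `ccc_anti` (`le2 le R z w` is `Lx pd e univ z w`).
`size`: `cn_card` with `G = univ`, `μ = succ (succ lam)`, `μ ^ lam = (2 ^ succ lam) ^ lam = μ`.
-/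

set_option autoImplicit false
universe u

namespace Pool.Agent.UTop

open Cardinal Pool.Agent.PolF

variable {P K J : Type u} [LinearOrder K] [WellFoundedLT K] [LinearOrder J] [WellFoundedLT J]
  {le : P → P → Prop} {lam : Cardinal.{u}} {pd : J → Set J}
  {e : J → K × K → Set (P × Cn le lam K J)}

theorem blk (H : TopH le K lam) (hpd : PdH pd) (hG : GamH J lam) :
    UlM.IsBlk le (fun t a b => Lq pd e Set.univ a b t) (Ex pd e Set.univ) lam := by
  have hDC : DC pd Set.univ := fun _ _ _ _ => Set.mem_univ _
  refine { down := ?_, loc := ?_, refl := ?_, trans := ?_, xrefl := ?_, xtrans := ?_, xr := ?_, closed := ?_, mix := ?_, cc := ?_, size := ?_ }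
  · intro t t' a b h hR
    exact Lq_down H h hR
  · intro t a b h
    exact Lq_loc H hpd h
  · intro t a
    exact Lq_refl H Set.univ a t
  · intro t a b c h h'
    exact Lq_trans H hpd hDC h h'
  · intro a
    exact Ex_refl H Set.univ a
  · intro a b c h h'
    exact Ex_trans H hpd hDC h h'
  · intro t a b h
    exact h.1 t
  · intro C hC hCl hch
    have hne : Nonempty C := hC.to_subtype
    obtain ⟨r', hr', -⟩ := cls (pd := pd) (e := e) H hpd (T := C) hCl Subtype.val
      (fun _ => Set.univ) (fun _ => hDC) (fun i j => by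
        rcases hch j.1 j.2 i.1 i.2 with h | h
        · exact Or.inl ⟨Set.Subset.refl _, h⟩
        · exact Or.inr ⟨Set.Subset.refl _, h⟩)
    exact ⟨r', fun a ha => hr' ⟨a, ha⟩⟩
  · intro t a b h
    exact mix H hpd hDC h
  · intro B hB
    exact ccc_anti (pd := pd) (e := e) H B hB
  · have h1 : Order.succ lam ≤ Order.succ (Order.succ lam) := Order.le_succ _
    have hinf : ℵ₀ ≤ lam := H.inf.le
    have hp : (Order.succ (Order.succ lam)) ^ lam = Order.succ (Order.succ lam) := by
      rw [← hG.pow, ← Cardinal.power_mul]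
      congr 1
      exact Cardinal.mul_eq_left (hinf.trans (Order.le_succ lam)) (Order.le_succ lam)
        (fun h => (Cardinal.aleph0_pos.trans_le hinf).ne' h)
    have h2 : #(Set.univ : Set J) ≤ Order.succ (Order.succ lam) := by
      rw [Cardinal.mk_univ, hG.crd]
    have h3 := cn_card (J := J) H (Order.succ (Order.succ lam)) h1 hp Set.univ h2
    refine le_trans ?_ h3
    exact (Cardinal.mk_le_of_injective (f := fun q : Cn le lam K J =>
      (⟨q, Set.subset_univ _⟩ : {q : Cn le lam K J // q.sp ⊆ Set.univ}))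
      (fun a b hab => congrArg Subtype.val hab))

end Pool.Agent.UTop
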