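import Pool.Agent.Lib.UTop.Sel

/-!
# Lad: the ladder system

PROOF. `omg`: `Iio w0` is order isomorphic to `ℕ`: let `b 0` be the least element of `K` and `b (n+1)` the least element above `b n` (`LimI w0`: all `b n < w0`); if `x < w0` were not of the form `b n`, the least such `x` would be a nonzero limit: for `y < x`, `y = b n`, and `b (n+1) ≤ x`, `b (n+1) ≠ x`, so
`y < b (n+1) < x`; contradiction. `b` is strictly increasing with range `Iio w0`. `lad`: `SN_sel` gives `q ≤ p` with `Mem le q.2.s (a, c) q.1`; `StrictMono c`, `Lim c a` (`mem_sel`). With `k : K → ℕ`, `k (b n) = n`, let `ee i = c (k i)`. `AN_of` for the elements of the range of `c`; for `y` not in the range: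
if `z ≤ q` and `Mem L AN (a, y) z` then `y = c n` by `AN_sel`.
-/

set_option autoImplicit false
universe u

namespace Pool.Agent.UTop

open Cardinal Pool.Agent.PolF Pool.Agent.UlB

variable {P K J : Type u} [LinearOrder K] [WellFoundedLT K] [LinearOrder J] [WellFoundedLT J]
  {le : P → P → Prop} {lam : Cardinal.{u}} {pd : J → Set J}
  {e : J → K × K → Set (P × Cn le lam K J)}

omit [LinearOrder J] [WellFoundedLT J] in
theorem omg {w0 : K} (h : LimI w0) (h' : ∀ t < w0, ¬ LimI t) :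
    ∃ b : ℕ → K, StrictMono b ∧ Set.range b = Set.Iio w0 := by
  have key : ∀ x : K, x < w0 → ∃ y, y < w0 ∧ x < y ∧ ∀ z, x < z → y ≤ z := by
    intro x hx
    obtain ⟨z, hz1, hz2⟩ := h.2 x hx
    have hS : {z : K | x < z}.Nonempty := ⟨z, hz1⟩
    have hmin : ∀ z, x < z → wellFounded_lt.min {z : K | x < z} hS ≤ z := fun z hz =>
      not_lt.1 (WellFounded.not_lt_min _ _ hz)
    exact ⟨wellFounded_lt.min {z : K | x < z} hS, (hmin z hz1).trans_lt hz2,
      WellFounded.min_mem _ _ _, hmin⟩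
  obtain ⟨m, hm⟩ : ∃ m : K, ∀ z, m ≤ z := by
    have hS : (Set.univ : Set K).Nonempty := ⟨w0, trivial⟩
    exact ⟨wellFounded_lt.min Set.univ hS, fun z =>
      not_lt.1 (WellFounded.not_lt_min _ _ (Set.mem_univ z))⟩
  obtain ⟨a0, ha0⟩ := h.1
  have hm0 : m < w0 := (hm a0).trans_lt ha0
  choose nx h1 h2 h3 using key
  obtain ⟨b, hb0, hbs⟩ : ∃ b : ℕ → {x : K // x < w0}, (b 0).1 = m ∧
      ∀ n, (b (n + 1)).1 = nx (b n).1 (b n).2 :=
    ⟨fun n => Nat.rec (⟨m, hm0⟩ : {x : K // x < w0}) (fun _ x => ⟨nx x.1 x.2, h1 x.1 x.2⟩) n,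
      rfl, fun n => rfl⟩
  refine ⟨fun n => (b n).1, strictMono_nat_of_lt_succ fun n => ?_, ?_⟩
  · rw [hbs]
    exact h2 _ _
  · ext x
    constructor
    · rintro ⟨n, rfl⟩
      exact (b n).2
    · intro hx
      have hx' : x < w0 := hx
      clear hx
      induction x using WellFoundedLT.induction with
      | _ x ih =>
        by_cases hxm : x = m
        · exact ⟨0, by rw [hxm]; exact hb0⟩
        · have hmx : m < x := lt_of_le_of_ne (hm x) (Ne.symm hxm)
          have h4 := h' x hx'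
          unfold LimI at h4
          push Not at h4
          obtain ⟨a, hax, h5⟩ := h4 ⟨m, hmx⟩
          obtain ⟨n, hn⟩ := ih a hax (hax.trans hx')
          have hn' : (b n).1 = a := hn
          refine ⟨n + 1, ?_⟩
          show (b (n + 1)).1 = x
          rw [hbs]
          have h6 : (b n).1 < nx (b n).1 (b n).2 := h2 _ _
          have h7 : nx (b n).1 (b n).2 ≤ x := h3 _ _ x (by rw [hn']; exact hax)
          refine le_antisymm h7 (h5 _ ?_)
          rw [← hn']
          exact h6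

theorem lad (H : TopH le K lam) (hpd : PdH pd) {w0 : K} (h : LimI w0) (h' : ∀ t < w0, ¬ LimI t)
    (p : P × Cn le lam K J) (a : K) (hp : Mem (Lx pd e Set.univ) (SN lam le K J) a p) :
    ∃ q, Lx pd e Set.univ q p ∧ ∃ ee : K → K, (∀ i < w0, ee i < a) ∧
      (∀ i < w0, ∀ j < w0, i < j → ee i < ee j) ∧ (∀ b < a, ∃ i < w0, b < ee i) ∧
      ∀ y < a, ((∃ i < w0, ee i = y) → Mem (Lx pd e Set.univ) (AN lam le K J) (a, y) q) ∧
        ((∀ i < w0, ee i ≠ y) →
          Neg (Lx pd e Set.univ) (Mem (Lx pd e Set.univ) (AN lam le K J) (a, y)) q) := by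
  classical
  obtain ⟨q, hq, c, hc⟩ := SN_sel H hpd hp
  obtain ⟨hmono, hlim, hlt, -⟩ := mem_sel H hc
  obtain ⟨b, hb, hr⟩ := omg h h'
  have hex : ∀ i < w0, ∃ n, b n = i := by
    intro i hi
    have : i ∈ Set.range b := by
      rw [hr]
      exact hi
    exact this
  have hbw : ∀ n, b n < w0 := by
    intro n
    have : b n ∈ Set.range b := ⟨n, rfl⟩
    rw [hr] at this
    exact this
  obtain ⟨ee, hee⟩ : ∃ ee : K → K, ∀ n, ee (b n) = c n := by
    refine ⟨fun i => if hi : ∃ n, b n = i then c hi.choose else c 0, fun n => ?_⟩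
    have hi : ∃ k, b k = b n := ⟨n, rfl⟩
    show (if hi : ∃ k, b k = b n then c hi.choose else c 0) = c n
    rw [dif_pos hi, hb.injective hi.choose_spec]
  refine ⟨q, hq, ee, ?_, ?_, ?_, ?_⟩
  · intro i hi
    obtain ⟨n, rfl⟩ := hex i hi
    rw [hee]
    exact hlim.1 n
  · intro i hi j hj hij
    obtain ⟨n, rfl⟩ := hex i hi
    obtain ⟨k, rfl⟩ := hex j hj
    rw [hee, hee]
    exact hmono (hb.lt_iff_lt.1 hij)
  · intro x hx
    obtain ⟨n, hn⟩ := hlim.2 x hx
    exact ⟨b n, hbw n, by rw [hee]; exact hn⟩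
  · intro y _
    constructor
    · rintro ⟨i, hi, rfl⟩
      obtain ⟨n, rfl⟩ := hex i hi
      rw [hee]
      exact AN_of H hpd hc n
    · intro hy z hz hm
      have h1 : Mem le q.2.s (a, c) z.1 := fun s hs => hc s (H.tr _ _ _ hs hz.1)
      have h2 : Mem le z.2.s (a, c) z.1 :=
        (hz.2.1.2 a hlt.le c z.1 (H.rf _)).2 h1
      obtain ⟨n, hn⟩ := AN_sel H hpd h2 hm
      exact hy (b n) (hbw n) (by rw [hee]; exact hn)

end Pool.Agent.UTop
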