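import Pool.Agent.Lib.UTop.Red
import Pool.Agent.Lib.UlB.Frc

/-!
# Rng: the range of a partial function, preservation of cardinals

Write `L = Lx pd e Set.univ`.

PROOF. `rng`: `red` for `X = univ`, `ι = R` (as a type), `D i t c := (∃ y ∈ T, Mem L f (i, y) (t, c)) ∨ ∀ y ∈ T, Neg L (Mem L f (i, y)) (t, c)`: open (`Mem_down`, `Neg_down`), dense: if the second alternative fails at `(t, c)` there are `y ∈ T` and `z ≤ (t, c)` with `Mem L f (i, y) z`. It gives `p1`. `V = {y ∈ T | ∃ i ∈ R, ∃ t, le t t0 ∧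
Mem L f (i, y) (t, p1)}`. For `i`, `t` there is at most one `y` (`hf`, as `(t, p1) ≤ (t0, p0)`), so `V` is the image of a subset of `R × P` and `#V ≤ #R * #P`. Let `y ∈ T`, `y ∉ V`, `i ∈ R`, `z ≤ (t0, p1)` with `Mem L f (i, y) z`. There is `t' ≤ z.1` with `D i t' p1`; `(t', z.2) ≤ (t', p1)`, `(t', z.2) ≤ z`. If `Mem L f (i, y') (t', p1)`,
`y' ∈ T`, then `y' ∈ V`, `y' ≠ y`, and at `(t', z.2)` both `Mem`, against `hf`. If `Neg L (Mem L f (i, y)) (t', p1)`: contradiction at `(t', z.2)`. `nonto`: `#V < #T`, so there is `y ∈ T`, `y ∉ V`; answer `(t0, p1)`.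
-/

set_option autoImplicit false
universe u

namespace Pool.Agent.UTop

open Cardinal Pool.Agent.PolF Pool.Agent.UlB

variable {P K J : Type u} [LinearOrder K] [WellFoundedLT K] [LinearOrder J] [WellFoundedLT J]
  {le : P → P → Prop} {lam : Cardinal.{u}} {pd : J → Set J}
  {e : J → K × K → Set (P × Cn le lam K J)}

theorem rng (H : TopH le K lam) (hpd : PdH pd) {I M : Type u} (R : Set I) (T : Set M)
    (hR : #R ≤ lam) (f : I × M → Set (P × Cn le lam K J)) (t0 : P) (p0 : Cn le lam K J)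
    (hf : FPfn (Lx pd e Set.univ) R T f (t0, p0)) :
    ∃ p1 : Cn le lam K J, Ex pd e Set.univ p1 p0 ∧ ∃ V : Set M, V ⊆ T ∧ #V ≤ #R * #P ∧
      ∀ y ∈ T, y ∉ V → ∀ i ∈ R,
        Neg (Lx pd e Set.univ) (Mem (Lx pd e Set.univ) f (i, y)) (t0, p1) := by
  classical
  have hDC : DC pd Set.univ := fun _ _ _ _ => Set.mem_univ _
  have htr : ∀ p q r : P × Cn le lam K J, Lx pd e Set.univ p q → Lx pd e Set.univ q r →
      Lx pd e Set.univ p r := fun p q r h h' => Lx_trans H hpd Set.univ hDC p q r h h'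
  obtain ⟨p1, hp1, hD⟩ := red H hpd hDC (ι := R) hR
    (fun i t c => (∃ y ∈ T, Mem (Lx pd e Set.univ) f (i.1, y) (t, c)) ∨
      ∀ y ∈ T, Neg (Lx pd e Set.univ) (Mem (Lx pd e Set.univ) f (i.1, y)) (t, c)) p0 (by
      intro i t t' c c' h htt hcc
      have hx : Lx pd e Set.univ (t', c') (t, c) := ⟨htt, hcc⟩
      rcases h with ⟨y, hy, h⟩ | h
      · exact Or.inl ⟨y, hy, Mem_down htr hx h⟩
      · exact Or.inr fun y hy => Neg_down htr hx (h y hy)) (by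
      intro i t c hc
      by_cases h : ∀ y ∈ T, Neg (Lx pd e Set.univ) (Mem (Lx pd e Set.univ) f (i.1, y)) (t, c)
      · exact ⟨t, c, H.rf t, Lq_refl H Set.univ c t, Or.inr h⟩
      · push Not at h
        obtain ⟨y, hy, h⟩ := h
        unfold PolF.Neg at h
        push Not at h
        obtain ⟨z, hz, hm⟩ := h
        exact ⟨z.1, z.2, hz.1, hz.2, Or.inl ⟨y, hy, hm⟩⟩)
  have hx0 : ∀ t, le t t0 → Lx pd e Set.univ (t, p1) (t0, p0) := fun t ht => ⟨ht, hp1.1 t⟩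
  obtain ⟨V, hV⟩ : ∃ V : Set M, V = {y | y ∈ T ∧ ∃ i ∈ R, ∃ t, le t t0 ∧
      Mem (Lx pd e Set.univ) f (i, y) (t, p1)} := ⟨_, rfl⟩
  have hVm : ∀ y, y ∈ V ↔ (y ∈ T ∧ ∃ i ∈ R, ∃ t, le t t0 ∧
      Mem (Lx pd e Set.univ) f (i, y) (t, p1)) := by
    intro y
    rw [hV]
    exact Iff.rfl
  refine ⟨p1, hp1, V, ?_, ?_, ?_⟩
  · intro y hy
    exact ((hVm y).1 hy).1
  · -- an injection of V into R × P
    have h1 : ∀ y : V, ∃ k : R × P, le k.2 t0 ∧
        Mem (Lx pd e Set.univ) f (k.1.1, y.1) (k.2, p1) := by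
      intro y
      obtain ⟨-, i, hi, t, ht, hm⟩ := (hVm y.1).1 y.2
      exact ⟨(⟨i, hi⟩, t), ht, hm⟩
    choose k hk1 hk2 using h1
    have hinj : Function.Injective k := by
      intro y y' hyy
      by_contra hne
      have hyT : y.1 ∈ T := ((hVm y.1).1 y.2).1
      have hyT' : y'.1 ∈ T := ((hVm y'.1).1 y'.2).1
      have h2 := hf (k y).1.1 (k y).1.2 y.1 hyT y'.1 hyT' (fun h => hne (Subtype.ext h))
      have h3 := hk2 y'
      rw [← hyy] at h3
      exact h2 ((k y).2, p1) (hx0 _ (hk1 y)) ⟨hk2 y, h3⟩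
    have h4 := Cardinal.mk_le_of_injective hinj
    rwa [Cardinal.mk_prod, Cardinal.lift_id, Cardinal.lift_id] at h4
  · intro y hy hyV i hi z hz hm
    obtain ⟨t', ht', hd⟩ := hD ⟨i, hi⟩ z.1
    have hz1 : Lx pd e Set.univ (t', z.2) (t', p1) := ⟨H.rf t', Lq_down H ht' hz.2⟩
    have hz2 : Lx pd e Set.univ (t', z.2) z := ⟨ht', Lq_refl H Set.univ z.2 t'⟩
    have ht0 : le t' t0 := H.tr _ _ _ ht' hz.1
    have hm' : Mem (Lx pd e Set.univ) f (i, y) (t', z.2) := Mem_down htr hz2 hm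
    rcases hd with ⟨y', hy', hm1⟩ | hn
    · have hyV' : y' ∈ V := (hVm y').2 ⟨hy', i, hi, t', ht0, hm1⟩
      have hne : y' ≠ y := fun h => hyV (h ▸ hyV')
      have h5 := hf i hi y' hy' y hy hne
      exact h5 (t', z.2) (htr _ _ _ hz1 (hx0 t' ht0)) ⟨Mem_down htr hz1 hm1, hm'⟩
    · exact hn y hy (t', z.2) hz1 hm'

theorem nonto (H : TopH le K lam) (hpd : PdH pd) {I M : Type u} (R : Set I) (T : Set M)
    (hR : #R ≤ lam) (hT : #R * #P < #T) : FNonto (Lx pd e Set.univ) R T := by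
  intro f z hz
  obtain ⟨t0, p0⟩ := z
  obtain ⟨p1, hp1, V, hVT, hV, hn⟩ := rng H hpd R T hR f t0 p0 hz
  refine ⟨(t0, p1), ⟨H.rf t0, hp1.1 t0⟩, ?_⟩
  have h1 : ∃ y ∈ T, y ∉ V := by
    by_contra hcon
    push Not at hcon
    exact absurd (Cardinal.mk_le_mk_of_subset hcon) (not_le.2 (hV.trans_lt hT))
  obtain ⟨y, hy, hyV⟩ := h1
  exact ⟨y, hy, fun i hi => hn y hy hyV i hi⟩

end Pool.Agent.UTop
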