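import Pool.Agent.Lib.UTop.Ama

/-!
# Sel: the names of the stationary set, of the ladders, and of a generic function

Write `L = Lx pd e Set.univ`.

PROOF. `SN_sel`: at `z` itself there are `z' ≤ z` and `w ∈ SN δ`, `z' ≤ w`; `Mem le w.2.s (δ, a) w.1`, `δ < w.2.h` (`mem_sel`), so `Mem le z'.2.s (δ, a) z'.1` (`Bq z'.2 w.2 z'.1`, `Mem_down`). `SN_of`: for `z' ≤ z`, `z' ≤ z ∈ SN δ`. `AN_of` likewise. `AN_sel`: as in `SN_sel`, `z' ≤ z` with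
`Mem le z'.2.s (δ, a') z'.1` and `a' n = y`; also `Mem le z'.2.s (δ, a) z'.1`; `inc`. `fN_lo`: (→) `Mem_loc`: for `t1 ≤ z.1`, `(t1, z.2) ≤ z`, there are `z1 ≤ (t1, z.2)` and `w ∈ fN y`, `z1 ≤ w`; `y < h1` so `Mem le f0 y w.1`, so at `z1.1`. (←) `z ∈ fN y`. `fN_hi`: (←) `z ∈ fN y`. (→) `Mem_loc`: for `t1 ≤ z.1`
there are `z1 ≤ (t1, z.2)`, `w ∈ fN y`, `z1 ≤ w`: `y < w.2.h`, `g ∈ w.2.sp`, `Mem le (w.2.F g) y w.1`; by the second clause of `Cq g z1.2 w.2 z1.1`, `Mem le (z1.2.F g) y z1.1`, and by that of `Cq g z1.2 z.2 z1.1`, `Mem le (z.2.F g) y z1.1`.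
-/

set_option autoImplicit false
universe u

namespace Pool.Agent.UTop

open Cardinal Pool.Agent.PolF

variable {P K J : Type u} [LinearOrder K] [WellFoundedLT K] [LinearOrder J] [WellFoundedLT J]
  {le : P → P → Prop} {lam : Cardinal.{u}} {pd : J → Set J}
  {e : J → K × K → Set (P × Cn le lam K J)}

private theorem s_up (H : TopH le K lam) {δ : K} {a : ℕ → K} {z w : P × Cn le lam K J}
    (h : Lx pd e Set.univ z w) (hm : Mem le w.2.s (δ, a) w.1) : Mem le z.2.s (δ, a) z.1 :=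
  (h.2.1.2 δ (mem_sel H hm).2.2.1.le a z.1 (H.rf _)).2 (Mem_down H.tr h.1 hm)

theorem SN_sel (H : TopH le K lam) (hpd : PdH pd) {δ : K} {z : P × Cn le lam K J}
    (h : Mem (Lx pd e Set.univ) (SN lam le K J) δ z) :
    ∃ z', Lx pd e Set.univ z' z ∧ ∃ a, Mem le z'.2.s (δ, a) z'.1 := by
  obtain ⟨z', hz', w, ⟨a, hw⟩, hzw⟩ := h z (Lx_refl H _ z)
  exact ⟨z', hz', a, s_up H hzw hw⟩

theorem SN_of (H : TopH le K lam) (hpd : PdH pd) {δ : K} {a : ℕ → K} {z : P × Cn le lam K J}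
    (h : Mem le z.2.s (δ, a) z.1) : Mem (Lx pd e Set.univ) (SN lam le K J) δ z := by
  exact fun z' hz' => ⟨z', Lx_refl H _ z', z, ⟨a, h⟩, hz'⟩

theorem AN_of (H : TopH le K lam) (hpd : PdH pd) {δ : K} {a : ℕ → K} {z : P × Cn le lam K J}
    (h : Mem le z.2.s (δ, a) z.1) (n : ℕ) :
    Mem (Lx pd e Set.univ) (AN lam le K J) (δ, a n) z := by
  exact fun z' hz' => ⟨z', Lx_refl H _ z', z, ⟨a, h, n, rfl⟩, hz'⟩

theorem AN_sel (H : TopH le K lam) (hpd : PdH pd) {δ y : K} {a : ℕ → K} {z : P × Cn le lam K J}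
    (h : Mem le z.2.s (δ, a) z.1) (hy : Mem (Lx pd e Set.univ) (AN lam le K J) (δ, y) z) :
    ∃ n, a n = y := by
  obtain ⟨z', hz', w, ⟨a', hw, n, hn⟩, hzw⟩ := hy z (Lx_refl H _ z)
  have h1 : Mem le z'.2.s (δ, a') z'.1 := s_up H hzw hw
  have h2 : Mem le z'.2.s (δ, a) z'.1 := s_up H hz' h
  have h3 : a' = a := z'.2.inc δ a' a z'.1 h1 h2
  exact ⟨n, by rw [← h3]; exact hn⟩

/-- the name of the function which is `f0` below `h1` and the generic function of the coordinate `g`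
above `h1` -/
def fN (h1 : K) (g : J) (f0 : K → Set P) (y : K) : Set (P × Cn le lam K J) :=
  {z | (y < h1 ∧ Mem le f0 y z.1) ∨ (h1 ≤ y ∧ y < z.2.h ∧ g ∈ z.2.sp ∧ Mem le (z.2.F g) y z.1)}

theorem fN_lo (H : TopH le K lam) (hpd : PdH pd) {h1 : K} {g : J} {f0 : K → Set P} {y : K}
    (hy : y < h1) (z : P × Cn le lam K J) :
    Mem (Lx pd e Set.univ) (fN h1 g f0) y z ↔ Mem le f0 y z.1 := by
  constructor
  · intro h
    refine Mem_loc H.tr H.rf fun t1 ht1 => ?_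
    obtain ⟨z1, hz1, w, hw, hzw⟩ := h (t1, z.2) ⟨ht1, Lq_refl H _ z.2 t1⟩
    rcases hw with hw | hw
    · exact ⟨z1.1, hz1.1, Mem_down H.tr hzw.1 hw.2⟩
    · exact absurd hw.1 (not_le.2 hy)
  · exact fun h z' hz' => ⟨z', Lx_refl H _ z', z, Or.inl ⟨hy, h⟩, hz'⟩

theorem fN_hi (H : TopH le K lam) (hpd : PdH pd) {h1 : K} {g : J} {f0 : K → Set P} {y : K}
    (hy : h1 ≤ y) {z : P × Cn le lam K J} (hz : y < z.2.h) (hg : g ∈ z.2.sp) :
    Mem (Lx pd e Set.univ) (fN h1 g f0) y z ↔ Mem le (z.2.F g) y z.1 := by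
  constructor
  · intro h
    refine Mem_loc H.tr H.rf fun t1 ht1 => ?_
    obtain ⟨z1, hz1, w, hw, hzw⟩ := h (t1, z.2) ⟨ht1, Lq_refl H _ z.2 t1⟩
    rcases hw with hw | hw
    · exact absurd hw.1 (not_lt.2 hy)
    · have h1 : Mem le (z1.2.F g) y z1.1 :=
        ((hzw.2.2 g (Set.mem_univ g) hw.2.2.1).2.1 y hw.2.1 z1.1 (H.rf _)).2
          (Mem_down H.tr hzw.1 hw.2.2.2)
      exact ⟨z1.1, hz1.1, ((hz1.2.2 g (Set.mem_univ g) hg).2.1 y hz z1.1 (H.rf _)).1 h1⟩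
  · exact fun h z' hz' => ⟨z', Lx_refl H _ z', z, Or.inr ⟨hy, hz, hg, h⟩, hz'⟩

end Pool.Agent.UTop
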