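import Pool.Agent.Lib.UTop.Glu

/-!
# Tp0: the first condition selecting the limit point

PROOF. Let `l n = (Q n).h`, strictly increasing. By induction `Ex pd' e' ∅ (Q m) (Q n)` for `n ≤ m` (`Ex_refl`, `Ex_trans`); `glu` for `T = ULift ℕ` gives `q`: `Ex ∅ q (Q n)`, `∀ x < q.h, ∃ n, x < l n`, `q.s x = ⋃ n, (Q n).s x`. `δ = q.h`: `l n < l (n+1) ≤ δ`, so `Lim l δ`. `h'` above `δ` by `H.bdd {δ}`. `r`: `h = h'`, `cl = {h'}`, `s (x, a) = univ` if `x = δ ∧ a = l`, else
`q.s (x, a)`, `sp = ∅`, `F = ∅`. `cld`: `{h'}` has no limit points. `sel`: for `(δ, l)`: `l` is strictly increasing, `Lim l δ`, `δ < h'`; for other `(x, a)`: `q.sel`, `x < δ < h'`. Note `q.s (δ, a) = ∅` for all `a` (`sel`). `inc`: for `x = δ` only `a = l` has a nonempty value; otherwise `q.inc`. `hs`: one more element (`H.inf`).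
`lu`: for `c` let `f1` be given by `q.lu c`, `f ξ = c (δ, ξ)` if `ξ = l n` for some `n`, else `f1 ξ`. For `(δ, l)`: `Unf` with the bound `l 0`, since `f (l n) = c (δ, l n)`. Let `x < δ`, `Mem le q.s (x, a) t`, `x ∉ q.cl`, `a 0 < x`: by `q.cld` there is `y < x` such that no `z ∈ q.cl` has `y < z < x`. As `l n ∈ (Q n).cl` and `l n ≤ (Q n).h`, `l n ∈ q.cl` (`Ex.2`). So for
`y < a m` (and `a m < x`) `a m` is not of the form `l n` and `f (a m) = f1 (a m)`: `Unf_congr` with the bound `y`. The statements: for `x ≤ (Q n).h < δ`: `r.s (x, a) = q.s (x, a)` and `Bq q (Q n) t`. (`Mem le r.s (δ, a) t ↔ a = l`: (←) `H.rf`.)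
-/

set_option autoImplicit false
universe u

namespace Pool.Agent.UTop

open Cardinal Pool.Agent.PolF

variable {P K G J' : Type u} [LinearOrder K] [WellFoundedLT K] [LinearOrder G]
  [LinearOrder J'] [WellFoundedLT J'] {le : P → P → Prop} {lam : Cardinal.{u}}

open Classical in
/-- the selection with the additional ladder `l` at `δ` -/
private noncomputable def tp0S (q : K × (ℕ → K) → Set P) (δ : K) (l : ℕ → K)
    (x : K × (ℕ → K)) : Set P :=
  if x.1 = δ ∧ x.2 = l then Set.univ else q x

theorem tp0 (H : TopH le K lam) {pd' : J' → Set J'} (hpd' : PdH pd')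
    {e' : J' → K × K → Set (P × Cn le lam K J')} (Q : ℕ → Cn le lam K J')
    (hlt : ∀ n, (Q n).h < (Q (n + 1)).h) (hex : ∀ n, Ex pd' e' ∅ (Q (n + 1)) (Q n)) :
    ∃ (δ : K) (r : Cn le lam K G), Lim (fun n => (Q n).h) δ ∧ δ < r.h ∧
      (∀ n, ∀ x ≤ (Q n).h, ∀ a t, Mem le r.s (x, a) t ↔ Mem le (Q n).s (x, a) t) ∧
      ∀ a t, Mem le r.s (δ, a) t ↔ a = fun n => (Q n).h := by
  classical
  obtain ⟨t0⟩ := H.ne
  set l : ℕ → K := fun n => (Q n).h with hl
  have hmono : StrictMono l := strictMono_nat_of_lt_succ hlt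
  have hE : ∀ n m, n ≤ m → Ex pd' e' ∅ (Q m) (Q n) := by
    intro n m hnm
    induction m, hnm using Nat.le_induction with
    | base => exact Ex_refl H _ _
    | succ m _ ih => exact Ex_trans H hpd' (fun g hg => absurd hg (Set.notMem_empty g)) (hex m) ih
  have hT : #(ULift.{u} ℕ) ≤ lam := by
    rw [mk_uLift, mk_nat, lift_aleph0]
    exact H.inf.le
  obtain ⟨q, hq1, hq2, -⟩ := glu H (pd := pd') (e := e') (T := ULift.{u} ℕ) hT
    (fun i => Q i.down) (fun i j => by
      rcases le_total i.down j.down with h | h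
      · exact Or.inl (hE _ _ h)
      · exact Or.inr (hE _ _ h))
  have hq1' : ∀ n, Ex pd' e' ∅ q (Q n) := fun n => hq1 ⟨n⟩
  set δ : K := q.h with hδ
  have hlδ : ∀ n, l n < δ := fun n =>
    (hlt n).trans_le (((hq1' (n + 1)).1 t0).1.1)
  have hLim : Lim l δ := ⟨hlδ, fun x hx => by
    obtain ⟨i, hi⟩ := hq2 x hx
    exact ⟨i.down, hi⟩⟩
  have hlcl : ∀ n, l n ∈ q.cl := fun n => ((hq1' n).2 (l n) le_rfl).2 (Q n).hcl
  obtain ⟨h', hh'⟩ := H.bdd {δ} (by
    rw [mk_singleton]
    exact one_le_aleph0.trans H.inf.le)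
  have hδh : δ < h' := hh' δ rfl
  set S := tp0S (P := P) q.s δ l with hS
  have s1 : ∀ x a, x ≠ δ → S (x, a) = q.s (x, a) := fun x a hx => if_neg fun h => hx h.1
  have s1' : ∀ x a t, x ≠ δ → (Mem le S (x, a) t ↔ Mem le q.s (x, a) t) := by
    intro x a t hx
    unfold Mem
    rw [s1 x a hx]
  have s0 : S (δ, l) = Set.univ := if_pos ⟨rfl, rfl⟩
  have s0' : ∀ a, a ≠ l → S (δ, a) = ∅ := by
    intro a ha
    have h1 : S (δ, a) = q.s (δ, a) := if_neg fun h => ha h.2
    rw [h1, Set.eq_empty_iff_forall_notMem]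
    intro t ht
    exact absurd (q.sel δ a ⟨t, ht⟩).2.2.1 (lt_irrefl _)
  have s2 : ∀ a t, Mem le S (δ, a) t ↔ a = l := by
    intro a t
    constructor
    · intro hm
      by_contra ha
      obtain ⟨r, -, b, hb, -⟩ := hm t (H.rf t)
      rw [s0' a ha] at hb
      exact hb
    · rintro rfl
      intro p _
      exact ⟨p, H.rf p, p, by rw [s0]; trivial, H.rf p⟩
  let r : Cn le lam K G :=
    { h := h'
      cl := {h'}
      s := S
      sp := ∅
      F := fun _ _ => ∅
      hcl := rfl
      clh := fun x hx => le_of_eq hx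
      cld := by
        rintro x ⟨y, hy⟩ hx
        exfalso
        obtain ⟨z, hz, -, hzx⟩ := hx y hy
        obtain ⟨z', hz', hzz', -⟩ := hx z hzx
        rw [Set.mem_singleton_iff] at hz hz'
        rw [hz, hz'] at hzz'
        exact lt_irrefl _ hzz'
      sel := by
        intro x a hn
        by_cases hx : x = δ
        · subst hx
          by_cases ha : a = l
          · rw [ha]
            exact ⟨hmono, hLim, hδh, fun h => absurd (Set.mem_singleton_iff.1 h) hδh.ne⟩
          · rw [s0' a ha] at hn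
            exact absurd hn Set.not_nonempty_empty
        · rw [s1 x a hx] at hn
          obtain ⟨h1, h2, h3, -⟩ := q.sel x a hn
          have h4 : x < h' := h3.trans hδh
          exact ⟨h1, h2, h4, fun h => absurd (Set.mem_singleton_iff.1 h) h4.ne⟩
      inc := by
        intro x a b t h1 h2
        by_cases hx : x = δ
        · subst hx
          rw [(s2 a t).1 h1, (s2 b t).1 h2]
        · exact q.inc x a b t ((s1' x a t hx).1 h1) ((s1' x b t hx).1 h2)
      hs := by
        have h1 : {x | (S x).Nonempty} ⊆ {(δ, l)} ∪ {x | (q.s x).Nonempty} := by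
          rintro ⟨x, a⟩ hx
          by_cases hxδ : x = δ
          · by_cases ha : a = l
            · rw [hxδ, ha]
              exact Or.inl rfl
            · have hx' : (S (x, a)).Nonempty := hx
              rw [hxδ, s0' a ha] at hx'
              exact absurd hx' Set.not_nonempty_empty
          · have hx' : (S (x, a)).Nonempty := hx
            rw [s1 x a hxδ] at hx'
            exact Or.inr hx'
        have h2 : #{x // (q.s x).Nonempty} ≤ lam := q.hs
        calc #{x // (S x).Nonempty}
            ≤ #(({(δ, l)} ∪ {x | (q.s x).Nonempty} : Set (K × (ℕ → K)))) :=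
              mk_le_mk_of_subset h1
          _ ≤ #({(δ, l)} : Set (K × (ℕ → K))) + #{x // (q.s x).Nonempty} := mk_union_le _ _
          _ ≤ lam + lam := by
              refine add_le_add ?_ h2
              rw [mk_singleton]
              exact one_le_aleph0.trans H.inf.le
          _ = lam := add_eq_self H.inf.le
      hsp := by
        rw [mk_eq_zero]
        exact zero_le
      out := fun g ξ h => absurd h Set.not_nonempty_empty
      lu := by
        intro c
        obtain ⟨f1, hf1⟩ := q.lu c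
        refine ⟨fun ξ => if ∃ n, l n = ξ then c (δ, ξ) else f1 ξ, ?_⟩
        intro x a t hm
        by_cases hx : x = δ
        · subst hx
          have ha := (s2 a t).1 hm
          subst ha
          intro p _
          refine ⟨p, H.rf p, ⟨l 0, hlδ 0⟩, fun n _ => ?_⟩
          intro p' _
          have h1 : (if ∃ m, l m = l n then c (δ, l n) else f1 (l n)) = c (δ, l n) :=
            if_pos ⟨n, rfl⟩
          show (∀ q, le q p' → ∃ r, le r q ∧ ∃ b ∈ (if ∃ m, l m = l n then c (δ, l n)
            else f1 (l n)), le r b) ↔ Mem le c (δ, l n) p'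
          rw [h1]
          exact Iff.rfl
        · have h1 := (s1' x a t hx).1 hm
          obtain ⟨-, h3, h4, h5⟩ := mem_sel H h1
          have h6 : ∃ y < x, ∀ z ∈ q.cl, y < z → ¬ z < x := by
            by_contra hcon
            push Not at hcon
            exact h5 (q.cld x ⟨a 0, h3.1 0⟩ fun y hy => hcon y hy)
          obtain ⟨y, hy, hyz⟩ := h6
          refine Unf_congr H hy ?_ (hf1 x a t h1)
          intro n hn p' _
          have h7 : ¬ ∃ m, l m = a n := by
            rintro ⟨m, hm'⟩
            have h8 := hyz (l m) (hlcl m)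
            rw [hm'] at h8
            exact h8 hn (h3.1 n)
          have h9 : (if ∃ m, l m = a n then c (δ, a n) else f1 (a n)) = f1 (a n) := if_neg h7
          show (∀ q, le q p' → ∃ r, le r q ∧ ∃ b ∈ (if ∃ m, l m = a n then c (δ, a n)
            else f1 (a n)), le r b) ↔ Mem le f1 (a n) p'
          rw [h9]
          exact Iff.rfl }
  refine ⟨δ, r, hLim, hδh, ?_, s2⟩
  intro n x hx a t
  have hxδ : x ≠ δ := ne_of_lt (hx.trans_lt (hlδ n))
  exact (s1' x a t hxδ).trans ((((hq1' n).1 t).1.2 x hx a) t (H.rf t))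

end Pool.Agent.UTop
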