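import Pool.Agent.Lib.UTop.Fnl
import Pool.Agent.Lib.UTop.Tp0
import Pool.Agent.Lib.UTop.Sel
import Pool.Agent.Lib.UlM.Blk

/-!
# Sts: the set `S` is stationary

Write `L = Lx (pdI G) e univ`.

PROOF. Let `FOmc L cw C (t0, p0)`. `sqn` (with its first clause) gives `Q`, `A`; `tp0` gives `δ`, `r0`; `fnl` gives `r`, `w`. Let `l n = (Q n).h`, `z = (t0, r)`. `z ≤ (t0, p0)`: `Lq univ r (pb (tn 0 w) (Q 0)) t0` and `hT.base 0`. `Mem le r.s (δ, l) t0`: `tp0` and `Ex ∅ r r0` (`δ < r0.h`); so `Mem L SN δ z` (`SN_of`). `Mem L C δ z`: the second clause of `FOmc` at `δ` (`cw δ`: `⟨l, _⟩`)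
with `q = z`: let `b < δ`, `z1 ≤ z`; `b < l n` for some `n`. `p = pb (tn (n+1) w) (Q (n+1))`; `hT.gn n` (`tn (n+1) w ∈ Ug P A (n+1)`) at `z1.1 ≤ t0`: `t' ≤ z1.1`, `l n < y < p.h = l (n+1) < δ`, `Mem L C y (t', p)`. `(t', z1.2) ≤ (t', p)` (`Lq univ z1.2 r`, `Lq univ r p`), so `(t', z1.2) ≤ z1` is as required.
-/

set_option autoImplicit false
universe u

namespace Pool.Agent.UTop

open Cardinal Pool.Agent.PolF

variable {P K G : Type u} [LinearOrder K] [WellFoundedLT K] [LinearOrder G] [WellFoundedLT G]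
  {le : P → P → Prop} {lam : Cardinal.{u}} {e : G → K × K → Set (P × Cn le lam K G)}

theorem sts (H : TopH le K lam) :
    UlM.FStatO (Lx (pdI G) e Set.univ) (fun y => ∃ a : ℕ → K, Lim a y) (SN lam le K G) := by
  rintro C ⟨t0, p0⟩ ⟨hC1, hC2⟩
  have hDC : DC (pdI G) (Set.univ : Set G) := fun g _ => Set.subset_univ _
  have htr := Lx_trans (e := e) H pdI_H Set.univ hDC
  obtain ⟨Q, A, hT⟩ := sqn H hC1
  obtain ⟨δ, r0, hδ, hr0, hr1, hr2⟩ := tp0 (G := G) H pdT_H Q hT.lt hT.ex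
  obtain ⟨r, w, hr, hw, hL⟩ := fnl H hT hδ hr0 hr1 hr2
  have hz : Lx (pdI G) e Set.univ (t0, r) (t0, p0) :=
    ⟨H.rf _, Lq_trans H pdI_H hDC (hL 0 t0) ((hT.base 0 (tn 0 w) (hw 0)).1 t0)⟩
  have hs : Mem le r.s (δ, fun n => (Q n).h) t0 :=
    ((hr.1 t0).1.2 δ hr0.le _ t0 (H.rf t0)).2 ((hr2 _ t0).2 rfl)
  refine ⟨(t0, r), hz, δ, ?_, SN_of H pdI_H (z := (t0, r)) hs⟩
  refine hC2 δ ⟨_, hδ⟩ (t0, r) hz fun b hb z1 hz1 => ?_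
  obtain ⟨n, hn⟩ := hδ.2 b hb
  obtain ⟨t', ht', y, hy1, hy2, hy3⟩ := hT.gn n (tn (n + 1) w) (hw (n + 1)) z1.1 hz1.1
  refine ⟨(t', z1.2), ⟨ht', Lq_refl H Set.univ z1.2 t'⟩, ⟨y, hn.trans hy1, lt_trans hy2
    (hδ.1 (n + 1))⟩, ?_⟩
  have h5 : Lx (pdI G) e Set.univ (t', z1.2) (t', pb (tn (n + 1) w) (Q (n + 1))) :=
    ⟨H.rf _, Lq_trans H pdI_H hDC (Lq_down H ht' hz1.2) (hL (n + 1) t')⟩
  exact Mem_down htr h5 hy3

end Pool.Agent.UTop
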