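import Pool.Agent.Lib.UTop.Gam

/-!
# Enu: the bookkeeping function

PROOF. For `g : J` there are at most `succ lam` conditions with coordinates below `g` (`cn_card` with `G = Iio g`, `μ = succ lam`, `pow_lam`), so at most `2 ^ (succ lam) = succ (succ lam)` names `c : K × K → Set (P × Cn ..)` with all coordinates below `g` (such a name is a subset of
`(K × K) × (P × {q // q.sp ⊆ Iio g})`, of size `≤ succ lam` by `card_K`). Let `N` be the set of the names with coordinates below some `g`: `#N ≤ #J * #J = #J` (`hG.crd`), `N` is nonempty (`fun _ => ∅`). There is a surjection `φ : J → N × J` (`#(N × J) ≤ #J`, `Cardinal.mk_le_iff` etc.), `e g = (φ g).1`.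
For `c`, `g`: the set of `g'` with `(φ g').1 = c` is mapped onto `J` by `(φ ·).2`, so it has size `#J > succ lam ≥ #(Iio g)`, hence it has an element `g' ≥ g`.
-/

set_option autoImplicit false
universe u

namespace Pool.Agent.UTop

open Cardinal Pool.Agent.PolF

variable {P K J : Type u} [LinearOrder K] [WellFoundedLT K] [LinearOrder J] [WellFoundedLT J]
  {le : P → P → Prop} {lam : Cardinal.{u}}

/-- every name with bounded coordinates is listed arbitrarily late -/
def Bk (e : J → K × K → Set (P × Cn le lam K J)) : Prop :=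
  ∀ (g : J) (c : K × K → Set (P × Cn le lam K J)), (∀ y, ∀ w ∈ c y, w.2.sp ⊆ Set.Iio g) →
    ∃ g', g ≤ g' ∧ e g' = c

/-- the names with all coordinates below `g` -/
private def NmB (lam : Cardinal.{u}) (le : P → P → Prop) (K J : Type u) [LinearOrder K]
    [LinearOrder J] (g : J) (c : K × K → Set (P × Cn le lam K J)) : Prop :=
  ∀ y, ∀ w ∈ c y, w.2.sp ⊆ Set.Iio g

private theorem NmB_card (H : TopH le K lam) (hG : GamH J lam) (g : J) :
    #{c : K × K → Set (P × Cn le lam K J) // NmB lam le K J g c} ≤ #J := by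
  have hinf1 : ℵ₀ ≤ Order.succ lam := H.inf.le.trans (Order.le_succ _)
  have hp : (Order.succ lam) ^ lam = Order.succ lam := by
    rw [← H.pow, ← Cardinal.power_mul, Cardinal.mul_eq_self H.inf.le]
  have hQ : #{q : Cn le lam K J // q.sp ⊆ Set.Iio g} ≤ Order.succ lam :=
    cn_card H (Order.succ lam) le_rfl hp (Set.Iio g) (hG.iio g)
  have hinj : Function.Injective
      (fun (c : {c : K × K → Set (P × Cn le lam K J) // NmB lam le K J g c}) (y : K × K) =>
        ({w | (w.1, w.2.1) ∈ c.1 y} : Set (P × {q : Cn le lam K J // q.sp ⊆ Set.Iio g}))) := by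
    intro c c' hcc
    apply Subtype.ext
    funext y
    have h1 := congrFun hcc y
    ext w
    constructor
    · intro hw
      have h2 : ((w.1, ⟨w.2, c.2 y w hw⟩) : P × {q : Cn le lam K J // q.sp ⊆ Set.Iio g}) ∈
          ({w | (w.1, w.2.1) ∈ c.1 y} : Set (P × {q : Cn le lam K J // q.sp ⊆ Set.Iio g})) := hw
      have h3 : ((w.1, ⟨w.2, c.2 y w hw⟩) : P × {q : Cn le lam K J // q.sp ⊆ Set.Iio g}) ∈
          ({w | (w.1, w.2.1) ∈ c'.1 y} : Set (P × {q : Cn le lam K J // q.sp ⊆ Set.Iio g})) := by
        rw [← show _ = ({w | (w.1, w.2.1) ∈ c'.1 y} :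
          Set (P × {q : Cn le lam K J // q.sp ⊆ Set.Iio g})) from h1]
        exact h2
      exact h3
    · intro hw
      have h2 : ((w.1, ⟨w.2, c'.2 y w hw⟩) : P × {q : Cn le lam K J // q.sp ⊆ Set.Iio g}) ∈
          ({w | (w.1, w.2.1) ∈ c'.1 y} : Set (P × {q : Cn le lam K J // q.sp ⊆ Set.Iio g})) := hw
      have h3 : ((w.1, ⟨w.2, c'.2 y w hw⟩) : P × {q : Cn le lam K J // q.sp ⊆ Set.Iio g}) ∈
          ({w | (w.1, w.2.1) ∈ c.1 y} : Set (P × {q : Cn le lam K J // q.sp ⊆ Set.Iio g})) := by
        rw [show ({w | (w.1, w.2.1) ∈ c.1 y} :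
          Set (P × {q : Cn le lam K J // q.sp ⊆ Set.Iio g})) = _ from h1]
        exact h2
      exact h3
  refine (Cardinal.mk_le_of_injective hinj).trans ?_
  rw [← Cardinal.power_def, Cardinal.mk_set, ← Cardinal.mul_def, ← Cardinal.mul_def,
    ← Cardinal.power_mul, hG.crd, ← hG.pow]
  refine Cardinal.power_le_power_left two_ne_zero ?_
  have hK : #K ≤ Order.succ lam := (card_K H).le
  have hP : #P ≤ Order.succ lam := H.hP.le.trans (Order.le_succ _)
  exact Cardinal.mul_le_of_le hinf1 (Cardinal.mul_le_of_le hinf1 hP hQ)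
    (Cardinal.mul_le_of_le hinf1 hK hK)

theorem enu (H : TopH le K lam) (hG : GamH J lam) :
    ∃ e : J → K × K → Set (P × Cn le lam K J), Bk e := by
  classical
  have hinf2 : ℵ₀ ≤ #J := by
    rw [hG.crd]
    exact H.inf.le.trans ((Order.le_succ _).trans (Order.le_succ _))
  have hne : Nonempty J := Cardinal.mk_ne_zero_iff.1 (Cardinal.aleph0_pos.trans_le hinf2).ne'
  -- injections of the sets of names
  have hemb : ∀ g : J, ∃ f : (K × K → Set (P × Cn le lam K J)) → J,
      ∀ c c', NmB lam le K J g c → NmB lam le K J g c' → f c = f c' → c = c' := by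
    intro g
    obtain ⟨i⟩ := Cardinal.le_def _ _ |>.1 (NmB_card (le := le) H hG g)
    refine ⟨fun c => if h : NmB lam le K J g c then i ⟨c, h⟩ else hne.some, ?_⟩
    intro c c' hc hc' hcc
    simp only [dif_pos hc, dif_pos hc'] at hcc
    exact congrArg Subtype.val (i.injective hcc)
  choose f hf using hemb
  set N : Type u := {c : K × K → Set (P × Cn le lam K J) // ∃ g, NmB lam le K J g c} with hN
  have hNJ : #N ≤ #J := by
    have hinj : Function.Injective (fun c : N => ((c.2.choose, f c.2.choose c.1) : J × J)) := by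
      intro c c' hcc
      have h1 : c.2.choose = c'.2.choose := congrArg Prod.fst hcc
      have h2 : f c.2.choose c.1 = f c'.2.choose c'.1 := congrArg Prod.snd hcc
      rw [← h1] at h2
      have h3 : NmB lam le K J c.2.choose c'.1 := by
        rw [h1]
        exact c'.2.choose_spec
      exact Subtype.ext (hf _ _ _ c.2.choose_spec h3 h2)
    refine (Cardinal.mk_le_of_injective hinj).trans ?_
    rw [← Cardinal.mul_def, Cardinal.mul_eq_self hinf2]
  have hNJ2 : #(N × J) ≤ #J := by
    rw [← Cardinal.mul_def]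
    exact Cardinal.mul_le_of_le hinf2 hNJ le_rfl
  obtain ⟨i⟩ := Cardinal.le_def _ _ |>.1 hNJ2
  have hNne : Nonempty (N × J) := ⟨(⟨fun _ => ∅, hne.some, fun _ _ h => absurd h (Set.notMem_empty _)⟩,
    hne.some)⟩
  refine ⟨fun g => (Function.invFun i g).1.1, ?_⟩
  intro g c hc
  by_contra hno
  push Not at hno
  have hall : ∀ j : J, i (⟨c, g, hc⟩, j) < g := by
    intro j
    by_contra hj
    refine hno (i (⟨c, g, hc⟩, j)) (not_lt.1 hj) ?_
    rw [Function.leftInverse_invFun i.injective (⟨c, g, hc⟩, j)]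
  have hinj : Function.Injective (fun j : J => (⟨i (⟨c, g, hc⟩, j), hall j⟩ : Set.Iio g)) := by
    intro j j' hjj
    have h1 := i.injective (congrArg Subtype.val hjj)
    exact congrArg Prod.snd h1
  have h1 := (Cardinal.mk_le_of_injective hinj).trans (hG.iio g)
  rw [hG.crd] at h1
  exact absurd (Order.lt_succ (Order.succ lam)) (not_lt.2 h1)

end Pool.Agent.UTop
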