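import Pool.Agent.Lib.UTop.Trn

/-!
# Hgt: trivial extensions
-/

set_option autoImplicit false
universe u

namespace Pool.Agent.UTop

open Cardinal Pool.Agent.PolF

variable {P K J : Type u} [LinearOrder K] [LinearOrder J] [WellFoundedLT J]
  {le : P → P → Prop} {lam : Cardinal.{u}} {pd : J → Set J}
  {e : J → K × K → Set (P × Cn le lam K J)}

theorem hgt (H : TopH le K lam) (hpd : PdH pd) (q : Cn le lam K J) (b : K) :
    ∃ q' : Cn le lam K J, (∀ X, Ex pd e X q' q) ∧ b < q'.h ∧ q'.s = q.s ∧ q'.sp = q.sp ∧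
      q'.F = q.F := by
  have hfin : #({q.h, b} : Set K) ≤ lam :=
    (Cardinal.lt_aleph0_of_finite _).le.trans H.inf.le
  obtain ⟨h', hh'⟩ := H.bdd {q.h, b} hfin
  have hq : q.h < h' := hh' q.h (Set.mem_insert _ _)
  have hb : b < h' := hh' b (Set.mem_insert_of_mem _ rfl)
  let q' : Cn le lam K J :=
    { q with
      h := h'
      cl := q.cl ∪ {h'}
      hcl := Or.inr rfl
      clh := by
        rintro x (hx | hx)
        · exact (q.clh x hx).trans hq.le
        · exact (Set.mem_singleton_iff.1 hx).le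
      cld := by
        intro x hx hy
        rcases le_or_gt x h' with hxh | hxh
        · refine Or.inl (q.cld x hx fun y hyx => ?_)
          obtain ⟨z, hz, hyz, hzx⟩ := hy y hyx
          rcases hz with hz | hz
          · exact ⟨z, hz, hyz, hzx⟩
          · rw [Set.mem_singleton_iff.1 hz] at hzx
            exact absurd (lt_of_lt_of_le hzx hxh) (lt_irrefl _)
        · obtain ⟨z, hz, hyz, hzx⟩ := hy h' hxh
          rcases hz with hz | hz
          · exact absurd (hyz.trans_le ((q.clh z hz).trans hq.le)) (lt_irrefl _)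
          · rw [Set.mem_singleton_iff.1 hz] at hyz
            exact absurd hyz (lt_irrefl _)
      sel := by
        intro δ a hs
        obtain ⟨h1, h2, h3, h4⟩ := q.sel δ a hs
        refine ⟨h1, h2, h3.trans hq, ?_⟩
        rintro (h | h)
        · exact h4 h
        · rw [Set.mem_singleton_iff.1 h] at h3
          exact absurd (h3.trans hq) (lt_irrefl _)
      out := fun g ξ hg => ⟨(q.out g ξ hg).1, (q.out g ξ hg).2.trans hq⟩ }
  refine ⟨q', fun X => ⟨fun t => ⟨⟨hq.le, fun δ _ a s _ => Iff.rfl⟩, fun i _ hi =>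
    ⟨hi, fun ξ _ s _ => Iff.rfl, fun δ a hδ s _ hm => ?_⟩⟩, fun x hx => ?_⟩, hb, rfl, rfl, rfl⟩
  · have hm' : Mem le q.s (δ, a) s := hm
    exact absurd hδ (lt_asymm (mem_sel H hm').2.2.1)
  · refine ⟨?_, fun h => Or.inl h⟩
    rintro (h | h)
    · exact h
    · rw [Set.mem_singleton_iff.1 h] at hx
      exact absurd (hq.trans_le hx) (lt_irrefl _)

theorem crd (H : TopH le K lam) (hpd : PdH pd) (q : Cn le lam K J) (g : J) :
    ∃ q' : Cn le lam K J, (∀ X, Ex pd e X q' q) ∧ g ∈ q'.sp ∧ q'.s = q.s ∧ q'.h = q.h := by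
  have h1 : #(insert g q.sp : Set J) ≤ lam := by
    refine Cardinal.mk_insert_le.trans ?_
    refine (add_le_add q.hsp le_rfl).trans ?_
    exact (Cardinal.add_eq_left H.inf.le (Cardinal.one_lt_aleph0.le.trans H.inf.le)).le
  have h2 : ∀ i ξ, (q.F i ξ).Nonempty → i ∈ insert g q.sp ∧ ξ < q.h :=
    fun i ξ hi => ⟨Set.mem_insert_of_mem _ (q.out i ξ hi).1, (q.out i ξ hi).2⟩
  refine ⟨upd q (insert g q.sp) q.F h1 h2, fun X => ⟨fun t => ⟨⟨le_refl _, fun δ _ a s _ => Iff.rfl⟩,
    fun i _ hi => ⟨Set.mem_insert_of_mem _ hi, fun ξ _ s _ => Iff.rfl, fun δ a hδ s _ hm => ?_⟩⟩,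
    fun x _ => Iff.rfl⟩, Set.mem_insert _ _, rfl, rfl⟩
  have hm' : Mem le q.s (δ, a) s := hm
  exact absurd hδ (lt_asymm (mem_sel H hm').2.2.1)

theorem cn_ne (H : TopH le K lam) : Nonempty (Cn le lam K J) := by
  obtain ⟨b, -⟩ := H.bdd ∅ (by simp)
  have hemp : ∀ (x : K × (ℕ → K)) (t : P), ¬ Mem le (fun _ : K × (ℕ → K) => (∅ : Set P)) x t := by
    intro x t hm
    obtain ⟨r, -, y, hy, -⟩ := hm t (H.rf t)
    exact hy
  exact ⟨
    { h := b
      cl := {b}
      s := fun _ => ∅
      sp := ∅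
      F := fun _ _ => ∅
      hcl := rfl
      clh := fun x hx => (Set.mem_singleton_iff.1 hx).le
      cld := by
        rintro x ⟨y, hy⟩ h
        obtain ⟨z, hz, hyz, hzx⟩ := h y hy
        rw [Set.mem_singleton_iff.1 hz] at hzx
        obtain ⟨w, hw, hbw, hwx⟩ := h b hzx
        rw [Set.mem_singleton_iff.1 hw] at hbw
        exact absurd hbw (lt_irrefl _)
      sel := fun δ a hs => absurd hs Set.not_nonempty_empty
      inc := fun δ a c t hm _ => absurd hm (hemp _ _)
      hs := by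
        have : IsEmpty {x : K × (ℕ → K) // (∅ : Set P).Nonempty} :=
          ⟨fun x => Set.not_nonempty_empty x.2⟩
        rw [Cardinal.mk_eq_zero]
        exact zero_le
      hsp := by simp
      out := fun g ξ hs => absurd hs Set.not_nonempty_empty
      lu := fun c => ⟨fun _ => ∅, fun δ a t hm => absurd hm (hemp _ _)⟩ }⟩

end Pool.Agent.UTop
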