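import Pool.Agent.Lib.UTop.Sel
import Pool.Agent.Lib.UTop.Enu
import Pool.Agent.Lib.UTop.Hgt
import Pool.Agent.Lib.UlM.Blk

/-!
# Uni: the uniformization property

Write `L = Lx (pdI J) e Set.univ`, `La g = Lx (pdI J) e (Iio g)`.

PROOF. `c`, `p = (t0, p0)` given. `nam` (`D = K × K`, `card_K`) gives `c'`, `g0`, and `hB` gives `g ≥ g0` with `e g = c'`; `stg` (`X = Iio g`, `Y = univ`): (1) `Mem (La g) (e g) y z ↔ Mem L c y z`. `crd` gives `p1` with `Ex univ p1 p0`, `g ∈ p1.sp`; `h1 = p1.h`. `dec` for `X = Z = univ` (`AM` is trivial),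
`Y0 = {y | ∃ δ a n, (p1.s (δ, a)).Nonempty ∧ y = (δ, a n)}` (`#Y0 ≤ lam`) gives `p2`, `Ex univ p2 p1`. `c0 = rs (pdI J) e univ c p2`; `f0` from `p1.lu c0`. Answer: `q = (t0, p2)`, `f = fN h1 g f0`. Let `r ≤ q`, `Mem L SN δ r`. `SN_sel`: `r1 = (t1, q1) ≤ r`, `Mem le q1.s (δ, a) t1`.
CASE `δ ≤ h1`: `Mem le p1.s (δ, a) t1` (`Bq q1 p1 t1`), so there are `t2 ≤ t1`, `b < δ` with `Iff' le (Mem le f0 (a n)) (Mem le c0 (δ, a n)) t2` for `b < a n`. Answer: `s = (t2, q1)`, `b`. Let `b < y < δ`, `z ≤ s`, `Mem L AN (δ, y) z`: `y = a n` (`AN_sel`), and for `z' ≤ z`: `Mem L f y z' ↔ Mem le f0 y z'.1` (`fN_lo`)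
`↔ Mem le c0 (δ, y) z'.1 ↔ Mem L c (δ, y) z'` (`dnm`, with `Lq univ z'.2 p2 z'.1`, `(p1.s (δ, a)).Nonempty`).
CASE `h1 < δ`: the third clause of `Cq g q1 p1 t1` gives `Ob g t1 q1 δ a`, by `Ob_iff` at `(t1, q1)`: `z2 ≤ (t1, q1)` (`La g`), `b < δ` with `Iff' (La g) (fun z => Mem le (q1.F g) (a n) z.1) (Mem (La g) (e g) (δ, a n)) z2` for `b < a n`. `amq` gives `q3` with `Ex univ q3 q1`, `Lq (Iio g) q3 z2.2 z2.1`. Answer:
`s = (z2.1, q3)`, the bound `max b h1`. Let `max b h1 < y < δ`, `z ≤ s`, `Mem L AN (δ, y) z`: `y = a n`, and for `z' ≤ z`: `Mem L f y z' ↔ Mem le (z'.2.F g) y z'.1` (`fN_hi`; `y < δ < q1.h ≤ z'.2.h`) `↔ Mem le (q1.F g) y z'.1` (second clause of `Cq g z'.2 q1 z'.1`) `↔ Mem (La g) (e g) (δ, y) z'`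
(`z' ≤ z2` in `La g`) `↔ Mem L c (δ, y) z'` by (1).
-/

set_option autoImplicit false
universe u

namespace Pool.Agent.UTop

open Cardinal Pool.Agent.PolF

variable {P K J : Type u} [LinearOrder K] [WellFoundedLT K] [LinearOrder J] [WellFoundedLT J]
  {le : P → P → Prop} {lam : Cardinal.{u}}

private theorem uni_DC : DC (pdI J) (Set.univ : Set J) := fun _ _ => Set.subset_univ _

private theorem uni_card (H : TopH le K lam) : #(K × K) ≤ Order.succ lam := by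
  rw [Cardinal.mk_prod, Cardinal.lift_id, card_K H,
    Cardinal.mul_eq_self (H.inf.le.trans (Order.le_succ lam))]

private theorem uni_Y0 (H : TopH le K lam) (p1 : Cn le lam K J) :
    #{y : K × K | ∃ δ a, ∃ n : ℕ, (p1.s (δ, a)).Nonempty ∧ y = (δ, a n)} ≤ lam := by
  let f : {x // (p1.s x).Nonempty} × ULift.{u} ℕ → K × K := fun v => (v.1.1.1, v.1.1.2 v.2.down)
  have h1 : {y : K × K | ∃ δ a, ∃ n : ℕ, (p1.s (δ, a)).Nonempty ∧ y = (δ, a n)} ⊆ Set.range f := by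
    rintro y ⟨δ, a, n, hn, rfl⟩
    exact ⟨(⟨(δ, a), hn⟩, ⟨n⟩), rfl⟩
  refine (Cardinal.mk_le_mk_of_subset h1).trans (Cardinal.mk_range_le.trans ?_)
  rw [Cardinal.mk_prod, Cardinal.lift_id, Cardinal.lift_id]
  refine (mul_le_mul' p1.hs (le_of_eq (by simp) : #(ULift.{u} ℕ) ≤ ℵ₀)).trans ?_
  rw [Cardinal.mul_aleph0_eq H.inf.le]

theorem uni (H : TopH le K lam) (hG : GamH J lam) {e : J → K × K → Set (P × Cn le lam K J)}
    (hB : Bk e) : UlM.FUnK (Lx (pdI J) e Set.univ) (SN lam le K J) (AN lam le K J) := by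
  have hpd : PdH (pdI J) := pdI_H
  intro c p
  obtain ⟨c', g0, hc', hcc⟩ := nam (e := e) H hpd hG (uni_card H) c
  obtain ⟨g, hg0, heg⟩ := hB g0 c' hc'
  have hst : ∀ y z, Mem (Lx (pdI J) e Set.univ) c y z ↔
      Mem (Lx (pdI J) e (pdI J g)) (e g) y z := by
    intro y z
    rw [hcc, heg]
    exact stg H hpd (X := pdI J g) (Y := Set.univ) (pdI_DC g) uni_DC (Set.subset_univ _)
      (fun y w hw => (hc' y w hw).trans (Set.Iio_subset_Iio hg0)) y z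
  obtain ⟨p1, hp1, hgp1, -, -⟩ := crd (e := e) H hpd p.2 g
  obtain ⟨p2, hp2, hdec⟩ := dec H hpd (X := Set.univ) (Z := Set.univ) uni_DC uni_DC
    (Set.Subset.refl _) (fun q p h => ⟨q, h, Ex_refl H _ _⟩) c
    {y : K × K | ∃ δ a, ∃ n : ℕ, (p1.s (δ, a)).Nonempty ∧ y = (δ, a n)} (uni_Y0 H p1) p1
  obtain ⟨f0, hf0⟩ := p1.lu (rs (pdI J) e Set.univ c p2)
  refine ⟨(p.1, p2), ⟨H.rf _, Lq_trans H hpd uni_DC (hp2.1 _) ((hp1 Set.univ).1 _)⟩, fN p1.h g f0, ?_⟩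
  intro r δ hr hS
  obtain ⟨r1, hr1, a, ha⟩ := SN_sel H hpd hS
  have hr2 : Lq (pdI J) e Set.univ r1.2 p2 r1.1 := (Lx_trans H hpd _ uni_DC _ _ _ hr1 hr).2
  have hr3 : Lq (pdI J) e Set.univ r1.2 p1 r1.1 := Lq_trans H hpd uni_DC hr2 (hp2.1 _)
  have hdh : δ < r1.2.h := (mem_sel H ha).2.2.1
  -- every stronger condition has the same ladder
  have hlad : ∀ z, Lx (pdI J) e Set.univ z r1 → Mem le z.2.s (δ, a) z.1 := by
    intro z hz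
    exact (hz.2.1.2 δ hdh.le a z.1 (H.rf _)).2 (Mem_down H.tr hz.1 ha)
  rcases le_or_gt δ p1.h with hd | hd
  · have h1 : Mem le p1.s (δ, a) r1.1 := (hr3.1.2 δ hd a r1.1 (H.rf _)).1 ha
    obtain ⟨t2, ht2, b, hb⟩ := hf0 δ a r1.1 h1 r1.1 (H.rf _)
    have hne : (p1.s (δ, a)).Nonempty := by
      obtain ⟨_, _, x, hx, _⟩ := h1 r1.1 (H.rf _)
      exact ⟨x, hx⟩
    have hs1 : Lx (pdI J) e Set.univ (t2, r1.2) r1 := ⟨ht2, Lq_refl H _ _ _⟩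
    refine ⟨(t2, r1.2), Lx_trans H hpd _ uni_DC _ _ _ hs1 hr1, b.1, b.2, ?_⟩
    intro y hy hyd z hz hA
    have hz1 : Lx (pdI J) e Set.univ z r1 := Lx_trans H hpd _ uni_DC _ _ _ hz hs1
    obtain ⟨n, rfl⟩ := AN_sel H hpd (hlad z hz1) hA
    intro z' hz'
    have hz2 : Lx (pdI J) e Set.univ z' (t2, r1.2) := Lx_trans H hpd _ uni_DC _ _ _ hz' hz
    have hz3 : Lq (pdI J) e Set.univ z'.2 p2 z'.1 :=
      Lq_trans H hpd uni_DC hz2.2 (Lq_down H (H.tr _ _ _ hz2.1 ht2) hr2)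
    rw [fN_lo H hpd (hyd.trans_le hd) z', hb n hy z'.1 hz2.1]
    exact (dnm H hpd uni_DC (hdec (δ, a n) ⟨δ, a, n, hne, rfl⟩) hz3).symm
  · have hc1 : Cq (Ob (pdI J) e g) g r1.2 p1 r1.1 := hr3.2 g trivial hgp1
    have ho : Ob (pdI J) e g r1.1 r1.2 δ a := hc1.2.2 δ a hd r1.1 (H.rf _) ha
    obtain ⟨z2, hz2, b, hb⟩ := (Ob_iff hpd g r1.1 r1.2 δ a).1 ho (r1.1, r1.2) (Lx_refl H _ _)
    obtain ⟨q3, hq3, hq3'⟩ := amq H hpd (X := pdI J g) (Y := Set.univ) (pdI_DC g) uni_DC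
      (Set.subset_univ _) hz2.2
    have hs1 : Lx (pdI J) e Set.univ (z2.1, q3) r1 := ⟨hz2.1, hq3.1 _⟩
    refine ⟨(z2.1, q3), Lx_trans H hpd _ uni_DC _ _ _ hs1 hr1, max b.1 p1.h, max_lt b.2 hd, ?_⟩
    intro y hy hyd z hz hA
    have hz1 : Lx (pdI J) e Set.univ z r1 := Lx_trans H hpd _ uni_DC _ _ _ hz hs1
    obtain ⟨n, rfl⟩ := AN_sel H hpd (hlad z hz1) hA
    intro z' hz'
    have hy1 : b.1 < a n := lt_of_le_of_lt (le_max_left _ _) hy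
    have hy2 : p1.h ≤ a n := (lt_of_le_of_lt (le_max_right _ _) hy).le
    have hz3 : Lx (pdI J) e Set.univ z' (z2.1, q3) := Lx_trans H hpd _ uni_DC _ _ _ hz' hz
    have hz4 : Lx (pdI J) e Set.univ z' r1 := Lx_trans H hpd _ uni_DC _ _ _ hz' hz1
    have hz5 : Lx (pdI J) e (pdI J g) z' z2 :=
      Lx_trans H hpd _ (pdI_DC g) _ _ _ (Lx_mono (Set.subset_univ _) hz3) ⟨H.rf _, hq3'⟩
    have hc2 : Cq (Ob (pdI J) e g) g z'.2 r1.2 z'.1 := hz4.2.2 g trivial hc1.1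
    have hyh : a n < r1.2.h := hyd.trans hdh
    rw [fN_hi H hpd hy2 (hyh.trans_le hz4.2.1.1) hc2.1, hc2.2.1 (a n) hyh z'.1 (H.rf _),
      hst (δ, a n) z']
    exact hb n hy1 z' hz5

end Pool.Agent.UTop
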