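import Pool.Agent.Lib.UTop.AmS

/-!
# Ama: amalgamation

PROOF. By well-founded induction on `g`: for all `DC` sets `X ⊆ Y ⊆ Iio g`, `AM pd e X Y`: by `ams`; for `g' ∈ Y`, `Y ∩ Iio g' ⊆ Iio g'` and `g' < g`. Then `ams` again for arbitrary `Y`. `amq`: `mix` gives `a'` with `Ex pd e X a' p`, `Lq pd e X a' q t`, `am` gives `r` with `Ex pd e Y r p`,
`Ex pd e X r a'`. `stg`: (→) let `z1 ≤ z` (`Lx pd e X`). `amq` gives `r` with `Lq pd e Y r z.2 z1.1`, `Lq pd e X r z1.2 z1.1`; some `z2 ≤ (z1.1, r)` (`Lx pd e Y`) and `w ∈ c y` with `Lx pd e Y z2 w`; then `Lx pd e X z2 z1`, `Lx pd e X z2 w`. (←) let `z1 ≤ z` (`Lx pd e Y`); some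
`z2 ≤ z1`, `w ∈ c y`, `Lx pd e X z2 w`. `amq` for `z2.2`, `z1.2`, `z2.1`: `r` with `Lq pd e Y r z1.2 z2.1`, `Lq pd e X r z2.2 z2.1`; so `Lx pd e X (z2.1, r) w` and as `w.2.sp ⊆ X`, `Lx pd e Y (z2.1, r) w`.
-/

set_option autoImplicit false
universe u

namespace Pool.Agent.UTop

open Cardinal Pool.Agent.PolF

variable {P K J : Type u} [LinearOrder K] [WellFoundedLT K] [LinearOrder J] [WellFoundedLT J]
  {le : P → P → Prop} {lam : Cardinal.{u}} {pd : J → Set J}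
  {e : J → K × K → Set (P × Cn le lam K J)}

private theorem ama_pd (hpd : PdH pd) (g : J) : DC pd (pd g) := fun i hi => hpd.tr g i hi

private theorem ama_iio (hpd : PdH pd) {Y : Set J} (hY : DC pd Y) (g : J) :
    DC pd (Y ∩ Set.Iio g) := fun i hi j hj =>
  ⟨hY i hi.1 hj, (hpd.lt i j hj).trans hi.2⟩

private theorem ama_sub (hpd : PdH pd) {Y : Set J} (hY : DC pd Y) {g : J} (hg : g ∈ Y) :
    pd g ⊆ Y ∩ Set.Iio g := fun j hj => ⟨hY g hg hj, hpd.lt g j hj⟩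

private theorem ama_ind (H : TopH le K lam) (hpd : PdH pd) (g : J) :
    ∀ X Y : Set J, DC pd X → DC pd Y → X ⊆ Y → Y ⊆ Set.Iio g → AM pd e X Y := by
  induction g using WellFoundedLT.induction with
  | _ g ih =>
    intro X Y hX hY hXY hYg
    refine ams H hpd hX hY hXY fun g' hg' => ?_
    exact ih g' (hYg hg') (pd g') (Y ∩ Set.Iio g') (ama_pd hpd g') (ama_iio hpd hY g')
      (ama_sub hpd hY hg') Set.inter_subset_right

theorem am (H : TopH le K lam) (hpd : PdH pd) {X Y : Set J} (hX : DC pd X) (hY : DC pd Y)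
    (hXY : X ⊆ Y) : AM pd e X Y :=
  ams H hpd hX hY hXY fun g hg => ama_ind H hpd g (pd g) (Y ∩ Set.Iio g) (ama_pd hpd g)
    (ama_iio hpd hY g) (ama_sub hpd hY hg) Set.inter_subset_right

theorem amq (H : TopH le K lam) (hpd : PdH pd) {X Y : Set J} (hX : DC pd X) (hY : DC pd Y)
    (hXY : X ⊆ Y) {q p : Cn le lam K J} {t : P} (h : Lq pd e X q p t) :
    ∃ r, Ex pd e Y r p ∧ Lq pd e X r q t := by
  obtain ⟨a', h1, h2, -⟩ := mix H hpd hX h
  obtain ⟨r, h3, h4⟩ := am H hpd hX hY hXY a' p h1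
  exact ⟨r, h3, Lq_trans H hpd hX (h4.1 t) h2⟩

/-- names whose conditions have their coordinates in `X` have the same meaning in `Y ⊇ X` -/
theorem stg (H : TopH le K lam) (hpd : PdH pd) {X Y : Set J} (hX : DC pd X) (hY : DC pd Y)
    (hXY : X ⊆ Y) {D : Type u} {c : D → Set (P × Cn le lam K J)}
    (hc : ∀ y, ∀ w ∈ c y, w.2.sp ⊆ X) (y : D) (z : P × Cn le lam K J) :
    Mem (Lx pd e Y) c y z ↔ Mem (Lx pd e X) c y z := by
  constructor
  · intro h z1 hz1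
    obtain ⟨r, h1, h2⟩ := amq H hpd hX hY hXY hz1.2
    obtain ⟨z2, h3, w, hw, h4⟩ := h (z1.1, r) ⟨hz1.1, h1.1 z1.1⟩
    refine ⟨z2, Lx_trans H hpd X hX _ _ _ (Lx_mono hXY h3) ⟨H.rf _, h2⟩, w, hw, Lx_mono hXY h4⟩
  · intro h z1 hz1
    obtain ⟨z2, h1, w, hw, h2⟩ := h z1 (Lx_mono hXY hz1)
    obtain ⟨r, h3, h4⟩ := amq H hpd hX hY hXY h1.2
    have h5 : Lq pd e X r w.2 z2.1 := Lq_trans H hpd hX h4 h2.2
    exact ⟨(z2.1, r), ⟨h1.1, h3.1 z2.1⟩, w, hw, h2.1, h5.1, fun i _ hi =>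
      h5.2 i (hc y w hw hi) hi⟩

end Pool.Agent.UTop
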