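import Pool.Agent.Lib.UTop.Ccc
import Pool.Agent.Lib.UTop.Ama

/-!
# Gam: the index set of the final forcing, names with bounded coordinates

PROOF. `pdI_H`, `pdI_DC`: transitivity of `<`. `nam`: for `y : D` let `D y = {z | ∃ w ∈ c y, Lx pd e univ z w}`, and `c' y` the subset of `D y` given by `ccc`. If `Mem L c' y z`: below every `z1 ≤ z` there is `z2 ≤ z1`, `w' ∈ c' y ⊆ D y`, `z2 ≤ w' ≤ w ∈ c y`. If `Mem L c y z`: `z2 ≤ z1`
with `z2 ∈ D y`, `d0 ∈ c' y` and `z3 ≤ z2`, `z3 ≤ d0`. The set `⋃ y, ⋃ w ∈ c' y, w.2.sp` has size `≤ succ lam`; `hG.bdd`. (`nam0` is the same without the bound on `#D` and on the coordinates.)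
-/

set_option autoImplicit false
universe u

namespace Pool.Agent.UTop

open Cardinal Pool.Agent.PolF

/-- in the final forcing a coordinate depends on all smaller ones -/
def pdI (J : Type u) [LinearOrder J] (g : J) : Set J := Set.Iio g

/-- `J` is a well order of type `lam⁺⁺`, and `2 ^ lam⁺ = lam⁺⁺` -/
structure GamH (J : Type u) [LinearOrder J] (lam : Cardinal.{u}) : Prop where
  iio : ∀ b : J, #(Set.Iio b) ≤ Order.succ lam
  bdd : ∀ s : Set J, #s ≤ Order.succ lam → ∃ b, ∀ x ∈ s, x < b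
  crd : #J = Order.succ (Order.succ lam)
  pow : (2 : Cardinal.{u}) ^ Order.succ lam = Order.succ (Order.succ lam)

variable {P K J : Type u} [LinearOrder K] [WellFoundedLT K] [LinearOrder J] [WellFoundedLT J]
  {le : P → P → Prop} {lam : Cardinal.{u}} {pd : J → Set J}
  {e : J → K × K → Set (P × Cn le lam K J)}

omit [WellFoundedLT J] in
theorem pdI_H : PdH (pdI J) := by
  exact ⟨fun _ _ hi => hi, fun _ _ hi _ hx => lt_trans hx hi⟩

omit [WellFoundedLT J] in
theorem pdI_DC (g : J) : DC (pdI J) (Set.Iio g) := by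
  exact fun _ hi _ hx => lt_trans hx hi

/-- small names -/
theorem nam0 (H : TopH le K lam) (hpd : PdH pd) {D : Type u} (c : D → Set (P × Cn le lam K J)) :
    ∃ c' : D → Set (P × Cn le lam K J), (∀ y, #(c' y) ≤ Order.succ lam) ∧
      ∀ y z, Mem (Lx pd e Set.univ) c y z ↔ Mem (Lx pd e Set.univ) c' y z := by
  have htr := Lx_trans (e := e) H hpd Set.univ (fun g _ => Set.subset_univ _)
  choose c' h1 h2 h3 using fun y : D => ccc (e := e) (pd := pd) H
    {z : P × Cn le lam K J | ∃ w ∈ c y, Lx pd e Set.univ z w}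
  refine ⟨c', h2, fun y z => ⟨fun h q hq => ?_, fun h q hq => ?_⟩⟩
  · obtain ⟨r, hr, a, ha, hra⟩ := h q hq
    obtain ⟨d0, hd0, z3, hz1, hz2⟩ := h3 y r ⟨a, ha, hra⟩
    exact ⟨z3, htr _ _ _ (hz1 _) hr, d0, hd0, hz2 _⟩
  · obtain ⟨r, hr, a, ha, hra⟩ := h q hq
    obtain ⟨w, hw, haw⟩ := h1 y ha
    exact ⟨r, hr, w, hw, htr _ _ _ hra haw⟩

theorem nam (H : TopH le K lam) (hpd : PdH pd) (hG : GamH J lam) {D : Type u}
    (hD : #D ≤ Order.succ lam) (c : D → Set (P × Cn le lam K J)) :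
    ∃ (c' : D → Set (P × Cn le lam K J)) (g : J), (∀ y, ∀ w ∈ c' y, w.2.sp ⊆ Set.Iio g) ∧
      ∀ y z, Mem (Lx pd e Set.univ) c y z ↔ Mem (Lx pd e Set.univ) c' y z := by
  obtain ⟨c', h1, h2⟩ := nam0 (e := e) H hpd c
  have hinf : ℵ₀ ≤ Order.succ lam := H.inf.le.trans (Order.le_succ lam)
  have hS : #(Σ y : D, c' y) ≤ Order.succ lam := by
    rw [mk_sigma]
    calc (Cardinal.sum fun y => #(c' y)) ≤ Cardinal.sum fun _ : D => Order.succ lam :=
          Cardinal.sum_le_sum _ _ h1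
      _ = #D * Order.succ lam := by rw [Cardinal.sum_const']
      _ ≤ Order.succ lam * Order.succ lam := mul_le_mul_left hD _
      _ = Order.succ lam := Cardinal.mul_eq_self hinf
  have hU : #(⋃ p : (Σ y : D, c' y), p.2.1.2.sp : Set J) ≤ Order.succ lam := by
    calc #(⋃ p : (Σ y : D, c' y), p.2.1.2.sp : Set J)
        ≤ Cardinal.sum fun p : (Σ y : D, c' y) => #(p.2.1.2.sp) := Cardinal.mk_iUnion_le_sum_mk
      _ ≤ Cardinal.sum fun _ : (Σ y : D, c' y) => Order.succ lam :=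
          Cardinal.sum_le_sum _ _ fun p => (p.2.1.2.hsp).trans (Order.le_succ lam)
      _ = #(Σ y : D, c' y) * Order.succ lam := by rw [Cardinal.sum_const']
      _ ≤ Order.succ lam * Order.succ lam := mul_le_mul_left hS _
      _ = Order.succ lam := Cardinal.mul_eq_self hinf
  obtain ⟨g, hg⟩ := hG.bdd _ hU
  exact ⟨c', g, fun y w hw x hx => hg x (Set.mem_iUnion.2 ⟨⟨y, ⟨w, hw⟩⟩, hx⟩), h2⟩

end Pool.Agent.UTop
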