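import Pool.Agent.Lib.UTop.Bas

/-!
# Trn: the relations `Lq` are transitive and local in `t`

PROOF. First for one `i` under the hypothesis `htr` that `Lx pd e (pd i)` is transitive:
`Ob_congr` at `i`: if `z1 ≤ (t, q')` then `z1 ≤ (t, q)` (`htr`, as `Lq pd e (pd i) q' q t` goes down to `z1.1`); take `z2 ≤ z1` and `b` from
`Ob i t q`; for `z ≤ z2`, `z.1 ≤ t`, so `Mem le (q'.F i) (a n) z.1 ↔ Mem le (q.F i) (a n) z.1`. `Cq_trans` at `i`, i.e. `Cq` from `r` to `p`: first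
clause clear; second: `ξ < p.h ≤ q.h`; third: `δ > p.h`, `Mem le r.s (δ, a) t'`, `t' ≤ t`. If `δ ≤ q.h` then `Mem le q.s (δ, a) t'` (`Bq r q t`), so
`Ob i t' q δ a`, all `a n < δ < q.h` (`mem_sel`), the values of `r.F i`, `q.F i` at `a n` agree at `t'`, and `Ob_congr`. If `q.h < δ`:
third clause of `Cq r q`. Then transitivity of `Lx pd e (pd g)` by well-founded induction on `g`
(`DC_pd`), then of `Lx pd e X` for all `X` with `DC pd X`. `Ob_down`: `(t', q) ≤ (t, q)` by `Lq_refl`. `Ob_loc`: if `z1 ≤ (t, q)` there is `t2 ≤ z1.1` with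
`Ob g t2 q δ a`; `(t2, z1.2) ≤ (t2, q)` (`Lq_down`), so there is `z2 ≤ (t2, z1.2) ≤ z1` as required. `Lq_loc`: `p.h ≤ q.h` and `i ∈ q.sp` do not
depend on `t` (use one `t''`); the `Iff'` clauses by `Mem_loc`; `Ob` by `Ob_loc` (for `t' ≤ t` with `Mem le q.s (δ, a) t'`).
-/

set_option autoImplicit false
universe u

namespace Pool.Agent.UTop

open Cardinal Pool.Agent.PolF

variable {P K J : Type u} [LinearOrder K] [LinearOrder J] [WellFoundedLT J] {le : P → P → Prop}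
  {lam : Cardinal.{u}} {pd : J → Set J} {e : J → K × K → Set (P × Cn le lam K J)}

/-- `pd g` is closed under dependence -/
theorem DC_pd (hpd : PdH pd) (g : J) : DC pd (pd g) := fun i hi => hpd.tr g i hi

private theorem Ob_congr_aux (H : TopH le K lam) (hpd : PdH pd) {g : J}
    (htr : ∀ z w v : P × Cn le lam K J, Lx pd e (pd g) z w → Lx pd e (pd g) w v →
      Lx pd e (pd g) z v) {q q' : Cn le lam K J} {t : P} {δ : K}
    {a : ℕ → K} (h : Lq pd e (pd g) q' q t)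
    (hF : ∀ n, Iff' le (Mem le (q'.F g) (a n)) (Mem le (q.F g) (a n)) t)
    (ho : Ob pd e g t q δ a) : Ob pd e g t q' δ a := by
  rw [Ob_iff hpd] at ho ⊢
  intro z1 hz1
  have h1 : Lx pd e (pd g) z1 (t, q) := htr z1 (t, q') (t, q) hz1 ⟨H.rf t, h⟩
  obtain ⟨z2, hz2, b, hb⟩ := ho z1 h1
  refine ⟨z2, hz2, b, fun n hn z hz => ?_⟩
  have h2 : le z.1 t := H.tr _ _ _ hz.1 (H.tr _ _ _ hz2.1 hz1.1)
  exact (hF n z.1 h2).trans (hb n hn z hz)

private theorem Cq_trans_aux (H : TopH le K lam) (hpd : PdH pd) {i : J}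
    (htr : ∀ z w v : P × Cn le lam K J, Lx pd e (pd i) z w → Lx pd e (pd i) w v →
      Lx pd e (pd i) z v) {r q p : Cn le lam K J} {t : P}
    (hb : Bq q p t) (hl : Lq pd e (pd i) r q t) (h : Cq (Ob pd e i) i r q t)
    (h' : Cq (Ob pd e i) i q p t) : Cq (Ob pd e i) i r p t := by
  refine ⟨h.1, fun ξ hξ s hs => ?_, fun δ a hδ t' ht' hm => ?_⟩
  · exact (h.2.1 ξ (lt_of_lt_of_le hξ hb.1) s hs).trans (h'.2.1 ξ hξ s hs)
  · rcases le_or_gt δ q.h with hq | hq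
    · have hm' : Mem le q.s (δ, a) t' := (hl.1.2 δ hq a t' ht').1 hm
      have ho : Ob pd e i t' q δ a := h'.2.2 δ a hδ t' ht' hm'
      refine Ob_congr_aux H hpd htr (Lq_down H ht' hl) (fun n s hs => ?_) ho
      have h1 : a n < q.h := ((mem_sel H hm').2.1.1 n).trans (mem_sel H hm').2.2.1
      exact h.2.1 (a n) h1 s (H.tr _ _ _ hs ht')
    · exact h.2.2 δ a hq t' ht' hm

private theorem Lq_trans_aux (H : TopH le K lam) (hpd : PdH pd) {X : Set J} (hX : DC pd X)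
    (htr : ∀ i ∈ X, ∀ z w v : P × Cn le lam K J, Lx pd e (pd i) z w → Lx pd e (pd i) w v →
      Lx pd e (pd i) z v) {r q p : Cn le lam K J} {t : P}
    (h : Lq pd e X r q t) (h' : Lq pd e X q p t) : Lq pd e X r p t := by
  refine ⟨Bq_trans H h.1 h'.1, fun i hi hp => ?_⟩
  have h1 : Cq (Ob pd e i) i q p t := h'.2 i hi hp
  have h2 : Cq (Ob pd e i) i r q t := h.2 i hi h1.1
  exact Cq_trans_aux H hpd (htr i hi) h'.1 (Lq_mono (hX i hi) h) h2 h1

private theorem Lx_trans_aux (H : TopH le K lam) (hpd : PdH pd) {X : Set J} (hX : DC pd X)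
    (htr : ∀ i ∈ X, ∀ z w v : P × Cn le lam K J, Lx pd e (pd i) z w → Lx pd e (pd i) w v →
      Lx pd e (pd i) z v) (z w v : P × Cn le lam K J)
    (h : Lx pd e X z w) (h' : Lx pd e X w v) : Lx pd e X z v :=
  ⟨H.tr _ _ _ h.1 h'.1, Lq_trans_aux H hpd hX htr h.2 (Lq_down H h.1 h'.2)⟩

private theorem Lx_trans_pd (H : TopH le K lam) (hpd : PdH pd) (g : J) :
    ∀ z w v : P × Cn le lam K J, Lx pd e (pd g) z w → Lx pd e (pd g) w v →
      Lx pd e (pd g) z v := by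
  induction g using WellFoundedLT.induction with
  | ind g ih =>
  exact Lx_trans_aux H hpd (DC_pd hpd g) (fun i hi => ih i (hpd.lt g i hi))

theorem Ob_congr (H : TopH le K lam) (hpd : PdH pd) {g : J} {q q' : Cn le lam K J} {t : P} {δ : K}
    {a : ℕ → K} (h : Lq pd e (pd g) q' q t)
    (hF : ∀ n, Iff' le (Mem le (q'.F g) (a n)) (Mem le (q.F g) (a n)) t)
    (ho : Ob pd e g t q δ a) : Ob pd e g t q' δ a :=
  Ob_congr_aux H hpd (Lx_trans_pd H hpd g) h hF ho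

theorem Cq_trans (H : TopH le K lam) (hpd : PdH pd) {i : J} {r q p : Cn le lam K J} {t : P}
    (hb : Bq q p t) (hl : Lq pd e (pd i) r q t) (h : Cq (Ob pd e i) i r q t)
    (h' : Cq (Ob pd e i) i q p t) : Cq (Ob pd e i) i r p t :=
  Cq_trans_aux H hpd (Lx_trans_pd H hpd i) hb hl h h'

theorem Lq_trans (H : TopH le K lam) (hpd : PdH pd) {X : Set J} (hX : DC pd X)
    {r q p : Cn le lam K J} {t : P}
    (h : Lq pd e X r q t) (h' : Lq pd e X q p t) : Lq pd e X r p t :=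
  Lq_trans_aux H hpd hX (fun i _ => Lx_trans_pd H hpd i) h h'

theorem Lx_trans (H : TopH le K lam) (hpd : PdH pd) (X : Set J) (hX : DC pd X)
    (z w v : P × Cn le lam K J)
    (h : Lx pd e X z w) (h' : Lx pd e X w v) : Lx pd e X z v :=
  Lx_trans_aux H hpd hX (fun i _ => Lx_trans_pd H hpd i) z w v h h'

theorem Ob_down (H : TopH le K lam) (hpd : PdH pd) {g : J} {q : Cn le lam K J} {t t' : P} {δ : K}
    {a : ℕ → K} (h : le t' t) (ho : Ob pd e g t q δ a) : Ob pd e g t' q δ a := by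
  rw [Ob_iff hpd] at ho ⊢
  intro z1 hz1
  exact ho z1 (Lx_trans_pd H hpd g z1 (t', q) (t, q) hz1 ⟨h, Lq_refl H _ _ _⟩)

theorem Ob_loc (H : TopH le K lam) (hpd : PdH pd) {g : J} {q : Cn le lam K J} {t : P} {δ : K}
    {a : ℕ → K} (h : ∀ t', le t' t → ∃ t'', le t'' t' ∧ Ob pd e g t'' q δ a) :
    Ob pd e g t q δ a := by
  rw [Ob_iff hpd]
  intro z1 hz1
  obtain ⟨t2, ht2, ho⟩ := h z1.1 hz1.1
  rw [Ob_iff hpd] at ho
  have h1 : Lx pd e (pd g) (t2, z1.2) (t2, q) := ⟨H.rf _, Lq_down H ht2 hz1.2⟩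
  obtain ⟨z2, hz2, b, hb⟩ := ho (t2, z1.2) h1
  refine ⟨z2, ?_, b, hb⟩
  exact Lx_trans_pd H hpd g z2 (t2, z1.2) z1 hz2 ⟨ht2, Lq_refl H _ _ _⟩

theorem Lq_loc (H : TopH le K lam) (hpd : PdH pd) {X : Set J} {q p : Cn le lam K J} {t : P}
    (h : ∀ t', le t' t → ∃ t'', le t'' t' ∧ Lq pd e X q p t'') : Lq pd e X q p t := by
  have hfst : ∀ {A B : P → Prop}, (∀ p q, le q p → A p → A q) → (∀ p q, le q p → B p → B q) →
      (∀ p, (∀ p', le p' p → ∃ p'', le p'' p' ∧ A p'') → A p) →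
      (∀ p, (∀ p', le p' p → ∃ p'', le p'' p' ∧ B p'') → B p) →
      (∀ t', le t' t → ∃ t'', le t'' t' ∧ Iff' le A B t'') → Iff' le A B t := by
    intro A B hA hB hA' hB' hh s hs
    constructor
    · intro ha
      refine hB' s fun p' hp' => ?_
      obtain ⟨p'', h1, h2⟩ := hh p' (H.tr _ _ _ hp' hs)
      exact ⟨p'', h1, (h2 p'' (H.rf _)).1 (hA _ _ (H.tr _ _ _ h1 hp') ha)⟩
    · intro hb
      refine hA' s fun p' hp' => ?_
      obtain ⟨p'', h1, h2⟩ := hh p' (H.tr _ _ _ hp' hs)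
      exact ⟨p'', h1, (h2 p'' (H.rf _)).2 (hB _ _ (H.tr _ _ _ h1 hp') hb)⟩
  have hmd : ∀ {Y : Type u} (A : Y → Set P) (y : Y), ∀ p q, le q p → Mem le A y p →
      Mem le A y q := fun A y p q h hm => Mem_down H.tr h hm
  have hml : ∀ {Y : Type u} (A : Y → Set P) (y : Y), ∀ p,
      (∀ p', le p' p → ∃ p'', le p'' p' ∧ Mem le A y p'') → Mem le A y p :=
    fun A y p h => Mem_loc H.tr H.rf h
  obtain ⟨t0, ht0, h0⟩ := h t (H.rf t)
  refine ⟨⟨h0.1.1, fun δ hδ a => ?_⟩, fun i hi hp => ⟨(h0.2 i hi hp).1, fun ξ hξ => ?_,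
    fun δ a hδ t' ht' hm => ?_⟩⟩
  · refine hfst (hmd _ _) (hmd _ _) (hml _ _) (hml _ _) fun t' ht' => ?_
    obtain ⟨t2, h1, h2⟩ := h t' ht'
    exact ⟨t2, h1, h2.1.2 δ hδ a⟩
  · refine hfst (hmd _ _) (hmd _ _) (hml _ _) (hml _ _) fun t' ht' => ?_
    obtain ⟨t2, h1, h2⟩ := h t' ht'
    exact ⟨t2, h1, (h2.2 i hi hp).2.1 ξ hξ⟩
  · refine Ob_loc H hpd fun t1 ht1 => ?_
    obtain ⟨t2, h1, h2⟩ := h t1 (H.tr _ _ _ ht1 ht')
    exact ⟨t2, h1, (h2.2 i hi hp).2.2 δ a hδ t2 (H.rf _)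
      (Mem_down H.tr (H.tr _ _ _ h1 ht1) hm)⟩

theorem Ex_refl (H : TopH le K lam) (X : Set J) (p : Cn le lam K J) : Ex pd e X p p :=
  ⟨fun t => Lq_refl H X p t, fun _ _ => Iff.rfl⟩

theorem Ex_trans (H : TopH le K lam) (hpd : PdH pd) {X : Set J} (hX : DC pd X)
    {r q p : Cn le lam K J}
    (h : Ex pd e X r q) (h' : Ex pd e X q p) : Ex pd e X r p := by
  refine ⟨fun t => Lq_trans H hpd hX (h.1 t) (h'.1 t), fun x hx => ?_⟩
  obtain ⟨t⟩ := H.ne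
  exact (h.2 x (hx.trans (h'.1 t).1.1)).trans (h'.2 x hx)

theorem Ex_mono {X Y : Set J} {q p : Cn le lam K J} (h : X ⊆ Y) (hq : Ex pd e Y q p) :
    Ex pd e X q p :=
  ⟨fun t => Lq_mono h (hq.1 t), hq.2⟩

end Pool.Agent.UTop
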