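import Pool.Agent.Lib.UTop.Red

/-!
# Dec: deciding names

`AM pd e X Y`: a direct extension on the coordinates in `X` can be amalgamated on the coordinates in `Y`.

PROOF. `Dd_open`: `Mem_down`, `Neg_down` for `Lx pd e X` (`Lx_trans`). `dnm`: (→) let `Mem (Lx pd e X) c y (t, a1)`; for `t1 ≤ t` there is `t2 ≤ t1` with `Dd` at `(t2, a)`; the case `Neg` is impossible at `(t2, a1) ≤ (t2, a)`, where `Mem` holds; so
`t2 ∈ rs pd e X c a y`. (←) `Mem_loc` for `Lx pd e X`: if `z ≤ (t, a1)` there are `t2 ≤ z.1` and `t3` with `le t2 t3`, `Mem (Lx pd e X) c y (t3, a)`; then `(t2, z.2) ≤ (t3, a)` (as `Lq z.2 a1`, `Lq a1 a`) and `(t2, z.2) ≤ z`.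
`dec`: `red` for `Z`, `ι = Y0`, `D y t c' := Dd pd e X c y (t, c')`. Open: `Dd_open`, `Lx_mono hXZ`. Dense, at `(t, c1)`: if some `(t', c2) ≤ (t, c1)` (`Lx pd e X`) has `Mem (Lx pd e X) c y (t', c2)`: `mix` for `X` gives `c3` with
`Ex pd e X c3 c1`, `Lq pd e X c3 c2 t'`; `hA` gives `r` with `Ex pd e Z r c1`, `Ex pd e X r c3`; so `Mem` at `(t', r)`. Otherwise `Neg` at `(t, c1)`.
-/

set_option autoImplicit false
universe u

namespace Pool.Agent.UTop

open Cardinal Pool.Agent.PolF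

variable {P K J : Type u} [LinearOrder K] [WellFoundedLT K] [LinearOrder J] [WellFoundedLT J]
  {le : P → P → Prop} {lam : Cardinal.{u}} {pd : J → Set J}
  {e : J → K × K → Set (P × Cn le lam K J)}

/-- amalgamation -/
def AM (pd : J → Set J) (e : J → K × K → Set (P × Cn le lam K J)) (X Y : Set J) : Prop :=
  ∀ q p : Cn le lam K J, Ex pd e X q p → ∃ r, Ex pd e Y r p ∧ Ex pd e X r q

/-- `z` decides whether `y` belongs to `c` -/
def Dd (pd : J → Set J) (e : J → K × K → Set (P × Cn le lam K J)) (X : Set J) {Y : Type u}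
    (c : Y → Set (P × Cn le lam K J)) (y : Y) (z : P × Cn le lam K J) : Prop :=
  Mem (Lx pd e X) c y z ∨ Neg (Lx pd e X) (Mem (Lx pd e X) c y) z

/-- the name over `P` of what `a` forces to be in `c` -/
def rs (pd : J → Set J) (e : J → K × K → Set (P × Cn le lam K J)) (X : Set J) {Y : Type u}
    (c : Y → Set (P × Cn le lam K J)) (a : Cn le lam K J) (y : Y) : Set P :=
  {t | Mem (Lx pd e X) c y (t, a)}

theorem Dd_open (H : TopH le K lam) (hpd : PdH pd) {X : Set J} (hX : DC pd X) {Y : Type u}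
    {c : Y → Set (P × Cn le lam K J)} {y : Y} {z w : P × Cn le lam K J} (h : Lx pd e X w z)
    (hd : Dd pd e X c y z) : Dd pd e X c y w := by
  rcases hd with hd | hd
  · exact Or.inl (Mem_down (Lx_trans H hpd X hX) h hd)
  · exact Or.inr (Neg_down (Lx_trans H hpd X hX) h hd)

theorem dnm (H : TopH le K lam) (hpd : PdH pd) {X : Set J} (hX : DC pd X) {Y : Type u}
    {c : Y → Set (P × Cn le lam K J)} {y : Y} {a : Cn le lam K J}
    (h : ∀ t, ∃ t', le t' t ∧ Dd pd e X c y (t', a)) {a1 : Cn le lam K J} {t : P}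
    (h1 : Lq pd e X a1 a t) :
    Mem (Lx pd e X) c y (t, a1) ↔ Mem le (rs pd e X c a) y t := by
  constructor
  · intro hm t1 ht1
    obtain ⟨t2, ht2, hd⟩ := h t1
    have ht : le t2 t := H.tr _ _ _ ht2 ht1
    refine ⟨t2, ht2, t2, ?_, H.rf _⟩
    rcases hd with hd | hd
    · exact hd
    · exfalso
      have h2 : Lx pd e X (t2, a1) (t2, a) := ⟨H.rf _, Lq_down H ht h1⟩
      have h3 : Lx pd e X (t2, a1) (t, a1) := ⟨ht, Lq_refl H X a1 t2⟩
      exact hd _ h2 (Mem_down (Lx_trans H hpd X hX) h3 hm)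
  · intro hm
    refine Mem_loc (Lx_trans H hpd X hX) (Lx_refl H X) ?_
    intro z hz
    obtain ⟨t2, ht2, t3, ht3, h23⟩ := hm z.1 hz.1
    refine ⟨(t2, z.2), ⟨ht2, Lq_refl H X z.2 t2⟩, ?_⟩
    have h4 : Lx pd e X (t2, z.2) (t3, a) :=
      ⟨h23, Lq_trans H hpd hX (Lq_down H ht2 hz.2) (Lq_down H (H.tr _ _ _ ht2 hz.1) h1)⟩
    exact Mem_down (Lx_trans H hpd X hX) h4 ht3

theorem dec (H : TopH le K lam) (hpd : PdH pd) {X Z : Set J} (hX : DC pd X) (hZ : DC pd Z)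
    (hXZ : X ⊆ Z) (hA : AM pd e X Z) {Y : Type u} (c : Y → Set (P × Cn le lam K J)) (Y0 : Set Y)
    (hY0 : #Y0 ≤ lam) (b : Cn le lam K J) :
    ∃ a : Cn le lam K J, Ex pd e Z a b ∧
      ∀ y ∈ Y0, ∀ t, ∃ t', le t' t ∧ Dd pd e X c y (t', a) := by
  obtain ⟨a, ha, hD⟩ := red (e := e) H hpd hZ hY0
    (fun (y : Y0) t c' => Dd pd e X c y.1 (t, c')) b
    (fun y t t' c1 c2 hd ht hq => Dd_open H hpd hX ⟨ht, Lq_mono hXZ hq⟩ hd)
    (by
      intro y t c1 _
      rcases Mem_dec (le := Lx pd e X) c y.1 (t, c1) with ⟨⟨t', c2⟩, hq, hm⟩ | hn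
      · obtain ⟨c3, h31, h32, -⟩ := mix H hpd hX hq.2
        obtain ⟨r, hr1, hr2⟩ := hA c3 c1 h31
        refine ⟨t', r, hq.1, hr1.1 t', Or.inl ?_⟩
        have h4 : Lx pd e X (t', r) (t', c2) :=
          ⟨H.rf _, Lq_trans H hpd hX (hr2.1 t') h32⟩
        exact Mem_down (Lx_trans H hpd X hX) h4 hm
      · exact ⟨t, c1, H.rf _, Lq_refl H Z c1 t, Or.inr hn⟩)
  exact ⟨a, ha, fun y hy t => hD ⟨y, hy⟩ t⟩

end Pool.Agent.UTop
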