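import Pool.Agent.Lib.UTop.Stp

/-!
# AmS: amalgamation, the induction step

PROOF. Let `Ex pd e X q p`, `w g = q` if `g ∈ X`, else `p`, `T = {g // g ∈ Y ∧ (g ∈ p.sp ∨ g ∈ q.sp)}` (`#T ≤ lam`), with the order of `J`. `rec_chain` with `Z = Cn`, `ok g z := Ex pd e ∅ z q ∧ (g ∈ (w g).sp → ∀ t, Cq (Ob pd e g) g z (w g) t)`,
`rel i z z' := Ex pd e (Y ∩ Iic i) z' z`. (`Y ∩ Iic i`, `Y ∩ Iio i` are `DC`: `hpd.lt`, `hY`.)
CLAIM. Let `r` be a condition, `S ⊆ Y` a `DC` set, `Ex pd e ∅ r q`, and for every `i ∈ T` with `i ∈ S` a condition `f i` with `ok i (f i)` and `Ex pd e (Y ∩ Iic i) r (f i)`. Then for all `t`: (1) `Lq pd e (X ∩ S) r q t` and (2) `Lq pd e S r p t`. Proof: `Bq` by `Bq_trans`.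
Let `i ∈ S`, `i ∈ (w i).sp`, `i ∈ T`: `Cq i (f i) (w i) t` and `Lq pd e (Y ∩ Iic i) r (f i) t` give (3) `Cq i r (w i) t` (`Cq_trans` with `hb : Bq (f i) (w i) t`; `pd i ⊆ Y ∩ Iic i`). (1): for `i ∈ X ∩ S`, `i ∈ q.sp`, `w i = q` and (3). (2): `i ∈ S`, `i ∈ p.sp`. If `i ∉ X`, `w i = p` and (3). If
`i ∈ X`, then `i ∈ q.sp` and `Cq i q p t` (from `Ex pd e X q p`); with (3) for `w i = q`: `Cq_trans` for `r`, `q`, `p` (`hl : Lq pd e (pd i) r q t` by (1), `pd i ⊆ X ∩ S`).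
Step at `g` with `f`: `cls'` for `T' = {i : T // i < g}`, `Y i = Y ∩ Iic i`, `X0 = ∅`, `b = q` gives `r` with `Ex pd e (Y ∩ Iic i) r (f i)`, `Ex pd e ∅ r q`. If `g ∉ (w g).sp` take `z = r`. Otherwise `stp` with `Z = Y ∩ Iio g`, `hA = hI g`, `h0 = (w g).h ≤ r.h`,
`f0 = (w g).F g` gives `r'`; `ok g r'`: `Cq g r' (w g) t`: the second clause because the values are equal, the third is the last statement of `stp` (`Mem_down` not needed). `rel i (f i) r'`: `Ex_trans`, `Y ∩ Iic i ⊆ Y ∩ Iio g`.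
End: `cls'` for the whole of `T` gives `r`, `Ex pd e ∅ r q`; CLAIM with `S = Y`: `Ex pd e Y r p` and `Ex pd e X r q` (`X ∩ Y = X`); the clauses on `cl` from `Ex pd e ∅ r q` and `Ex pd e X q p`.
-/

set_option autoImplicit false
universe u

namespace Pool.Agent.UTop

open Cardinal Pool.Agent.PolF

variable {P K J : Type u} [LinearOrder K] [WellFoundedLT K] [LinearOrder J] [WellFoundedLT J]
  {le : P → P → Prop} {lam : Cardinal.{u}} {pd : J → Set J}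
  {e : J → K × K → Set (P × Cn le lam K J)}

omit [WellFoundedLT K] in
private theorem ams_claim (H : TopH le K lam) (hpd : PdH pd) {X Y : Set J} (hX : DC pd X)
    (hY : DC pd Y) {q p : Cn le lam K J} (hqp : Ex pd e X q p) (w : J → Cn le lam K J)
    (hwX : ∀ i ∈ X, w i = q) (hwX' : ∀ i, i ∉ X → w i = p) {S : Set J} (hSY : S ⊆ Y)
    (hS : DC pd S) {r : Cn le lam K J} (hr : Ex pd e ∅ r q)
    (hf : ∀ i ∈ S, i ∈ (w i).sp → ∃ z : Cn le lam K J, Ex pd e ∅ z q ∧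
      (∀ t, Cq (Ob pd e i) i z (w i) t) ∧ Ex pd e (Y ∩ Set.Iic i) r z) (t : P) :
    Lq pd e (X ∩ S) r q t ∧ Lq pd e S r p t := by
  have hBrq : Bq r q t := (hr.1 t).1
  have hBqp : Bq q p t := (hqp.1 t).1
  have h3 : ∀ i ∈ S, i ∈ (w i).sp → Cq (Ob pd e i) i r (w i) t := by
    intro i hiS hiw
    obtain ⟨z, hz1, hz2, hz3⟩ := hf i hiS hiw
    have hsub : pd i ⊆ Y ∩ Set.Iic i := fun j hj =>
      ⟨hY i (hSY hiS) hj, (hpd.lt i j hj).le⟩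
    have h4 := hz3.1 t
    have h5 : Cq (Ob pd e i) i r z t := h4.2 i ⟨hSY hiS, le_refl i⟩ (hz2 t).1
    have h6 : Bq z (w i) t := by
      by_cases hiX : i ∈ X
      · rw [hwX i hiX]; exact (hz1.1 t).1
      · rw [hwX' i hiX]; exact Bq_trans H (hz1.1 t).1 hBqp
    exact Cq_trans H hpd h6 (Lq_mono hsub h4) h5 (hz2 t)
  have h1 : Lq pd e (X ∩ S) r q t := by
    refine ⟨hBrq, fun i hi hiq => ?_⟩
    have h4 := h3 i hi.2 (by rw [hwX i hi.1]; exact hiq)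
    rwa [hwX i hi.1] at h4
  refine ⟨h1, Bq_trans H hBrq hBqp, fun i hi hip => ?_⟩
  by_cases hiX : i ∈ X
  · have h4 : Cq (Ob pd e i) i q p t := (hqp.1 t).2 i hiX hip
    have h5 := h3 i hi (by rw [hwX i hiX]; exact h4.1)
    rw [hwX i hiX] at h5
    refine Cq_trans H hpd hBqp (Lq_mono ?_ h1) h5 h4
    exact fun j hj => ⟨hX i hiX hj, hS i hi hj⟩
  · have h4 := h3 i hi (by rw [hwX' i hiX]; exact hip)
    rwa [hwX' i hiX] at h4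

theorem ams (H : TopH le K lam) (hpd : PdH pd) {X Y : Set J} (hX : DC pd X) (hY : DC pd Y)
    (hXY : X ⊆ Y) (hI : ∀ g ∈ Y, AM pd e (pd g) (Y ∩ Set.Iio g)) : AM pd e X Y := by
  classical
  intro q p hqp
  obtain ⟨t0⟩ := H.ne
  have hh : p.h ≤ q.h := (hqp.1 t0).1.1
  obtain ⟨w, hw⟩ : ∃ w : J → Cn le lam K J, w = fun g => if g ∈ X then q else p := ⟨_, rfl⟩
  have hwX : ∀ i ∈ X, w i = q := by
    intro i hi
    rw [hw]
    exact if_pos hi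
  have hwX' : ∀ i, i ∉ X → w i = p := by
    intro i hi
    rw [hw]
    exact if_neg hi
  have hD0 : DC pd (∅ : Set J) := fun g hg => absurd hg (Set.notMem_empty g)
  have hDIic : ∀ i : J, DC pd (Y ∩ Set.Iic i) := fun i g hg j hj =>
    ⟨hY g hg.1 hj, (hpd.lt g j hj).le.trans hg.2⟩
  have hDIio : ∀ i : J, DC pd (Y ∩ Set.Iio i) := fun i g hg j hj =>
    ⟨hY g hg.1 hj, (hpd.lt g j hj).trans hg.2⟩
  have hlam : #({g : J // g ∈ Y ∧ (g ∈ p.sp ∨ g ∈ q.sp)}) ≤ lam := by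
    have h1 : #({g : J // g ∈ Y ∧ (g ∈ p.sp ∨ g ∈ q.sp)}) ≤ #(p.sp ∪ q.sp : Set J) :=
      Cardinal.mk_subtype_le_of_subset fun g hg => hg.2
    refine h1.trans ((Cardinal.mk_union_le _ _).trans ?_)
    exact Cardinal.add_le_of_le H.inf.le p.hsp q.hsp
  have hne : Nonempty (Cn le lam K J) := ⟨q⟩
  have hstep : ∀ (g : {g : J // g ∈ Y ∧ (g ∈ p.sp ∨ g ∈ q.sp)})
      (f : {g : J // g ∈ Y ∧ (g ∈ p.sp ∨ g ∈ q.sp)} → Cn le lam K J),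
      (∀ i < g, Ex pd e ∅ (f i) q ∧
        (i.1 ∈ (w i.1).sp → ∀ t, Cq (Ob pd e i.1) i.1 (f i) (w i.1) t)) →
      (∀ i j, i < j → j < g → Ex pd e (Y ∩ Set.Iic i.1) (f j) (f i)) →
      ∃ z, (Ex pd e ∅ z q ∧ (g.1 ∈ (w g.1).sp → ∀ t, Cq (Ob pd e g.1) g.1 z (w g.1) t)) ∧
        ∀ i < g, Ex pd e (Y ∩ Set.Iic i.1) z (f i) := by
    intro g f h1 h2
    obtain ⟨r, hr1, hr2⟩ := cls' H hpd (T := {i : {g : J // g ∈ Y ∧ (g ∈ p.sp ∨ g ∈ q.sp)} // i < g})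
      ((Cardinal.mk_subtype_le _).trans hlam) (fun i => f i.1)
      (fun i => Y ∩ Set.Iic i.1.1)
      (fun i => hDIic i.1.1)
      (fun i j hij g' hg' => ⟨hg'.1, hg'.2.trans hij⟩)
      (fun i j hij => h2 i.1 j.1 hij j.2) ∅ hD0
      (fun i => Set.empty_subset _) q (fun i => (h1 i.1 i.2).1)
    by_cases hgw : g.1 ∈ (w g.1).sp
    · have hh0 : (w g.1).h ≤ r.h := by
        have h3 : q.h ≤ r.h := (hr2.1 t0).1.1
        by_cases hgX : g.1 ∈ X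
        · rw [hwX _ hgX]; exact h3
        · rw [hwX' _ hgX]; exact hh.trans h3
      obtain ⟨r', hr3, hr4, hr5, hr6⟩ := stp H hpd (hDIio g.1) (g := g.1)
        (fun h => lt_irrefl _ h.2) (fun j hj => ⟨hY g.1 g.2.1 hj, hpd.lt g.1 j hj⟩)
        (hI g.1 g.2.1) r (w g.1).h hh0 ((w g.1).F g.1)
      refine ⟨r', ⟨Ex_trans H hpd hD0 (Ex_mono (Set.empty_subset _) hr3) hr2, fun _ t => ?_⟩,
        fun i hi => ?_⟩
      · refine ⟨hr4, fun ξ hξ t' _ => ?_, fun δ a hδ t' _ hm => hr6 δ a t' hδ hm⟩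
        unfold Mem
        rw [hr5 ξ hξ]
      · refine Ex_trans H hpd (hDIic i.1) (Ex_mono ?_ hr3) (hr1 ⟨i, hi⟩)
        exact fun j hj => ⟨hj.1, lt_of_le_of_lt hj.2 hi⟩
    · exact ⟨r, ⟨hr2, fun h => absurd h hgw⟩, fun i hi => hr1 ⟨i, hi⟩⟩
  obtain ⟨f, hf1, hf2⟩ := rec_chain (T := {g : J // g ∈ Y ∧ (g ∈ p.sp ∨ g ∈ q.sp)})
    (Z := Cn le lam K J)
    (fun g z => Ex pd e ∅ z q ∧ (g.1 ∈ (w g.1).sp → ∀ t, Cq (Ob pd e g.1) g.1 z (w g.1) t))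
    (fun i z z' => Ex pd e (Y ∩ Set.Iic i.1) z' z) hstep
  obtain ⟨r, hr1, hr2⟩ := cls' H hpd hlam f (fun i => Y ∩ Set.Iic i.1)
    (fun i => hDIic i.1)
    (fun i j hij g hg => ⟨hg.1, hg.2.trans hij⟩) (fun i j hij => hf2 i j hij) ∅ hD0
    (fun i => Set.empty_subset _) q (fun i => (hf1 i).1)
  have hcl := ams_claim H hpd hX hY hqp w hwX hwX' (Set.Subset.refl Y) hY hr2 (by
    intro i hi hiw
    have hiT : i ∈ Y ∧ (i ∈ p.sp ∨ i ∈ q.sp) := by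
      refine ⟨hi, ?_⟩
      by_cases hiX : i ∈ X
      · rw [hwX i hiX] at hiw; exact Or.inr hiw
      · rw [hwX' i hiX] at hiw; exact Or.inl hiw
    exact ⟨f ⟨i, hiT⟩, (hf1 ⟨i, hiT⟩).1, (hf1 ⟨i, hiT⟩).2 hiw, hr1 ⟨i, hiT⟩⟩)
  refine ⟨r, ⟨fun t => (hcl t).2, fun x hx => ?_⟩, ⟨fun t => ?_, hr2.2⟩⟩
  · exact (hr2.2 x (hx.trans hh)).trans (hqp.2 x hx)
  · have hs : X ⊆ X ∩ Y := fun j hj => ⟨hj, hXY hj⟩
    exact Lq_mono hs (hcl t).1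

end Pool.Agent.UTop
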