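import Pool.Agent.Lib.UTop.Defs

/-!
# Bas: first properties of the relations `Lq`

PROOF. `Mem_down`, `Mem_loc`, `Neg_down`, `Imp_down`, `Exi_down` are in `PolF/Bas.lean`. `mem_sel`: `Mem le q.s (δ, a) t` at `t`
itself (`H.rf`) gives an element of `q.s (δ, a)`; `Cn.sel`. `lim_ev`: some `N` has `b < a N`. `Ob_iff`: `Ob_eq` and `Iff.rfl`. `Lq_down`: every
clause at `t` is inherited by `t' ≤ t` (`H.tr`). `Lq_refl`: the last clause of `Cq` is void: `p.h < δ` and `δ < p.h` (`mem_sel`).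
`Bq_trans`: `δ ≤ p.h ≤ q.h`. `Unf_*`: definitions; `Unf_congr`: from the bound `b0` pass to `max b b0`.
`upd` changes only the coordinates.
-/

set_option autoImplicit false
universe u

namespace Pool.Agent.UTop

open Cardinal Pool.Agent.PolF

variable {P K J : Type u} [LinearOrder K] [LinearOrder J] [WellFoundedLT J] {le : P → P → Prop}
  {lam : Cardinal.{u}} {pd : J → Set J} {e : J → K × K → Set (P × Cn le lam K J)}

theorem mem_sel (H : TopH le K lam) {q : Cn le lam K J} {δ : K} {a : ℕ → K} {t : P}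
    (h : Mem le q.s (δ, a) t) : StrictMono a ∧ Lim a δ ∧ δ < q.h ∧ δ ∉ q.cl := by
  obtain ⟨r, -, x, hx, -⟩ := h t (H.rf t)
  exact q.sel δ a ⟨x, hx⟩

/-- a strictly increasing sequence with supremum `δ` is eventually above every `b < δ` -/
theorem lim_ev {a : ℕ → K} {δ : K} (ha : StrictMono a) (hl : Lim a δ) {b : K} (hb : b < δ) :
    ∃ N, ∀ n, N ≤ n → b < a n := by
  obtain ⟨N, hN⟩ := hl.2 b hb
  exact ⟨N, fun n hn => lt_of_lt_of_le hN (ha.monotone hn)⟩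

theorem Ob_iff (hpd : PdH pd) (g : J) (t : P) (q : Cn le lam K J) (δ : K) (a : ℕ → K) :
    Ob pd e g t q δ a ↔ Exi (Lx pd e (pd g)) (fun (b : Set.Iio δ) z => ∀ n, b.1 < a n →
      Iff' (Lx pd e (pd g)) (fun z => Mem le (q.F g) (a n) z.1)
        (Mem (Lx pd e (pd g)) (e g) (δ, a n)) z) (t, q) := by
  rw [Ob_eq pd hpd]
  exact Iff.rfl

theorem Bq_down (H : TopH le K lam) {q p : Cn le lam K J} {t t' : P} (h : le t' t) (hq : Bq q p t) :
    Bq q p t' :=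
  ⟨hq.1, fun δ hδ a s hs => hq.2 δ hδ a s (H.tr _ _ _ hs h)⟩

theorem Bq_trans (H : TopH le K lam) {r q p : Cn le lam K J} {t : P} (h : Bq r q t)
    (h' : Bq q p t) : Bq r p t :=
  ⟨h'.1.trans h.1, fun δ hδ a s hs =>
    (h.2 δ (hδ.trans h'.1) a s hs).trans (h'.2 δ hδ a s hs)⟩

theorem Lq_down (H : TopH le K lam) {X : Set J} {q p : Cn le lam K J} {t t' : P} (h : le t' t)
    (hq : Lq pd e X q p t) : Lq pd e X q p t' := by
  refine ⟨Bq_down H h hq.1, fun i hi hp => ?_⟩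
  obtain ⟨h1, h2, h3⟩ := hq.2 i hi hp
  exact ⟨h1, fun ξ hξ s hs => h2 ξ hξ s (H.tr _ _ _ hs h),
    fun δ a hδ s hs hm => h3 δ a hδ s (H.tr _ _ _ hs h) hm⟩

theorem Lq_mono {X Y : Set J} {q p : Cn le lam K J} {t : P} (h : X ⊆ Y) (hq : Lq pd e Y q p t) :
    Lq pd e X q p t :=
  ⟨hq.1, fun i hi hp => hq.2 i (h hi) hp⟩

theorem Lq_refl (H : TopH le K lam) (X : Set J) (p : Cn le lam K J) (t : P) :
    Lq pd e X p p t := by
  refine ⟨⟨le_refl _, fun δ _ a s _ => Iff.rfl⟩, fun i _ hp => ⟨hp, fun ξ _ s _ => Iff.rfl, ?_⟩⟩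
  intro δ a hδ s _ hm
  exact absurd hδ (lt_asymm (mem_sel H hm).2.2.1)

theorem Lx_refl (H : TopH le K lam) (X : Set J) (z : P × Cn le lam K J) : Lx pd e X z z :=
  ⟨H.rf _, Lq_refl H X _ _⟩

theorem Lx_mono {X Y : Set J} {z w : P × Cn le lam K J} (h : X ⊆ Y) (hq : Lx pd e Y z w) :
    Lx pd e X z w :=
  ⟨hq.1, Lq_mono h hq.2⟩

theorem Unf_down (H : TopH le K lam) {f : K → Set P} {c : K × K → Set P} {δ : K} {a : ℕ → K}
    {t t' : P} (h : le t' t) (hu : Unf le f c δ a t) : Unf le f c δ a t' :=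
  fun q hq => hu q (H.tr _ _ _ hq h)

theorem Unf_loc (H : TopH le K lam) {f : K → Set P} {c : K × K → Set P} {δ : K} {a : ℕ → K}
    {t : P} (h : ∀ t', le t' t → ∃ t'', le t'' t' ∧ Unf le f c δ a t'') : Unf le f c δ a t := by
  intro q hq
  obtain ⟨t2, ht2, hu⟩ := h q hq
  obtain ⟨r, hr, i, hi⟩ := hu t2 (H.rf t2)
  exact ⟨r, H.tr _ _ _ hr ht2, i, hi⟩

theorem Unf_congr (H : TopH le K lam) {f f' : K → Set P} {c : K × K → Set P} {δ b : K}
    {a : ℕ → K} {t : P} (hb : b < δ)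
    (hf : ∀ n, b < a n → Iff' le (Mem le f' (a n)) (Mem le f (a n)) t)
    (hu : Unf le f c δ a t) : Unf le f' c δ a t := by
  intro q hq
  obtain ⟨r, hr, ⟨b0, hb0⟩, hi⟩ := hu q hq
  refine ⟨r, hr, ⟨max b b0, max_lt hb hb0⟩, fun n hn s hs => ?_⟩
  have h1 : b < a n := lt_of_le_of_lt (le_max_left _ _) hn
  have h2 : b0 < a n := lt_of_le_of_lt (le_max_right _ _) hn
  exact (hf n h1 s (H.tr _ _ _ hs (H.tr _ _ _ hr hq))).trans (hi n h2 s hs)

/-- the same condition with other coordinates -/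
def upd (q : Cn le lam K J) (sp : Set J) (F : J → K → Set P) (h1 : #(sp) ≤ lam)
    (h2 : ∀ g ξ, (F g ξ).Nonempty → g ∈ sp ∧ ξ < q.h) : Cn le lam K J :=
  { q with sp := sp, F := F, hsp := h1, out := h2 }

end Pool.Agent.UTop
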