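import Pool.Agent.Lib.UTop.Sqn

/-!
# Brl: the limit along a branch

PROOF. `brl_ex`: induction on `m`, `tn n (tn (n+1) w) = tn n w`, `tn n w ∈ Ug P A n`, `hT.step`, `Ex_trans`, `Ex_refl`. `brl_F`: (←) clear. (→) `Mem_loc`: some `t'' ≤ t'` is below an element of `(pb (tn m w) (Q m)).F g ξ`, so `Mem le ((pb (tn m w) (Q m)).F g) ξ t''`; `g ∈ (pb (tn m w) (Q m)).sp` and `ξ < (Q m).h` by `out`; by the second clause of `Cq g` from `brl_ex` for `n ≤ m` or `m ≤ n`.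
-/

set_option autoImplicit false
universe u

namespace Pool.Agent.UTop

open Cardinal Pool.Agent.PolF

variable {P K G : Type u} [LinearOrder K] [WellFoundedLT K] [LinearOrder G] [WellFoundedLT G]
  {le : P → P → Prop} {lam : Cardinal.{u}} {e : G → K × K → Set (P × Cn le lam K G)}
  {C : K → Set (P × Cn le lam K G)} {t0 : P} {p0 : Cn le lam K G}
  {Q : ℕ → Cn le lam K (Jt G P)} {A : ℕ → Set G}

omit [LinearOrder G] [WellFoundedLT G] in
private theorem tn_tn {n m : ℕ} (h : n ≤ m) (w : Gs G P) : tn n (tn m w) = tn n w := by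
  refine Gs_ext fun x k => ?_
  unfold tn
  by_cases hk : k < n
  · simp only [hk, hk.trans_le h, if_true]
  · simp only [hk, if_false]

theorem brl_ex (H : TopH le K lam) (hT : TrS e C t0 p0 Q A) {w : Gs G P}
    (hw : ∀ n, tn n w ∈ Ug P A n) {n m : ℕ} (h : n ≤ m) :
    Ex (pdI G) e Set.univ (pb (tn m w) (Q m)) (pb (tn n w) (Q n)) := by
  induction m, h using Nat.le_induction with
  | base => exact Ex_refl H _ _
  | succ m _ ih =>
    have h1 := hT.step m (tn (m + 1) w) (hw (m + 1))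
    rw [tn_tn (Nat.le_succ m)] at h1
    exact Ex_trans H pdI_H (fun _ _ => Set.subset_univ _) h1 ih

theorem brl_F (H : TopH le K lam) (hT : TrS e C t0 p0 Q A) {w : Gs G P}
    (hw : ∀ n, tn n w ∈ Ug P A n) {n : ℕ} {g : G} (hg : br (tn n w) g ∈ (Q n).sp) {ξ : K}
    (hξ : ξ < (Q n).h) (t : P) :
    Mem le (fun x => ⋃ m, (pb (tn m w) (Q m)).F g x) ξ t ↔
      Mem le ((pb (tn n w) (Q n)).F g) ξ t := by
  constructor
  · intro h
    refine Mem_loc H.tr H.rf fun t' ht' => ?_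
    obtain ⟨q, hq, b, hb, hqb⟩ := h t' ht'
    refine ⟨q, hq, ?_⟩
    obtain ⟨m, hm⟩ := Set.mem_iUnion.1 hb
    have hmm : Mem le ((pb (tn m w) (Q m)).F g) ξ q :=
      fun r hr => ⟨r, H.rf r, b, hm, H.tr _ _ _ hr hqb⟩
    obtain ⟨h1, h2⟩ := (pb (tn m w) (Q m)).out g ξ ⟨b, hm⟩
    rcases le_total n m with hnm | hnm
    · have h3 := ((brl_ex H hT hw hnm).1 q).2 g (Set.mem_univ g) hg
      exact (h3.2.1 ξ hξ q (H.rf q)).1 hmm
    · have h3 := ((brl_ex H hT hw hnm).1 q).2 g (Set.mem_univ g) h1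
      exact (h3.2.1 ξ h2 q (H.rf q)).2 hmm
  · intro h q hq
    obtain ⟨r, hr, b, hb, hrb⟩ := h q hq
    exact ⟨r, hr, b, Set.mem_iUnion.2 ⟨n, hb⟩, hrb⟩

end Pool.Agent.UTop
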