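import Pool.Agent.Lib.UTop.Trn

/-!
# Cnt: counting conditions

PROOF. `card_K`: `≥`: otherwise `H.bdd Set.univ` gives `b < b`. `≤`: if `#K > succ lam`, the order type of `K` is `> (succ lam).ord` (`Ordinal.type`, `Cardinal.lt_ord`), so some `b : K` has `Iio b` of type `(succ lam).ord`
(`Ordinal.enum`/`Ordinal.typein`), `#(Iio b) = succ lam`, against `H.iio`. `pw`: `(succ lam) ^ lam = (2 ^ lam) ^ lam = 2 ^ lam`. A set `X` with `#X ≤ μ`, `μ ^ lam = μ` has at most `μ` subsets of size `≤ lam` (`Cardinal.mk_bounded_set_le`).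
`fr_card`: `f ↦ (b, f restricted to Iio b)` with `b` chosen: `#K * (#(Set P)) ^ lam`-bounded: for every `b` there are at most `#(Set P) ^ #(Iio b) ≤ (2 ^ #P) ^ lam ≤ lam ^ lam ≤ succ lam` functions supported on `Iio b` (`2 ^ #P < lam` by `H.sl`),
and `#K = succ lam`. `bs_card`: `h`: `succ lam`; `cl ⊆ Iic h`: `2 ^ lam = succ lam` for every `h`; `s`: determined by the set `{(x, s x) | (s x).Nonempty}`, a subset of size `≤ lam` of `(K × (ℕ → K)) × Set P`, which has
`succ lam ^ ℵ₀ * 2 ^ #P ≤ succ lam` elements. `cn_card`: `q ↦ (bs q, {(g, q.F g) | g ∈ q.sp})` is injective (`F g = ∅` off `sp` by `out`; use `Fr`), the second component a subset of size `≤ lam` of `G × Fr`, `#(G × Fr) ≤ μ`.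
-/

set_option autoImplicit false
universe u

namespace Pool.Agent.UTop

open Cardinal Pool.Agent.PolF

variable {P K J : Type u} [LinearOrder K] [WellFoundedLT K] {le : P → P → Prop}
  {lam : Cardinal.{u}}

private theorem cnt_pow {lam : Cardinal.{u}} (hi : ℵ₀ < lam)
    (hp : (2 : Cardinal.{u}) ^ lam = Order.succ lam) : Order.succ lam ^ lam = Order.succ lam := by
  rw [← hp, ← Cardinal.power_mul, Cardinal.mul_eq_self hi.le]

private theorem cnt_b {X : Type u} {lam μ : Cardinal.{u}} (hμ : ℵ₀ ≤ μ) (hp : μ ^ lam = μ)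
    (hX : #X ≤ μ) : #{t : Set X // #t ≤ lam} ≤ μ := by
  refine (Cardinal.mk_bounded_set_le X lam).trans ?_
  calc max #X ℵ₀ ^ lam ≤ μ ^ lam := Cardinal.power_le_power_right (max_le hX hμ)
    _ = μ := hp

/-- the part of `q` without the coordinates -/
def bs (q : Cn le lam K J) : K × Set K × (K × (ℕ → K) → Set P) := (q.h, q.cl, q.s)

/-- the possible values of `F g` -/
abbrev Fr (P K : Type u) [LinearOrder K] : Type u :=
  {f : K → Set P // ∃ b : K, ∀ ξ, (f ξ).Nonempty → ξ < b}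

theorem card_K (H : TopH le K lam) : #K = Order.succ lam := by
  apply le_antisymm
  · have h : Ordinal.type ((· < ·) : K → K → Prop) ≤ (Order.succ lam).ord := by
      by_contra hc
      push Not at hc
      obtain ⟨b, hb⟩ := Ordinal.typein_surj (· < ·) hc
      have h2 := Ordinal.card_typein (r := ((· < ·) : K → K → Prop)) b
      rw [hb, Cardinal.card_ord] at h2
      have h3 := H.iio b
      have h4 : #(Set.Iio b) = Order.succ lam := h2.symm
      rw [h4] at h3
      exact absurd h3 (not_le.2 (Order.lt_succ lam))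
    have h5 := Ordinal.card_le_card h
    rwa [Cardinal.card_ord, Ordinal.card_type] at h5
  · rw [Order.succ_le_iff]
    by_contra hc
    push Not at hc
    obtain ⟨b, hb⟩ := H.bdd Set.univ (by rwa [Cardinal.mk_univ])
    exact lt_irrefl b (hb b trivial)

private theorem cnt_iic (H : TopH le K lam) (b : K) : #(Set.Iic b) ≤ lam := by
  obtain ⟨b', hb'⟩ := H.bdd {b} (by
    rw [Cardinal.mk_singleton]
    exact (Cardinal.one_lt_aleph0.trans H.inf).le)
  exact (Cardinal.mk_le_mk_of_subset (Set.Iic_subset_Iio.2 (hb' b rfl))).trans (H.iio b')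

private theorem cnt_setP (H : TopH le K lam) : #(Set P) < lam := by
  rw [Cardinal.mk_set]
  exact H.sl _ H.hP

private theorem cnt_self (H : TopH le K lam) : lam ^ lam ≤ Order.succ lam :=
  (Cardinal.power_le_power_right (Order.le_succ lam)).trans (cnt_pow H.inf H.pow).le

private theorem cnt_inf (H : TopH le K lam) : ℵ₀ ≤ Order.succ lam :=
  H.inf.le.trans (Order.le_succ lam)

theorem fr_card (H : TopH le K lam) : #(Fr P K) ≤ Order.succ lam := by
  classical
  let φ : Fr P K → Σ b : K, (Set.Iio b → Set P) := fun f =>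
    ⟨f.2.choose, fun ξ => f.1 ξ.1⟩
  have hφ : Function.Injective φ := by
    intro f g hfg
    have h1 : f.2.choose = g.2.choose := congrArg Sigma.fst hfg
    have key : ∀ (b b' : K) (u : Set.Iio b → Set P) (v : Set.Iio b' → Set P),
        (⟨b, u⟩ : Σ b : K, (Set.Iio b → Set P)) = ⟨b', v⟩ → ∀ ξ (h : ξ < b) (h' : ξ < b'),
          u ⟨ξ, h⟩ = v ⟨ξ, h'⟩ := by
      intro b b' u v h
      cases h
      intro ξ _ _
      rfl
    apply Subtype.ext
    funext ξ
    by_cases hξ : ξ < f.2.choose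
    · exact key _ _ _ _ hfg ξ hξ (h1 ▸ hξ)
    · have e1 : f.1 ξ = ∅ := by
        rw [← Set.not_nonempty_iff_eq_empty]
        exact fun hn => hξ (f.2.choose_spec ξ hn)
      have e2 : g.1 ξ = ∅ := by
        rw [← Set.not_nonempty_iff_eq_empty]
        exact fun hn => hξ (h1 ▸ g.2.choose_spec ξ hn)
      rw [e1, e2]
  refine (Cardinal.mk_le_of_injective hφ).trans ?_
  rw [Cardinal.mk_sigma]
  refine (Cardinal.sum_le_sum _ (fun _ : K => Order.succ lam) fun b => ?_).trans ?_
  · have h1 : #(Set.Iio b → Set P) = #(Set P) ^ #(Set.Iio b) := by simp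
    rw [h1]
    refine (Cardinal.power_le_power_right (cnt_setP H).le).trans ?_
    refine (Cardinal.power_le_power_left ?_ (H.iio b)).trans (cnt_self H)
    exact (Cardinal.aleph0_pos.trans H.inf).ne'
  · rw [Cardinal.sum_const, Cardinal.lift_id, Cardinal.lift_id, card_K H,
      Cardinal.mul_eq_self (cnt_inf H)]

private theorem cnt_seq (H : TopH le K lam) :
    #((K × (ℕ → K)) × Set P) ≤ Order.succ lam := by
  have h1 : #(ℕ → K) ≤ Order.succ lam := by
    have h2 : #(ℕ → K) = #K ^ (ℵ₀ : Cardinal.{u}) := by simp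
    rw [h2, card_K H]
    refine (Cardinal.power_le_power_left ?_ H.inf.le).trans (cnt_pow H.inf H.pow).le
    exact (Cardinal.aleph0_pos.trans_le (cnt_inf H)).ne'
  rw [Cardinal.mk_prod, Cardinal.mk_prod]
  simp only [Cardinal.lift_id]
  refine (mul_le_mul' (mul_le_mul' (card_K H).le h1)
    ((cnt_setP H).le.trans (Order.le_succ lam))).trans ?_
  rw [Cardinal.mul_eq_self (cnt_inf H), Cardinal.mul_eq_self (cnt_inf H)]

theorem bs_card (H : TopH le K lam) :
    #(Set.range (bs : Cn le lam K J → K × Set K × (K × (ℕ → K) → Set P))) ≤ Order.succ lam := by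
  classical
  have hcl : ∀ q : Cn le lam K J, #q.cl ≤ lam := fun q =>
    (Cardinal.mk_le_mk_of_subset (fun x hx => q.clh x hx)).trans (cnt_iic H q.h)
  let gr : (K × (ℕ → K) → Set P) → Set ((K × (ℕ → K)) × Set P) := fun s =>
    {v | v.2 = s v.1 ∧ v.2.Nonempty}
  have hgr : ∀ q : Cn le lam K J, #(gr q.s) ≤ lam := by
    intro q
    have h1 : gr q.s ⊆ Set.range (fun x : {x // (q.s x).Nonempty} => (x.1, q.s x.1)) := by
      rintro ⟨x, v⟩ ⟨h1, h2⟩
      simp only at h1 h2
      subst h1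
      exact ⟨⟨x, h2⟩, rfl⟩
    exact (Cardinal.mk_le_mk_of_subset h1).trans (Cardinal.mk_range_le.trans q.hs)
  have hgi : ∀ s s' : K × (ℕ → K) → Set P, gr s = gr s' → s = s' := by
    intro s s' h
    funext x
    by_cases hx : (s x).Nonempty
    · have h1 : (x, s x) ∈ gr s := ⟨rfl, hx⟩
      rw [h] at h1
      exact h1.1
    · by_cases hx' : (s' x).Nonempty
      · have h1 : (x, s' x) ∈ gr s' := ⟨rfl, hx'⟩
        rw [← h] at h1
        exact h1.1.symm
      · rw [Set.not_nonempty_iff_eq_empty.1 hx, Set.not_nonempty_iff_eq_empty.1 hx']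
  let φ : Set.range (bs : Cn le lam K J → K × Set K × (K × (ℕ → K) → Set P)) →
      K × ({t : Set K // #t ≤ lam} × {t : Set ((K × (ℕ → K)) × Set P) // #t ≤ lam}) :=
    fun v => (v.2.choose.h, ⟨v.2.choose.cl, hcl _⟩, ⟨gr v.2.choose.s, hgr _⟩)
  have hφ : Function.Injective φ := by
    intro v w hvw
    have h1 : v.2.choose.h = w.2.choose.h := congrArg Prod.fst hvw
    have h2 : v.2.choose.cl = w.2.choose.cl :=
      congrArg (fun z => (z.2.1 : {t : Set K // #t ≤ lam}).1) hvw
    have h3 : gr v.2.choose.s = gr w.2.choose.s :=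
      congrArg (fun z => (z.2.2 : {t : Set ((K × (ℕ → K)) × Set P) // #t ≤ lam}).1) hvw
    have h4 := hgi _ _ h3
    apply Subtype.ext
    rw [← v.2.choose_spec, ← w.2.choose_spec]
    exact Prod.ext h1 (Prod.ext h2 h4)
  refine (Cardinal.mk_le_of_injective hφ).trans ?_
  rw [Cardinal.mk_prod, Cardinal.mk_prod]
  simp only [Cardinal.lift_id]
  refine (mul_le_mul' (card_K H).le (mul_le_mul'
    (cnt_b (cnt_inf H) (cnt_pow H.inf H.pow) (card_K H).le)
    (cnt_b (cnt_inf H) (cnt_pow H.inf H.pow) (cnt_seq H)))).trans ?_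
  rw [Cardinal.mul_eq_self (cnt_inf H), Cardinal.mul_eq_self (cnt_inf H)]

theorem cn_card (H : TopH le K lam) (μ : Cardinal.{u}) (hμ : Order.succ lam ≤ μ)
    (hp : μ ^ lam = μ) (G : Set J) (hG : #G ≤ μ) : #{q : Cn le lam K J // q.sp ⊆ G} ≤ μ := by
  classical
  have hμ0 : ℵ₀ ≤ μ := (cnt_inf H).trans hμ
  let fr : Cn le lam K J → J → Fr P K := fun q g => ⟨q.F g, q.h, fun ξ hξ => (q.out g ξ hξ).2⟩
  let gr : {q : Cn le lam K J // q.sp ⊆ G} → Set (G × Fr P K) := fun q =>
    {v | v.1.1 ∈ q.1.sp ∧ v.2 = fr q.1 v.1.1}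
  have hgr : ∀ q, #(gr q) ≤ lam := by
    intro q
    have h1 : gr q ⊆ Set.range (fun x : q.1.sp => ((⟨x.1, q.2 x.2⟩ : G), fr q.1 x.1)) := by
      rintro ⟨⟨x, hx⟩, v⟩ ⟨h1, h2⟩
      simp only at h1 h2
      subst h2
      exact ⟨⟨x, h1⟩, rfl⟩
    exact (Cardinal.mk_le_mk_of_subset h1).trans (Cardinal.mk_range_le.trans q.1.hsp)
  let φ : {q : Cn le lam K J // q.sp ⊆ G} →
      Set.range (bs : Cn le lam K J → K × Set K × (K × (ℕ → K) → Set P)) ×
        {t : Set (G × Fr P K) // #t ≤ lam} := fun q => (⟨bs q.1, q.1, rfl⟩, ⟨gr q, hgr q⟩)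
  have hφ : Function.Injective φ := by
    intro q q' hq
    have h1 : bs q.1 = bs q'.1 := congrArg (fun z => (z.1 : Set.range
      (bs : Cn le lam K J → K × Set K × (K × (ℕ → K) → Set P))).1) hq
    have h2 : gr q = gr q' := congrArg (fun z => (z.2 : {t : Set (G × Fr P K) // #t ≤ lam}).1) hq
    have hsp : ∀ (a b : {q : Cn le lam K J // q.sp ⊆ G}), gr a = gr b → a.1.sp ⊆ b.1.sp := by
      intro a b hab x hx
      have h3 : ((⟨x, a.2 hx⟩ : G), fr a.1 x) ∈ gr a := ⟨hx, rfl⟩
      rw [hab] at h3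
      exact h3.1
    have hs : q.1.sp = q'.1.sp := Set.Subset.antisymm (hsp q q' h2) (hsp q' q h2.symm)
    have hF : q.1.F = q'.1.F := by
      funext g
      by_cases hg : g ∈ q.1.sp
      · have h3 : ((⟨g, q.2 hg⟩ : G), fr q.1 g) ∈ gr q := ⟨hg, rfl⟩
        rw [h2] at h3
        exact congrArg Subtype.val h3.2
      · have hg' : g ∉ q'.1.sp := hs ▸ hg
        funext ξ
        have e1 : q.1.F g ξ = ∅ := by
          rw [← Set.not_nonempty_iff_eq_empty]
          exact fun hn => hg (q.1.out g ξ hn).1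
        have e2 : q'.1.F g ξ = ∅ := by
          rw [← Set.not_nonempty_iff_eq_empty]
          exact fun hn => hg' (q'.1.out g ξ hn).1
        rw [e1, e2]
    have h4 : q.1.h = q'.1.h := congrArg Prod.fst h1
    have h5 : q.1.cl = q'.1.cl := congrArg (fun z => z.2.1) h1
    have h6 : q.1.s = q'.1.s := congrArg (fun z => z.2.2) h1
    apply Subtype.ext
    obtain ⟨⟨h, cl, s, sp, F, _, _, _, _, _, _, _, _, _⟩, _⟩ := q
    obtain ⟨⟨h', cl', s', sp', F', _, _, _, _, _, _, _, _, _⟩, _⟩ := q'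
    simp only at h4 h5 h6 hs hF
    subst h4 h5 h6 hs hF
    rfl
  refine (Cardinal.mk_le_of_injective hφ).trans ?_
  have hGF : #(G × Fr P K) ≤ μ := by
    rw [Cardinal.mk_prod]
    simp only [Cardinal.lift_id]
    refine (mul_le_mul' hG ((fr_card H).trans hμ)).trans ?_
    rw [Cardinal.mul_eq_self hμ0]
  rw [Cardinal.mk_prod]
  simp only [Cardinal.lift_id]
  refine (mul_le_mul' ((bs_card H).trans hμ) (cnt_b hμ0 hp hGF)).trans ?_
  rw [Cardinal.mul_eq_self hμ0]

end Pool.Agent.UTop
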