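import Pool.Agent.Lib.UTop.Ds
import Pool.Agent.Lib.UTop.Cnt

/-!
# Ccc: the chain condition

PROOF. `ds` with `Z = P × Cn le lam K J`, `dm z = z.2.sp`, `v z g = z.2.F g` as an element of `Fr P K` (`out`), `tp z = (z.1, bs z.2)` in `P × Set.range bs`, of size `≤ succ lam` (`bs_card`, `H.hP`). For `d`, `d0` with the same `t`, `h`, `cl`, `s` and `F g` equal for
`g ∈ d.2.sp ∩ d0.2.sp` let `m = upd d.2 (d.2.sp ∪ d0.2.sp) (F g = d.2.F g if g ∈ d.2.sp, else d0.2.F g)` and `z = (d.1, m)`. `Lx pd e X z d`: `Bq` is clear, the values of `F` are equal, the third clause of `Cq` is void since the heights are equal (`mem_sel`); the same for `d0`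
(its `s` and `h` are those of `m`). `ccc_anti`: `D0` for `D = B`; every `d ∈ B` is compatible with some `d0 ∈ D0 ⊆ B`, so `d = d0`: `B = D0`.
-/

set_option autoImplicit false
universe u

namespace Pool.Agent.UTop

open Cardinal Pool.Agent.PolF

variable {P K J : Type u} [LinearOrder K] [WellFoundedLT K] [LinearOrder J] [WellFoundedLT J]
  {le : P → P → Prop} {lam : Cardinal.{u}} {pd : J → Set J}
  {e : J → K × K → Set (P × Cn le lam K J)}

omit [WellFoundedLT K] in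
private theorem lq_of (H : TopH le K lam) {m w : Cn le lam K J} (hh : m.h = w.h) (hs : m.s = w.s)
    (hsp : w.sp ⊆ m.sp) (hF : ∀ i ∈ w.sp, m.F i = w.F i) (X : Set J) (t : P) :
    Lq pd e X m w t := by
  refine ⟨⟨hh.ge, fun δ _ a => ?_⟩, fun i _ hi => ⟨hsp hi, fun ξ _ => ?_, ?_⟩⟩
  · rw [hs]
    exact fun _ _ => Iff.rfl
  · rw [hF i hi]
    exact fun _ _ => Iff.rfl
  · intro δ a hδ t' _ hm
    have h1 := (mem_sel H hm).2.2.1
    rw [hh] at h1
    exact absurd hδ (lt_asymm h1)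

theorem ccc (H : TopH le K lam) (D : Set (P × Cn le lam K J)) :
    ∃ D0 ⊆ D, #D0 ≤ Order.succ lam ∧ ∀ d ∈ D, ∃ d0 ∈ D0, ∃ z : P × Cn le lam K J,
      (∀ X, Lx pd e X z d) ∧ ∀ X, Lx pd e X z d0 := by
  classical
  have hinf : ℵ₀ ≤ Order.succ lam := H.inf.le.trans (Order.le_succ lam)
  have hT : #(P × Set.range (bs : Cn le lam K J → K × Set K × (K × (ℕ → K) → Set P))) ≤
      Order.succ lam := by
    rw [Cardinal.mk_prod, Cardinal.lift_id, Cardinal.lift_id]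
    exact Cardinal.mul_le_of_le hinf (H.hP.le.trans (Order.le_succ lam)) (bs_card H)
  obtain ⟨D0, hD0, hcard, hds⟩ := ds (Z := P × Cn le lam K J) (J := J) (R := Fr P K)
    (T := P × Set.range (bs : Cn le lam K J → K × Set K × (K × (ℕ → K) → Set P)))
    H.inf.le H.pow (fun z => z.2.sp) (fun z => z.2.hsp)
    (fun z g => ⟨z.2.F g, z.2.h, fun ξ hξ => (z.2.out g ξ hξ).2⟩)
    (fun z => (z.1, ⟨bs z.2, z.2, rfl⟩)) (fr_card H) hT D
  refine ⟨D0, hD0, hcard, fun d hd => ?_⟩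
  obtain ⟨d0, hd0, htp, hv⟩ := hds d hd
  have htp2 := Prod.ext_iff.1 htp
  have h1 : d.1 = d0.1 := htp2.1
  have h2 : bs d.2 = bs d0.2 := congrArg Subtype.val htp2.2
  have hh : d.2.h = d0.2.h := congrArg Prod.fst h2
  have hs : d.2.s = d0.2.s := congrArg (fun x => x.2.2) h2
  have hc : #(d.2.sp ∪ d0.2.sp : Set J) ≤ lam :=
    (Cardinal.mk_union_le _ _).trans (Cardinal.add_le_of_le H.inf.le d.2.hsp d0.2.hsp)
  have ho : ∀ g ξ, ((fun g => if g ∈ d.2.sp then d.2.F g else d0.2.F g) g ξ).Nonempty →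
      g ∈ d.2.sp ∪ d0.2.sp ∧ ξ < d.2.h := by
    intro g ξ hg
    by_cases hgd : g ∈ d.2.sp
    · simp only [hgd, if_true] at hg
      exact ⟨Or.inl hgd, (d.2.out g ξ hg).2⟩
    · simp only [hgd, if_false] at hg
      have h3 := d0.2.out g ξ hg
      exact ⟨Or.inr h3.1, hh ▸ h3.2⟩
  obtain ⟨m, hm⟩ : ∃ m, m = upd d.2 (d.2.sp ∪ d0.2.sp)
    (fun g => if g ∈ d.2.sp then d.2.F g else d0.2.F g) hc ho := ⟨_, rfl⟩
  have m1 : m.h = d.2.h := by rw [hm]; rfl
  have m2 : m.s = d.2.s := by rw [hm]; rfl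
  have m3 : m.sp = d.2.sp ∪ d0.2.sp := by rw [hm]; rfl
  have m4 : ∀ i, m.F i = if i ∈ d.2.sp then d.2.F i else d0.2.F i := by
    intro i
    rw [hm]
    rfl
  refine ⟨d0, hd0, (d.1, m), fun X => ⟨H.rf _, ?_⟩, fun X => ⟨?_, ?_⟩⟩
  · refine lq_of H m1 m2 (by rw [m3]; exact Set.subset_union_left) ?_ X _
    intro i hi
    rw [m4, if_pos hi]
  · change le d.1 d0.1
    rw [h1]
    exact H.rf _
  · refine lq_of H (m1.trans hh) (m2.trans hs) (by rw [m3]; exact Set.subset_union_right) ?_ X _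
    intro i hi
    rw [m4]
    by_cases hid : i ∈ d.2.sp
    · rw [if_pos hid]
      exact congrArg Subtype.val (hv i hid hi)
    · rw [if_neg hid]

theorem ccc_anti (H : TopH le K lam) (B : Set (P × Cn le lam K J))
    (h : ∀ p ∈ B, ∀ q ∈ B, p ≠ q → ¬ ∃ r, Lx pd e Set.univ r p ∧ Lx pd e Set.univ r q) :
    #B ≤ Order.succ lam := by
  obtain ⟨D0, hD0, hcard, hds⟩ := ccc (pd := pd) (e := e) H B
  refine le_trans (Cardinal.mk_le_mk_of_subset fun d hd => ?_) hcard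
  obtain ⟨d0, hd0, z, h1, h2⟩ := hds d hd
  by_cases hne : d = d0
  · exact hne ▸ hd0
  · exact absurd ⟨z, h1 Set.univ, h2 Set.univ⟩ (h d hd d0 (hD0 hd0) hne)

end Pool.Agent.UTop
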