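import Pool.Agent.Lib.UTop.Glu

/-!
# Cls: chains of length `≤ lam` have lower bounds

PROOF. `cls`: `glu` with `Ex_mono` (`∅ ⊆ Y i`) gives `r0`. Let `sp = ⋃ i, (r i).sp ∩ Y i`,
`F g ξ = {t | ∃ i, g ∈ Y i ∧ g ∈ (r i).sp ∧ ξ < (r i).h ∧ t ∈ (r i).F g ξ}` and `r' = upd r0 sp F`. (1) For `g ∈ Y i`, `g ∈ (r i).sp`, `ξ < (r i).h`:
`Iff' le (Mem le (F g) ξ) (Mem le ((r i).F g) ξ) t` for all `t`: (←) clear; (→) `Mem_loc` and: if `t'' ∈ (r j).F g ξ`, `g ∈ Y j`, `g ∈ (r j).sp`, `ξ < (r j).h`, then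
`Mem le ((r i).F g) ξ t''`, by the second clause of `Cq` (two cases, `hE i j`). (2) By well-founded induction on `g`: for all `i`, `t`, if `g ∈ Y i`, `g ∈ (r i).sp` then
`Cq (Ob pd e g) g r' (r i) t`. Third clause: `(r i).h < δ`, `Mem le r'.s (δ, a) t'`; by `Ob_loc` and `r'.s x = ⋃ j, (r j).s x` it is enough to find the obligation at `t'' ≤ t'` with
`Mem le (r j).s (δ, a) t''` for some `j`. Then `δ < (r j).h` (`mem_sel`), so the second case of `hE i j` is impossible, and `Ob pd e g t'' (r j) δ a` by `Cq g (r j) (r i)`. `Ob_congr` from `r j` to `r'`: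
`Lq pd e (pd g) r' (r j) t''` by the induction hypothesis (elements of `pd g` are `< g`, and `pd g ⊆ Y i ⊆ Y j`), and the values at `a n < δ < (r j).h` by (1). The bound on the cardinality of `sp`:
a union of `≤ lam` sets of size `≤ lam`. `cls'`: if `T` is empty take `r' = b`; otherwise `cls` (compare `i`, `j`; `Ex_refl` if `i = j`) and `Ex_trans` for `X0 ⊆ Y i`.
-/

set_option autoImplicit false
universe u

namespace Pool.Agent.UTop

open Cardinal Pool.Agent.PolF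

variable {P K J : Type u} [LinearOrder K] [WellFoundedLT K] [LinearOrder J] [WellFoundedLT J]
  {le : P → P → Prop} {lam : Cardinal.{u}} {pd : J → Set J}
  {e : J → K × K → Set (P × Cn le lam K J)}

private theorem cls_mem (H : TopH le K lam) {X : Type u} {A : X → Set P} {x : X} {t b : P}
    (hb : b ∈ A x) (h : le t b) : Mem le A x t :=
  fun q hq => ⟨q, H.rf q, b, hb, H.tr _ _ _ hq h⟩

theorem cls (H : TopH le K lam) (hpd : PdH pd) {T : Type u} [Nonempty T]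
    (hT : #T ≤ lam) (r : T → Cn le lam K J) (Y : T → Set J) (hY : ∀ i, DC pd (Y i))
    (hE : ∀ i j, (Y i ⊆ Y j ∧ Ex pd e (Y i) (r j) (r i)) ∨
      (Y j ⊆ Y i ∧ Ex pd e (Y j) (r i) (r j))) :
    ∃ r' : Cn le lam K J, (∀ i, Ex pd e (Y i) r' (r i)) ∧ ∀ x < r'.h, ∃ i, x < (r i).h := by
  obtain ⟨r0, h0, h1, h2⟩ := glu (pd := pd) (e := e) H hT r fun i j => by
    rcases hE i j with h | h
    · exact Or.inl (Ex_mono (Set.empty_subset _) h.2)
    · exact Or.inr (Ex_mono (Set.empty_subset _) h.2)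
  obtain ⟨t0⟩ := H.ne
  have hh : ∀ i, (r i).h ≤ r0.h := fun i => ((h0 i).1 t0).1.1
  have hsp : #({g | ∃ i, g ∈ Y i ∧ g ∈ (r i).sp} : Set J) ≤ lam := by
    have h3 : ({g | ∃ i, g ∈ Y i ∧ g ∈ (r i).sp} : Set J) ⊆ ⋃ i, (r i).sp := by
      rintro g ⟨i, -, hg⟩
      exact Set.mem_iUnion.2 ⟨i, hg⟩
    refine (Cardinal.mk_le_mk_of_subset h3).trans ((Cardinal.mk_iUnion_le _).trans ?_)
    have h4 : (⨆ i, #((r i).sp)) ≤ lam := ciSup_le' fun i => (r i).hsp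
    calc #T * (⨆ i, #((r i).sp)) ≤ lam * lam := mul_le_mul' hT h4
      _ = lam := Cardinal.mul_eq_self H.inf.le
  have hout : ∀ g ξ, ({t | ∃ i, g ∈ Y i ∧ g ∈ (r i).sp ∧ ξ < (r i).h ∧ t ∈ (r i).F g ξ} :
      Set P).Nonempty → g ∈ ({g | ∃ i, g ∈ Y i ∧ g ∈ (r i).sp} : Set J) ∧ ξ < r0.h := by
    rintro g ξ ⟨t, i, h3, h4, h5, -⟩
    exact ⟨⟨i, h3, h4⟩, h5.trans_le (hh i)⟩
  set r' : Cn le lam K J := upd r0 ({g | ∃ i, g ∈ Y i ∧ g ∈ (r i).sp} : Set J)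
    (fun g ξ => {t | ∃ i, g ∈ Y i ∧ g ∈ (r i).sp ∧ ξ < (r i).h ∧ t ∈ (r i).F g ξ}) hsp hout
    with hr'
  have hA : ∀ g i, g ∈ Y i → g ∈ (r i).sp → ∀ ξ < (r i).h, ∀ q,
      Mem le (r'.F g) ξ q ↔ Mem le ((r i).F g) ξ q := by
    intro g i hgY hgs ξ hξ q
    constructor
    · intro hm
      refine Mem_loc H.tr H.rf fun q' hq' => ?_
      obtain ⟨q2, hq2, b, hb, hq2b⟩ := hm q' hq'
      refine ⟨q2, hq2, ?_⟩
      obtain ⟨j, hj1, hj2, hj3, hj4⟩ := hb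
      have hmj : Mem le ((r j).F g) ξ q2 := cls_mem H hj4 hq2b
      rcases hE i j with h | h
      · have hc := (h.2.1 q2).2 g hgY hgs
        exact (hc.2.1 ξ hξ q2 (H.rf _)).1 hmj
      · have hc := (h.2.1 q2).2 g hj1 hj2
        exact (hc.2.1 ξ hj3 q2 (H.rf _)).2 hmj
    · intro hm q' hq'
      obtain ⟨q2, hq2, b, hb, hq2b⟩ := hm q' hq'
      exact ⟨q2, hq2, b, ⟨i, hgY, hgs, hξ, hb⟩, hq2b⟩
  have hB : ∀ i t, Bq r' (r i) t := fun i t => ((h0 i).1 t).1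
  have hC : ∀ g i t, g ∈ Y i → g ∈ (r i).sp → Cq (Ob pd e g) g r' (r i) t := by
    intro g
    induction g using WellFoundedLT.induction with
    | ind g ih =>
    intro i t hgY hgs
    refine ⟨⟨i, hgY, hgs⟩, fun ξ hξ q _ => hA g i hgY hgs ξ hξ q, ?_⟩
    intro δ a hδ t' _ hm
    refine Ob_loc H hpd fun t1 ht1 => ?_
    obtain ⟨t2, ht2, b, hb, ht2b⟩ := hm t1 ht1
    refine ⟨t2, ht2, ?_⟩
    have hb' : b ∈ ⋃ i, (r i).s (δ, a) := by
      rw [← h2]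
      exact hb
    obtain ⟨j, hj⟩ := Set.mem_iUnion.1 hb'
    have hmj : Mem le (r j).s (δ, a) t2 := cls_mem H hj ht2b
    have hsel := mem_sel H hmj
    rcases hE i j with h | h
    · have hc := (h.2.1 t2).2 g hgY hgs
      have hob := hc.2.2 δ a hδ t2 (H.rf _) hmj
      refine Ob_congr H hpd ⟨hB j t2, fun i' hi' hi's => ?_⟩ ?_ hob
      · exact ih i' (hpd.lt g i' hi') j t2 (hY j g (h.1 hgY) hi') hi's
      · intro n q _
        exact hA g j (h.1 hgY) hc.1 (a n) ((hsel.2.1.1 n).trans hsel.2.2.1) q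
    · exfalso
      have h3 := ((h.2.1 t2).1).1
      exact absurd (hsel.2.2.1.trans_le h3) (not_lt.2 hδ.le)
  exact ⟨r', fun i => ⟨fun t => ⟨hB i t, fun g hg hgs => hC g i t hg hgs⟩, (h0 i).2⟩, h1⟩

theorem cls' (H : TopH le K lam) (hpd : PdH pd) {T : Type u} [LinearOrder T]
    (hT : #T ≤ lam) (r : T → Cn le lam K J) (Y : T → Set J) (hY : ∀ i, DC pd (Y i))
    (hm : Monotone Y) (hE : ∀ i j, i < j → Ex pd e (Y i) (r j) (r i)) (X0 : Set J)
    (hD : DC pd X0) (hX0 : ∀ i, X0 ⊆ Y i) (b : Cn le lam K J) (hb : ∀ i, Ex pd e X0 (r i) b) :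
    ∃ r' : Cn le lam K J, (∀ i, Ex pd e (Y i) r' (r i)) ∧ Ex pd e X0 r' b := by
  rcases isEmpty_or_nonempty T with hT0 | hT0
  · exact ⟨b, fun i => isEmptyElim i, Ex_refl H X0 b⟩
  · obtain ⟨r', h1, -⟩ := cls H hpd hT r Y hY fun i j => by
      rcases lt_trichotomy i j with h | h | h
      · exact Or.inl ⟨hm h.le, hE i j h⟩
      · subst h
        exact Or.inl ⟨subset_rfl, Ex_refl H _ _⟩
      · exact Or.inr ⟨hm h.le, hE j i h⟩
    obtain ⟨i⟩ := hT0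
    exact ⟨r', h1, Ex_trans H hpd hD (Ex_mono (hX0 i) (h1 i)) (hb i)⟩

end Pool.Agent.UTop
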