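import Pool.Agent.Lib.PolF.Bas
import Pool.Agent.Lib.UlB.Frc

/-!
# The top block: definitions

`P` is a preordered set of conditions, `K` the well-ordered set of the ordinals below `lam⁺`, `J` a
well-ordered set of coordinates; `pd g` is the set of the coordinates on which the coordinate `g` depends.
Names for subsets of `X` are functions `X → Set _`, with `Mem` of `Pool.Agent.Lib.PolF.Frc`.
-/

set_option autoImplicit false
universe u

namespace Pool.Agent.UTop

open Cardinal Pool.Agent.PolF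

/-- `δ` is the strict supremum of the sequence `a` -/
def Lim {K : Type u} [LinearOrder K] (a : ℕ → K) (δ : K) : Prop :=
  (∀ n, a n < δ) ∧ ∀ x < δ, ∃ n, x < a n

section
variable {P : Type u} (le : P → P → Prop)

/-- `t ⊩` for almost all `n`, `f (a n) = c (δ, a n)` (names over `P`) -/
def Unf {K : Type u} [LinearOrder K] (f : K → Set P) (c : K × K → Set P) (δ : K) (a : ℕ → K)
    (t : P) : Prop :=
  Exi le (fun (b : Set.Iio δ) q => ∀ n, b.1 < a n → Iff' le (Mem le f (a n)) (Mem le c (δ, a n)) q) t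

/-- the conditions of the top block: `h` is the height; `s (δ, a)` is the set of the `t : P` forcing that
`δ` belongs to the stationary set and that its ladder is `a`; `cl` is a closed set of points which are not
selected; `sp` is the set of coordinates, `F g` the name of the part below `h` of the uniformizing function
of the coordinate `g`; `lu`: every colouring of the ladders below `h` is uniformizable -/
structure Cn (lam : Cardinal.{u}) (K J : Type u) [LinearOrder K] where
  h : K
  cl : Set K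
  s : K × (ℕ → K) → Set P
  sp : Set J
  F : J → K → Set P
  hcl : h ∈ cl
  clh : ∀ x ∈ cl, x ≤ h
  cld : ∀ x, (∃ y, y < x) → (∀ y < x, ∃ z ∈ cl, y < z ∧ z < x) → x ∈ cl
  sel : ∀ δ a, (s (δ, a)).Nonempty → StrictMono a ∧ Lim a δ ∧ δ < h ∧ δ ∉ cl
  inc : ∀ δ a b t, Mem le s (δ, a) t → Mem le s (δ, b) t → a = b
  hs : #{x // (s x).Nonempty} ≤ lam
  hsp : #(sp) ≤ lam
  out : ∀ g ξ, (F g ξ).Nonempty → g ∈ sp ∧ ξ < h
  lu : ∀ c : K × K → Set P, ∃ f : K → Set P, ∀ δ a t, Mem le s (δ, a) t → Unf le f c δ a t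

/-- the hypotheses on `P`, `K` and the cardinal `lam`: a strong limit cardinal of cofinality `ω` with
`2 ^ lam = lam⁺`, and `K` is a well order of type `lam⁺` -/
structure TopH (K : Type u) [LinearOrder K] (lam : Cardinal.{u}) : Prop where
  rf : ∀ p, le p p
  tr : ∀ p q r, le p q → le q r → le p r
  ne : Nonempty P
  inf : ℵ₀ < lam
  hP : #P < lam
  iio : ∀ b : K, #(Set.Iio b) ≤ lam
  bdd : ∀ s : Set K, #s ≤ lam → ∃ b, ∀ x ∈ s, x < b
  sl : ∀ c : Cardinal.{u}, c < lam → 2 ^ c < lam
  cof : ∃ l : ℕ → Cardinal.{u}, (∀ n, l n < lam) ∧ ∀ c < lam, ∃ n, c ≤ l n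
  pow : (2 : Cardinal.{u}) ^ lam = Order.succ lam

end

variable {P K J : Type u} [LinearOrder K] [LinearOrder J] {le : P → P → Prop} {lam : Cardinal.{u}}

/-- `t ⊩ q ≤ p`, for the part on the stationary set and the ladders: nothing changes up to the height of
`p` (inclusive) -/
def Bq (q p : Cn le lam K J) (t : P) : Prop :=
  p.h ≤ q.h ∧ ∀ δ ≤ p.h, ∀ a, Iff' le (Mem le q.s (δ, a)) (Mem le p.s (δ, a)) t

/-- `t ⊩ q ≤ p`, for the coordinate `g`; `ob t' q δ a` is the obligation of `q` at the new ladder `a` -/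
def Cq (ob : P → Cn le lam K J → K → (ℕ → K) → Prop) (g : J) (q p : Cn le lam K J) (t : P) : Prop :=
  g ∈ q.sp ∧ (∀ ξ < p.h, Iff' le (Mem le (q.F g) ξ) (Mem le (p.F g) ξ) t) ∧
    ∀ δ a, p.h < δ → ∀ t', le t' t → Mem le q.s (δ, a) t' → ob t' q δ a

/-- the order, for the coordinates `i < g` in the set `D`, from the obligations below `g` -/
def LB (g : J) (D : Set J) (ih : ∀ i, i < g → P → Cn le lam K J → K → (ℕ → K) → Prop)
    (z w : P × Cn le lam K J) : Prop :=
  le z.1 w.1 ∧ Bq z.2 w.2 z.1 ∧ ∀ i (hi : i < g), i ∈ D → i ∈ w.2.sp → Cq (ih i hi) i z.2 w.2 z.1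

/-- `(t, q)` forces, in the sense of the order `L`, that for almost all `n`, `F_g (a n) = c (δ, a n)` -/
def ObF (g : J) (c : K × K → Set (P × Cn le lam K J))
    (L : P × Cn le lam K J → P × Cn le lam K J → Prop) (t : P) (q : Cn le lam K J) (δ : K)
    (a : ℕ → K) : Prop :=
  Exi L (fun (b : Set.Iio δ) z => ∀ n, b.1 < a n →
    Iff' L (fun z => Mem le (q.F g) (a n) z.1) (Mem L c (δ, a n)) z) (t, q)

variable [WellFoundedLT J]

/-- the obligation at the coordinate `g`: `F_g` uniformizes the colouring with the name `e g` at the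
ladder `a` of `δ` -/
noncomputable def Ob (pd : J → Set J) (e : J → K × K → Set (P × Cn le lam K J)) :
    J → P → Cn le lam K J → K → (ℕ → K) → Prop :=
  (wellFounded_lt : WellFounded ((· < ·) : J → J → Prop)).fix
    (fun g ih => ObF g (e g) (LB g (pd g) ih))

/-- `t ⊩ q ≤ p` for the coordinates in `X` -/
def Lq (pd : J → Set J) (e : J → K × K → Set (P × Cn le lam K J)) (X : Set J)
    (q p : Cn le lam K J) (t : P) : Prop :=
  Bq q p t ∧ ∀ i ∈ X, i ∈ p.sp → Cq (Ob pd e i) i q p t

/-- the order of `P * A`, for the coordinates in `X` -/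
def Lx (pd : J → Set J) (e : J → K × K → Set (P × Cn le lam K J)) (X : Set J)
    (z w : P × Cn le lam K J) : Prop :=
  le z.1 w.1 ∧ Lq pd e X z.2 w.2 z.1

/-- `q` is a direct extension of `p` for the coordinates in `X` -/
def Ex (pd : J → Set J) (e : J → K × K → Set (P × Cn le lam K J)) (X : Set J)
    (q p : Cn le lam K J) : Prop :=
  (∀ t, Lq pd e X q p t) ∧ ∀ x ≤ p.h, x ∈ q.cl ↔ x ∈ p.cl

/-- `pd g` is a set of smaller coordinates, and `pd` is transitive -/
structure PdH (pd : J → Set J) : Prop where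
  lt : ∀ g, ∀ i ∈ pd g, i < g
  tr : ∀ g, ∀ i ∈ pd g, pd i ⊆ pd g

/-- `X` is closed under dependence -/
def DC (pd : J → Set J) (X : Set J) : Prop := ∀ g ∈ X, pd g ⊆ X

theorem Ob_eq (pd : J → Set J) (hpd : PdH pd) (e : J → K × K → Set (P × Cn le lam K J)) (g : J) :
    Ob pd e g = ObF g (e g) (Lx pd e (pd g)) := by
  unfold Ob
  rw [WellFounded.fix_eq]
  congr 1
  funext z w
  apply propext
  exact ⟨fun h => ⟨h.1, h.2.1, fun i hi hw => h.2.2 i (hpd.lt g i hi) hi hw⟩,
    fun h => ⟨h.1, h.2.1, fun i _ hi hw => h.2.2 i hi hw⟩⟩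

/-- `z` forces that `C` is unbounded and closed at the points of cofinality `ω` -/
def FOm {Q K : Type u} [LinearOrder K] (L : Q → Q → Prop) (C : K → Set Q) (z : Q) : Prop :=
  (∀ b : K, Exi L (fun y : {y : K // b < y} => Mem L C y.1) z) ∧
  ∀ (δ : K) (a : ℕ → K), Lim a δ → Imp L
    (fun q => ∀ b < δ, Exi L (fun y : {y : K // b < y ∧ y < δ} => Mem L C y.1) q) (Mem L C δ) z

/-- the name of the stationary set -/
def SN (lam : Cardinal.{u}) (le : P → P → Prop) (K J : Type u) [LinearOrder K] (δ : K) :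
    Set (P × Cn le lam K J) :=
  {z | ∃ a, Mem le z.2.s (δ, a) z.1}

/-- the name of the ladder system -/
def AN (lam : Cardinal.{u}) (le : P → P → Prop) (K J : Type u) [LinearOrder K] (x : K × K) :
    Set (P × Cn le lam K J) :=
  {z | ∃ a, Mem le z.2.s (x.1, a) z.1 ∧ ∃ n, a n = x.2}

end Pool.Agent.UTop
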