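import Mathlib

/-!
# Ds: a closing-off argument (in place of the Delta system lemma)

Proof in this file: closure under lam-ary choice operations, counted with W-types. Original plan (compare `PolF/Ccc.lean`). `(succ lam) ^ lam = succ lam` because it is `(2 ^ lam) ^ lam = 2 ^ (lam * lam)`. (0) A set `X` with `#X ≤ succ lam` has at most `succ lam` subsets of size `≤ lam`
(`Cardinal.mk_bounded_set_le` or similar). For `C : Set J` let `tr C d = (tp d, {x : C × R | x.1 ∈ dm d ∧ v d x.1 = x.2})`, an element of `T × {s : Set (C × R) // #s ≤ lam}`; for `#C ≤ succ lam` this type has at most `succ lam` elements. By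
`Set.exists_subset_bijOn` choose `S C ⊆ D` in bijection with `tr C '' D`; `#(S C) ≤ succ lam`. Let `Cov Z' = ⋃ z ∈ Z', dm z`, `N Z' = (Z' ∩ D) ∪ S (Cov Z')`. Along `W = (succ lam).ord.ToType` (every proper initial segment has size `≤ lam`, every
subset of size `≤ lam` is strictly bounded: `succ lam` is regular) define `Z y = ⋃ x < y, N (Z x)` by well-founded recursion; all `#(Z y) ≤ succ lam`. `D0 = ⋃ y, N (Z y)`. Let `d ∈ D` and `c = dm d ∩ Cov D0`, `#c ≤ lam`; there is `b : W` with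
`c ⊆ Cov (Z b)`. Choose `d0 ∈ S (Cov (Z b))` with `tr (Cov (Z b)) d0 = tr (Cov (Z b)) d`. `d0 ∈ N (Z b) ⊆ D0`. If `i ∈ dm d`, `i ∈ dm d0` then `i ∈ c ⊆ Cov (Z b)`, and the equality of the traces gives `v d i = v d0 i`.
-/

set_option autoImplicit false
universe u

namespace Pool.Agent.UTop

open Cardinal

theorem pow_lam {lam : Cardinal.{u}} (hlam : ℵ₀ ≤ lam)
    (hpow : (2 : Cardinal.{u}) ^ lam = Order.succ lam) : Order.succ lam ^ lam = Order.succ lam := by
  rw [← hpow, ← power_mul, mul_eq_self hlam]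

/-- the shapes of the closing-off operations -/
private abbrev DsA (R T I : Type u) : Type u := T × Set I × (I → Option R) × (I → I)

/-- the condition on the chosen element -/
private def DsP {Z J R T I : Type u} (dm : Z → Set J) (v : Z → J → R) (tp : Z → T)
    (g : ∀ z, dm z ↪ I) (a : DsA R T I) (ch : a.2.1 → Z) (z : Z) : Prop :=
  tp z = a.1 ∧ ∀ (i : a.2.1) (x : dm (ch i)), g (ch i) x = a.2.2.2 i → a.2.2.1 i = some (v z x)

open Classical in
/-- the value of a node -/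
private noncomputable def DsF {Z J R T I : Type u} (dm : Z → Set J) (v : Z → J → R) (tp : Z → T)
    (g : ∀ z, dm z ↪ I) (D : Set Z) (z0 : Z) (p : Σ a : DsA R T I, (a.2.1 → Z)) : Z :=
  if h : ∃ z ∈ D, DsP dm v tp g p.1 p.2 z then h.choose else z0

private theorem DsF_mem {Z J R T I : Type u} (dm : Z → Set J) (v : Z → J → R) (tp : Z → T)
    (g : ∀ z, dm z ↪ I) (D : Set Z) (z0 : Z) (h0 : z0 ∈ D) (p : Σ a : DsA R T I, (a.2.1 → Z)) :
    DsF dm v tp g D z0 p ∈ D := by
  classical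
  unfold DsF
  split_ifs with h
  · exact h.choose_spec.1
  · exact h0

private theorem DsF_spec {Z J R T I : Type u} (dm : Z → Set J) (v : Z → J → R) (tp : Z → T)
    (g : ∀ z, dm z ↪ I) (D : Set Z) (z0 : Z) (p : Σ a : DsA R T I, (a.2.1 → Z)) {z : Z}
    (hz : z ∈ D) (hp : DsP dm v tp g p.1 p.2 z) :
    DsP dm v tp g p.1 p.2 (DsF dm v tp g D z0 p) := by
  classical
  have h : ∃ z ∈ D, DsP dm v tp g p.1 p.2 z := ⟨z, hz, hp⟩
  unfold DsF
  rw [dif_pos h]
  exact h.choose_spec.2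

theorem ds {Z J R T : Type u} {lam : Cardinal.{u}} (hlam : ℵ₀ ≤ lam)
    (hpow : (2 : Cardinal.{u}) ^ lam = Order.succ lam) (dm : Z → Set J) (hd : ∀ z, #(dm z) ≤ lam)
    (v : Z → J → R) (tp : Z → T) (hR : #R ≤ Order.succ lam) (hT : #T ≤ Order.succ lam)
    (D : Set Z) : ∃ D0 ⊆ D, #D0 ≤ Order.succ lam ∧ ∀ d ∈ D, ∃ d0 ∈ D0, tp d = tp d0 ∧
      ∀ i ∈ dm d, i ∈ dm d0 → v d i = v d0 i := by
  classical
  rcases D.eq_empty_or_nonempty with rfl | ⟨z0, hz0⟩
  · exact ⟨∅, subset_rfl, by simp, fun d hd => absurd hd (Set.notMem_empty d)⟩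
  let I : Type u := lam.out
  have hI : #I = lam := mk_out lam
  have hg : ∀ z, Nonempty (dm z ↪ I) := fun z => by
    have h1 : #(dm z) ≤ #I := by rw [hI]; exact hd z
    exact h1
  let g : ∀ z, dm z ↪ I := fun z => (hg z).some
  let β : DsA R T I → Type u := fun a => a.2.1
  let F : (Σ a : DsA R T I, (β a → Z)) → Z := DsF dm v tp g D z0
  let E : WType β → Z := WType.elim Z F
  have hE : ∀ a (f : β a → WType β), E (WType.mk a f) = F ⟨a, fun b => E (f b)⟩ := fun a f => rfl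
  have hED : ∀ w, E w ∈ D := by
    intro w
    cases w with
    | mk a f =>
      rw [hE]
      exact DsF_mem dm v tp g D z0 hz0 _
  have hsucc : ℵ₀ ≤ Order.succ lam := hlam.trans (Order.le_succ lam)
  have hne : Order.succ lam ≠ 0 := (aleph0_pos.trans_le hsucc).ne'
  have hpl := pow_lam hlam hpow
  have hA : #(DsA R T I) ≤ Order.succ lam := by
    have h1 : #(DsA R T I) = #T * (2 ^ #I * ((#R + 1) ^ #I * #I ^ #I)) := by
      simp [DsA]
    rw [h1, hI]
    have hR' : #R + 1 ≤ Order.succ lam :=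
      (add_le_add hR (one_le_aleph0.trans hsucc)).trans (add_eq_self hsucc).le
    have h2 : (2 : Cardinal.{u}) ^ lam ≤ Order.succ lam := hpow.le
    have h3 : (#R + 1) ^ lam ≤ Order.succ lam := (power_le_power_right hR').trans hpl.le
    have h4 : lam ^ lam ≤ Order.succ lam := (power_le_power_right (Order.le_succ lam)).trans hpl.le
    calc #T * (2 ^ lam * ((#R + 1) ^ lam * lam ^ lam))
        ≤ Order.succ lam * (Order.succ lam * (Order.succ lam * Order.succ lam)) :=
          mul_le_mul' hT (mul_le_mul' h2 (mul_le_mul' h3 h4))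
      _ = Order.succ lam := by rw [mul_eq_self hsucc, mul_eq_self hsucc, mul_eq_self hsucc]
  have hW : #(WType β) ≤ Order.succ lam := by
    apply WType.cardinalMk_le_of_le
    have h1 : ∀ a : DsA R T I, Order.succ lam ^ #(β a) ≤ Order.succ lam := by
      intro a
      have h2 : #(β a) ≤ lam := by
        have h3 : #(β a) ≤ #I := mk_set_le a.2.1
        rwa [hI] at h3
      exact (power_le_power_left hne h2).trans hpl.le
    calc (sum fun a : DsA R T I => Order.succ lam ^ #(β a))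
        ≤ sum fun _ : DsA R T I => Order.succ lam := sum_le_sum _ _ h1
      _ = #(DsA R T I) * Order.succ lam := by rw [sum_const']
      _ ≤ Order.succ lam * Order.succ lam := mul_le_mul' hA le_rfl
      _ = Order.succ lam := mul_eq_self hsucc
  refine ⟨Set.range E, ?_, mk_range_le.trans hW, ?_⟩
  · rintro _ ⟨w, rfl⟩
    exact hED w
  · intro d hdD
    -- the elements of `dm d` covered by `D0`
    let c : Set (dm d) := {x | ∃ w, (x : J) ∈ dm (E w)}
    have hc : ∀ x : c, ∃ w, ((x : dm d) : J) ∈ dm (E w) := fun x => x.2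
    choose wt hwt using hc
    let S : Set I := Set.range (fun x : c => g d x)
    have hS : ∀ i : S, ∃ x : c, g d x = i := fun i => i.2
    choose X hX using hS
    let a : DsA R T I := (tp d, S,
      (fun i => if h : i ∈ S then some (v d (X ⟨i, h⟩ : dm d)) else none),
      fun i => if h : i ∈ S then g (E (wt (X ⟨i, h⟩))) ⟨_, hwt (X ⟨i, h⟩)⟩ else i)
    let f : β a → WType β := fun i => wt (X i)
    have hP : DsP dm v tp g a (fun b : β a => E (f b)) d := by
      refine ⟨rfl, ?_⟩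
      rintro ⟨i, hi⟩ x hx
      have h1 : a.2.2.2 i = g (E (wt (X ⟨i, hi⟩))) ⟨_, hwt (X ⟨i, hi⟩)⟩ := dif_pos hi
      have h2 : a.2.2.1 i = some (v d (X ⟨i, hi⟩ : dm d)) := dif_pos hi
      have h3 : x = ⟨_, hwt (X ⟨i, hi⟩)⟩ := (g _).injective (hx.trans h1)
      rw [h2, h3]
    have hQ := DsF_spec dm v tp g D z0 ⟨a, fun b : β a => E (f b)⟩ hdD hP
    refine ⟨E (WType.mk a f), ⟨_, rfl⟩, hQ.1.symm, ?_⟩
    intro i hi hi0
    have hic : (⟨i, hi⟩ : dm d) ∈ c := ⟨WType.mk a f, hi0⟩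
    have hiS : g d ⟨i, hi⟩ ∈ S := ⟨⟨⟨i, hi⟩, hic⟩, rfl⟩
    have h1 : (X ⟨_, hiS⟩ : dm d) = ⟨i, hi⟩ := (g d).injective (hX ⟨_, hiS⟩)
    have h2 : a.2.2.2 (g d ⟨i, hi⟩) = g (E (wt (X ⟨_, hiS⟩))) ⟨_, hwt (X ⟨_, hiS⟩)⟩ := dif_pos hiS
    have h3 : a.2.2.1 (g d ⟨i, hi⟩) = some (v d (X ⟨_, hiS⟩ : dm d)) := dif_pos hiS
    have h4 := hQ.2 ⟨_, hiS⟩ ⟨_, hwt (X ⟨_, hiS⟩)⟩ h2.symm
    have h5 : some (v d (X ⟨_, hiS⟩ : dm d)) = some (v (E (WType.mk a f)) (X ⟨_, hiS⟩ : dm d)) :=
      h3.symm.trans h4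
    rw [h1] at h5
    exact Option.some.inj h5

end Pool.Agent.UTop
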