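import Pool.Agent.Lib.UTop.Tre

/-!
# Ent: all branches of a tree of conditions enter a dense set

PROOF. `T = (#U).ord.ToType` with an equivalence `k ↦ w k` to `U` (or any well order on `U`); `rec_chain` with `Z = Cn le lam K (Jt G P)`, `ok k z := Ex (pdT G P) (eT e) univ z Q ∧ Gd (pb (w k) z)`, `rel k z z' := Ex (pdT G P) (eT e) univ z' z`. Step at `k`: `cls'` (`Y = fun _ => univ`, `X0 = univ`, base `Q`) gives `r` below all `f i`, `i < k`, and `Q`.
By `tre_Ex` (`X = univ`, `Ex_mono`): `Ex (pdI G) e univ (pb (w k) r) (pb (w k) Q)`, so `Ex .. (pb (w k) r) p0`, and `h2` gives `p'` with `Ex (pdI G) e univ p' (pb (w k) r)`, `Gd p'`. `r1 = push (br (w k)) p'`, `pb (w k) r1 = p'` (`pull_push`), so `Ex (pdT G P) (eT e) (range (br (w k))) r1 r` by `tre_Ex` (`Set.image_univ`).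
`am` (`X = range (br (w k))`, `br_DC`; `Y = univ`) gives `z` with `Ex univ z r`, `Ex (range (br (w k))) z r1`; by `tre_Ex`, `Ex (pdI G) e univ (pb (w k) z) p'`, so `Gd (pb (w k) z)` by `h1`. End: `cls'` for the whole of `T`; `tre_Ex` and `h1`.
-/

set_option autoImplicit false
universe u

namespace Pool.Agent.UTop

open Cardinal Pool.Agent.PolF

variable {P K G : Type u} [LinearOrder K] [WellFoundedLT K] [LinearOrder G] [WellFoundedLT G]
  {le : P → P → Prop} {lam : Cardinal.{u}} {e : G → K × K → Set (P × Cn le lam K G)}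

theorem ent (H : TopH le K lam) (Gd : Cn le lam K G → Prop) (p0 : Cn le lam K G)
    (h1 : ∀ p p', Ex (pdI G) e Set.univ p' p → Gd p → Gd p')
    (h2 : ∀ p, Ex (pdI G) e Set.univ p p0 → ∃ p', Ex (pdI G) e Set.univ p' p ∧ Gd p')
    (U : Set (Gs G P)) (hU : #U ≤ lam) (Q : Cn le lam K (Jt G P))
    (hQ : ∀ w ∈ U, Ex (pdI G) e Set.univ (pb w Q) p0) :
    ∃ Q' : Cn le lam K (Jt G P), Ex (pdT G P) (eT e) Set.univ Q' Q ∧ ∀ w ∈ U, Gd (pb w Q') := by
  have hD1 : DC (pdT G P) (Set.univ : Set (Jt G P)) := fun _ _ => Set.subset_univ _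
  have hD2 : DC (pdI G) (Set.univ : Set G) := fun _ _ => Set.subset_univ _
  have : Nonempty (Cn le lam K (Jt G P)) := ⟨Q⟩
  have htre : ∀ (w : Gs G P) {q p : Cn le lam K (Jt G P)},
      Ex (pdT G P) (eT e) Set.univ q p → Ex (pdI G) e Set.univ (pb w q) (pb w p) :=
    fun w q p h => (tre_Ex H w Set.univ q p).1 (Ex_mono (Set.subset_univ _) h)
  obtain ⟨f, hf1, hf2⟩ := rec_chain (T := ↥U) (Z := Cn le lam K (Jt G P))
    (fun k z => Ex (pdT G P) (eT e) Set.univ z Q ∧ Gd (pb k.1 z))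
    (fun _ z z' => Ex (pdT G P) (eT e) Set.univ z' z) (by
      intro k f hf hrel
      obtain ⟨r, hr1, hr2⟩ := cls' (T := {i : ↥U // i < k}) H pdT_H
        ((Cardinal.mk_subtype_le _).trans hU) (fun i => f i.1) (fun _ => Set.univ)
        (fun _ => hD1) (fun _ _ _ => subset_rfl) (fun i j hij => hrel i.1 j.1 hij j.2)
        Set.univ hD1 (fun _ => subset_rfl) Q (fun i => (hf i.1 i.2).1)
      obtain ⟨p', hp1, hp2⟩ := h2 (pb k.1 r)
        (Ex_trans H pdI_H hD2 (htre k.1 hr2) (hQ k.1 k.2))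
      have hpp : pb k.1 (push (br k.1) p') = p' := pull_push _ _ _
      have hr3 : Ex (pdT G P) (eT e) (Set.range (br k.1)) (push (br k.1) p') r := by
        rw [← Set.image_univ]
        refine (tre_Ex H k.1 Set.univ _ _).2 ?_
        rw [hpp]
        exact hp1
      obtain ⟨z, hz1, hz2⟩ := am H pdT_H (br_DC k.1) hD1 (Set.subset_univ _) _ _ hr3
      have hz3 : Ex (pdI G) e Set.univ (pb k.1 z) p' := by
        rw [← Set.image_univ] at hz2
        have h4 := (tre_Ex H k.1 Set.univ _ _).1 hz2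
        rw [hpp] at h4
        exact h4
      exact ⟨z, ⟨Ex_trans H pdT_H hD1 hz1 hr2, h1 p' _ hz3 hp2⟩,
        fun i hi => Ex_trans H pdT_H hD1 hz1 (hr1 ⟨i, hi⟩)⟩)
  obtain ⟨r, hr1, hr2⟩ := cls' (T := ↥U) H pdT_H hU f (fun _ => Set.univ)
    (fun _ => hD1) (fun _ _ _ => subset_rfl) (fun i j hij => hf2 i j hij)
    Set.univ hD1 (fun _ => subset_rfl) Q (fun i => (hf1 i).1)
  exact ⟨r, hr2, fun w hw => h1 _ _ (htre w (hr1 ⟨w, hw⟩)) (hf1 ⟨w, hw⟩).2⟩

end Pool.Agent.UTop
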