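import Pool.Agent.Lib.UTop.Brl

/-!
# FnS: the final recursion, one coordinate

Notation: `l n = (Q n).h`, `Lg = Lx (pdI G) e (Iio g)`.

PROOF. `dec` for `X = Z = Iio g` (`AM` is trivial), the name `e g`, `Y0 = {(δ, l n) | n}`, gives `r1` with `Ex (Iio g) r1 r`, and `c n = rs (pdI G) e (Iio g) (e g) r1 (δ, l n) : Set P`. `w'.v g' m = w.v g' m` if `g' ≠ g`; `w'.v g m = c m` if `g ∈ A m`, else `∅` (`w.v g m = ∅` by `hw1`). Then `tn n w' ∈ Ug P A n` for all `n`. `p n = pb (tn n w') (Q n)`. For `g' < g`: `br (tn n w') g' = br (tn n w) g'`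
(`cut g' (tn n w') = cut g' (tn n w)`), so `Lq (Iio g) (pb (tn n w) (Q n)) (p n) t` by `agr`. `f0 ξ = ⋃ n, (p n).F g ξ`. `stp` with `Z = Iio g = pdI G g` (`AM` trivial), `r = r1`, `h0 = δ` (`δ < r0.h ≤ r1.h`) gives `r'`: `Ex (Iio g) r' r1`, `g ∈ r'.sp`, `r'.F g ξ = f0 ξ` for `ξ < δ`, and `Ob g t r' δ' a` if `δ < δ'`, `Mem le r'.s (δ', a) t`.
(1) `Lq (Iio g) r' (p n) t` for all `n`, `t` (`Lq_trans`: `r'`, `r1`, `r`, `pb (tn n w) (Q n)`, `p n`). (2) For `δ' ≤ δ`: `Mem le r'.s (δ', a) t ↔ Mem le r0.s (δ', a) t` (`Ex ∅ r' r0`, `δ < r0.h`). It remains: for all `n`, `t`, if `g ∈ (p n).sp` then `Cq g r' (p n) t`. Second clause: `ξ < l n < δ`: `r'.F g ξ = f0 ξ`, `brl_F`. Third clause: `l n < δ'`, `le t' t`, `Mem le r'.s (δ', a) t'`.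
CASE `δ < δ'`: `stp`. CASE `δ' = δ`: `a = l` by (2) and `hr2`. `hT.cov` gives `m0` with `g ∈ A m` for `m ≥ m0`; let `m1 = max m0 n`. For `m ≥ m1`: `g ∈ (p m).sp` (`brl_ex`, first clause of `Cq`), so `Mem le (r'.F g) (l m) t1 ↔ Mem le ((p (m+1)).F g) (l m) t1` (`brl_F` for `m+1`, `l m < l (m+1)`, `g ∈ (p (m+1)).sp`) `↔ Mem le (fun _ => w'.v g m) (l m) t1` (`hT.val` for `tn (m+1) w'`, `tn m (tn (m+1) w') = tn m w'`,
`(tn (m+1) w').v g m = w'.v g m = c m`) `↔ Mem Lg (e g) (δ, l m) (t1, q1)` for every `(t1, q1) ≤ (t', r')` in `Lg` (`dnm` with `Lq (Iio g) q1 r1 t1`; unfold `Mem`, `rs`: the sets are equal). So `Ob_iff` holds with `z2 = z1` and the bound `l m1` (`l m1 < l m → m1 < m`).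
CASE `δ' < δ`: some `m` has `δ' < l m` (`hδ`); `n ≤ m` because `l n < δ' < l m`. `Mem le r0.s (δ', a) t'`, so `Mem le (Q m).s (δ', a) t'` (`hr1`), and `Ob g t' (p m) δ' a` by the third clause of `Cq g (p m) (p n)` (`brl_ex`). `Ob_congr` to `r'`: (1) for `m`; for all `k`, `a k < δ' < l m` (`mem_sel`), `Mem le (r'.F g) (a k) t1 ↔ Mem le ((p m).F g) (a k) t1` by `brl_F`.
-/

set_option autoImplicit false
universe u

namespace Pool.Agent.UTop

open Cardinal Pool.Agent.PolF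

variable {P K G : Type u} [LinearOrder K] [WellFoundedLT K] [LinearOrder G] [WellFoundedLT G]
  {le : P → P → Prop} {lam : Cardinal.{u}} {e : G → K × K → Set (P × Cn le lam K G)}
  {C : K → Set (P × Cn le lam K G)} {t0 : P} {p0 : Cn le lam K G}
  {Q : ℕ → Cn le lam K (Jt G P)} {A : ℕ → Set G}

private theorem fns_AM (H : TopH le K lam) (X : Set G) : AM (pdI G) e X X :=
  fun q _ h => ⟨q, h, Ex_refl H X q⟩

private theorem fns_card (H : TopH le K lam) {α : Type u} (f : ℕ → α) :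
    #(Set.range f) ≤ lam := by
  refine le_trans ?_ H.inf.le
  exact (Set.countable_range f).le_aleph0

private theorem tn_tn (n : ℕ) (w : Gs G P) : tn n (tn (n + 1) w) = tn n w := by
  refine Gs_ext fun g m => ?_
  unfold tn
  by_cases hm : m < n
  · simp only [hm, if_true, if_pos (hm.trans (Nat.lt_succ_self n))]
  · simp only [hm, if_false]

open Classical in
/-- the new guess -/
private noncomputable def nw (A : ℕ → Set G) (g : G) (c : ℕ → Set P) (w : Gs G P) : Gs G P :=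
  ⟨fun g' m => if g' = g then (if g ∈ A m then c m else ∅) else w.v g' m⟩

private theorem nw_ne {A : ℕ → Set G} {g : G} {c : ℕ → Set P} {w : Gs G P} {g' : G} (h : g' < g)
    (m : ℕ) : (nw A g c w).v g' m = w.v g' m := by
  unfold nw
  simp only [if_neg h.ne]

private theorem nw_eq {A : ℕ → Set G} {g : G} {c : ℕ → Set P} {w : Gs G P} {m : ℕ} (h : g ∈ A m) :
    (nw A g c w).v g m = c m := by
  unfold nw
  simp only [if_true, if_pos h]

private theorem nw_mem {A : ℕ → Set G} {g : G} {c : ℕ → Set P} {w : Gs G P}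
    (hw1 : ∀ g' m, (w.v g' m).Nonempty → g' < g ∧ g' ∈ A m) (g' : G) (m : ℕ)
    (h : ((nw A g c w).v g' m).Nonempty) : g' ≤ g ∧ g' ∈ A m := by
  unfold nw at h
  by_cases h1 : g' = g
  · subst h1
    refine ⟨le_rfl, ?_⟩
    by_contra h2
    simp only [if_true, if_neg h2] at h
    exact Set.not_nonempty_empty h
  · simp only [if_neg h1] at h
    exact ⟨(hw1 g' m h).1.le, (hw1 g' m h).2⟩

private theorem nw_Ug {A : ℕ → Set G} {g : G} {c : ℕ → Set P} {w : Gs G P}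
    (hw1 : ∀ g' m, (w.v g' m).Nonempty → g' < g ∧ g' ∈ A m) (n : ℕ) :
    tn n (nw A g c w) ∈ Ug P A n := by
  intro g' m h
  unfold tn at h
  by_cases hm : m < n
  · simp only [if_pos hm] at h
    exact ⟨hm, (nw_mem hw1 g' m h).2⟩
  · simp only [if_neg hm] at h
    exact absurd h Set.not_nonempty_empty

private theorem nw_br {A : ℕ → Set G} {g : G} {c : ℕ → Set P} {w : Gs G P} {g' : G} (h : g' < g)
    (n : ℕ) : br (tn n (nw A g c w)) g' = br (tn n w) g' := by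
  have h1 : cut g' (tn n (nw A g c w)) = cut g' (tn n w) := by
    refine Gs_ext fun x m => ?_
    unfold cut
    by_cases hx : x ≤ g'
    · simp only [if_pos hx]
      unfold tn
      by_cases hm : m < n
      · simp only [if_pos hm]
        exact nw_ne (hx.trans_lt h) m
      · simp only [if_neg hm]
    · simp only [if_neg hx]
  unfold br
  rw [h1]

private theorem Mem_val {X Y : Type u} {A : X → Set P} {B : Y → Set P} {x : X} {y : Y}
    (h : A x = B y) (t : P) : Mem le A x t ↔ Mem le B y t := by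
  unfold Mem
  rw [h]

theorem fns (H : TopH le K lam) (hT : TrS e C t0 p0 Q A) {δ : K} {r0 : Cn le lam K G}
    (hδ : Lim (fun n => (Q n).h) δ) (hr0 : δ < r0.h)
    (hr1 : ∀ n, ∀ x ≤ (Q n).h, ∀ a t, Mem le r0.s (x, a) t ↔ Mem le (Q n).s (x, a) t)
    (hr2 : ∀ a t, Mem le r0.s (δ, a) t ↔ a = fun n => (Q n).h)
    (g : G) (r : Cn le lam K G) (w : Gs G P) (hw0 : Ex (pdI G) e ∅ r r0)
    (hw1 : ∀ g' m, (w.v g' m).Nonempty → g' < g ∧ g' ∈ A m)
    (hw2 : ∀ n t, Lq (pdI G) e (Set.Iio g) r (pb (tn n w) (Q n)) t) :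
    ∃ (r' : Cn le lam K G) (w' : Gs G P), Ex (pdI G) e (Set.Iio g) r' r ∧
      (∀ g' < g, ∀ m, w'.v g' m = w.v g' m) ∧
      (∀ g' m, (w'.v g' m).Nonempty → g' ≤ g ∧ g' ∈ A m) ∧
      ∀ n t, Lq (pdI G) e (Set.Iic g) r' (pb (tn n w') (Q n)) t := by
  have hpd : PdH (pdI G) := pdI_H
  have hDC : DC (pdI G) (Set.Iio g) := pdI_DC g
  have hDe : DC (pdI G) (∅ : Set G) := fun i hi => absurd hi (Set.notMem_empty i)
  obtain ⟨r1, hr1r, hdec⟩ := dec H hpd (X := Set.Iio g) (Z := Set.Iio g) hDC hDC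
    (Set.Subset.refl _) (fns_AM H _) (e g) (Set.range fun n => (δ, (Q n).h)) (fns_card H _) r
  let c : ℕ → Set P := fun n => rs (pdI G) e (Set.Iio g) (e g) r1 (δ, (Q n).h)
  let w' : Gs G P := nw A g c w
  have hU : ∀ n, tn n w' ∈ Ug P A n := fun n => nw_Ug hw1 n
  let f0 : K → Set P := fun x => ⋃ m, (pb (tn m w') (Q m)).F g x
  have hrr0 : Ex (pdI G) e ∅ r1 r0 := Ex_trans H hpd hDe (Ex_mono (Set.empty_subset _) hr1r) hw0
  have hδr1 : δ ≤ r1.h := hr0.le.trans (hrr0.1 t0).1.1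
  obtain ⟨r', hr'1, hgr', hF', hOb'⟩ := stp H hpd (Z := Set.Iio g) hDC (g := g)
    (lt_irrefl g) (Set.Subset.refl _) (fns_AM H _) r1 δ hδr1 f0
  have hr'r : Ex (pdI G) e (Set.Iio g) r' r := Ex_trans H hpd hDC hr'1 hr1r
  have hagr : ∀ n t, Lq (pdI G) e (Set.Iio g) (pb (tn n w) (Q n)) (pb (tn n w') (Q n)) t := by
    intro n t
    refine agr (p := pb (tn n w') (Q n)) (q := pb (tn n w) (Q n)) H rfl rfl (fun g' hg' => ?_) t
    have hb : br (tn n w') g' = br (tn n w) g' := nw_br hg' n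
    constructor
    · intro h
      change br (tn n w) g' ∈ (Q n).sp
      rw [← hb]
      exact h
    · change (Q n).F (br (tn n w) g') = (Q n).F (br (tn n w') g')
      rw [hb]
  have hL : ∀ n t, Lq (pdI G) e (Set.Iio g) r' (pb (tn n w') (Q n)) t := fun n t =>
    Lq_trans H hpd hDC (Lq_trans H hpd hDC (hr'r.1 t) (hw2 n t)) (hagr n t)
  have hr'0 : Ex (pdI G) e ∅ r' r0 := Ex_trans H hpd hDe (Ex_mono (Set.empty_subset _) hr'r) hw0
  have hs2 : ∀ δ' ≤ δ, ∀ a t, Mem le r'.s (δ', a) t ↔ Mem le r0.s (δ', a) t :=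
    fun δ' hδ' a t => (hr'0.1 t).1.2 δ' (hδ'.trans hr0.le) a t (H.rf t)
  have hln : ∀ n, (Q n).h < δ := hδ.1
  have hmono : StrictMono fun n => (Q n).h := strictMono_nat_of_lt_succ hT.lt
  have hval : ∀ n, g ∈ (pb (tn n w') (Q n)).sp → ∀ ξ < (Q n).h, ∀ t,
      Mem le (r'.F g) ξ t ↔ Mem le ((pb (tn n w') (Q n)).F g) ξ t := by
    intro n hg ξ hξ t
    rw [Mem_val (A := r'.F g) (B := f0) (x := ξ) (y := ξ) (hF' ξ (hξ.trans (hln n)))]
    exact brl_F H hT hU hg hξ t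
  refine ⟨r', w', hr'r, fun g' hg' m => nw_ne hg' m, fun g' m h => nw_mem hw1 g' m h, ?_⟩
  intro n t
  refine ⟨(hL n t).1, fun i hi hip => ?_⟩
  rcases lt_or_eq_of_le (show i ≤ g from hi) with hig | rfl
  · exact (hL n t).2 i hig hip
  have hup : ∀ m, n ≤ m → i ∈ (pb (tn m w') (Q m)).sp := fun m hm =>
    (((brl_ex H hT hU hm).1 t).2 i trivial hip).1
  refine ⟨hgr', fun ξ hξ s _ => hval n hip ξ hξ s, ?_⟩
  intro δ' a hδ' t' ht' hm
  rcases lt_trichotomy δ' δ with hlt | heq | hgt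
  · obtain ⟨m, hm'⟩ := hδ.2 δ' hlt
    have hnm : n ≤ m := (hmono.lt_iff_lt.1 (lt_trans hδ' hm')).le
    have h1 : Mem le (Q m).s (δ', a) t' := (hr1 m δ' (le_of_lt hm') a t').1 ((hs2 δ' hlt.le a t').1 hm)
    have h2 : Ob (pdI G) e i t' (pb (tn m w') (Q m)) δ' a :=
      (((brl_ex H hT hU hnm).1 t').2 i trivial hip).2.2 δ' a hδ' t' (H.rf _) h1
    refine Ob_congr H hpd (hL m t') (fun k s _ => ?_) h2
    exact hval m (hup m hnm) (a k) (lt_trans ((mem_sel H hm).2.1.1 k) hm') s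
  · subst heq
    have ha : a = fun n => (Q n).h := (hr2 a t').1 ((hs2 δ' le_rfl a t').1 hm)
    obtain ⟨m0, hm0⟩ := hT.cov n (br (tn n w') i) hip
    have hkey : ∀ m, max m0 n ≤ m → ∀ z, Lx (pdI G) e (Set.Iio i) z (t', r') →
        (Mem le (r'.F i) (Q m).h z.1 ↔ Mem (Lx (pdI G) e (Set.Iio i)) (e i) (δ', (Q m).h) z) := by
      intro m hmm z hz
      have hiA : i ∈ A m := hm0 m ((le_max_left _ _).trans hmm)
      have hnm : n ≤ m := (le_max_right _ _).trans hmm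
      have e1 := hval (m + 1) (hup (m + 1) (hnm.trans (Nat.le_succ m))) (Q m).h (hT.lt m) z.1
      have e2 := hT.val m (tn (m + 1) w') (hU (m + 1)) i hiA (by
        rw [tn_tn]
        exact hup m hnm) z.1
      have e3 : (tn (m + 1) w').v i m = c m := by
        have : (tn (m + 1) w').v i m = w'.v i m := by
          unfold tn
          simp only [if_pos (Nat.lt_succ_self m)]
        rw [this]
        exact nw_eq hiA
      rw [e1, e2, Mem_val (A := fun _ : K => (tn (m + 1) w').v i m)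
        (B := rs (pdI G) e (Set.Iio i) (e i) r1) (x := (Q m).h) (y := (δ', (Q m).h)) e3]
      exact (dnm H hpd hDC (hdec _ ⟨m, rfl⟩) (Lq_trans H hpd hDC hz.2 (hr'1.1 _))).symm
    rw [Ob_iff hpd]
    intro z1 hz1
    refine ⟨z1, Lx_refl H _ _, ⟨(Q (max m0 n)).h, hln _⟩, fun m hmm z hz => ?_⟩
    rw [ha] at hmm ⊢
    exact hkey m (hmono.lt_iff_lt.1 hmm).le z (Lx_trans H hpd _ hDC _ _ _ hz hz1)
  · exact hOb' δ' a t' hgt hm

end Pool.Agent.UTop
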