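import Pool.Agent.Lib.UTop.FnS

/-!
# Fnl: the final recursion

PROOF. `W = {g | ∃ n, ∃ j ∈ (Q n).sp, j.g = g}`, `#W ≤ lam`; `T = W` as a subtype with the order of `G`. `rec_chain` with `Z = Cn le lam K G × Gs G P`, `ok g (r, w) := Ex ∅ r r0 ∧ (∀ g' m, (w.v g' m).Nonempty → g' ≤ g ∧ g' ∈ A m ∧ g' ∈ W) ∧ ∀ n t, Lq (Iic g) r (pb (tn n w) (Q n)) t`, `rel i (r, w) (r', w') := Ex (Iic i) r' r ∧ ∀ g' ≤ i, ∀ m, w'.v g' m = w.v g' m`.
CLAIM. Let `S` be an initial segment of `G` (used for `S = Iio g` and `S = univ`), `f : T → Z` with `ok i (f i)` for `i ∈ S` and `rel i (f i) (f j)` for `i < j`, `i, j ∈ S`. Let `w.v g' m = (f g').2.v g' m` if `g' ∈ S ∩ W`, else `∅`, and `r` with `Ex ∅ r r0`, `Ex (Iic i) r (f i).1` for all `i ∈ T ∩ S`. Then: (a) for `i ∈ T ∩ S`, `g' ≤ i`: `w.v g' m = (f i).2.v g' m` (for `g' ∈ W` by `rel`;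
for `g' ∉ W` both are `∅`), so `br (tn n w) i = br (tn n (f i).2) i`; (b) `∀ n t, Lq S r (pb (tn n w) (Q n)) t`: `Bq`: `(Q n).h < δ < r0.h ≤ r.h`, `hr1` and `Bq r r0 t`. A coordinate `i ∈ S` of `pb (tn n w) (Q n)` has `br (tn n w) i ∈ (Q n).sp`, so `i ∈ W`; by (a) `i` is a coordinate of `p' = pb (tn n (f i).2) (Q n)` with the same `F i`, and `ok i` gives `Cq i (f i).1 p' t`; `Cq_trans` with `Ex (Iic i) r (f i).1`
(`pdI G i = Iio i ⊆ Iic i`; `hb` is the `Bq` part of `ok i`); `Cq` depends on `p'` only through `p'.h` and `p'.F i`. (c) `∀ g' m, (w.v g' m).Nonempty → g' ∈ S ∧ g' ∈ A m ∧ g' ∈ W`.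
Step at `g`: `cls'` for `{i : T // i < g}`, `Y i = Iic i`, `X0 = ∅`, base `r0`; CLAIM for `S = Iio g`; `fns`; `g ∈ W` for the new value. `rel i (f i) (r', w')`: `Ex_trans`, `Iic i ⊆ Iio g`, and (a). End: `cls'` for `T`, CLAIM for `S = univ`.
-/

set_option autoImplicit false
universe u

namespace Pool.Agent.UTop

open Cardinal Pool.Agent.PolF

variable {P K G : Type u} [LinearOrder K] [WellFoundedLT K] [LinearOrder G] [WellFoundedLT G]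
  {le : P → P → Prop} {lam : Cardinal.{u}} {e : G → K × K → Set (P × Cn le lam K G)}
  {C : K → Set (P × Cn le lam K G)} {t0 : P} {p0 : Cn le lam K G}
  {Q : ℕ → Cn le lam K (Jt G P)} {A : ℕ → Set G}

private def fnlW (Q : ℕ → Cn le lam K (Jt G P)) : Set G := {g | ∃ n, ∃ j ∈ (Q n).sp, j.g = g}

omit [WellFoundedLT K] [LinearOrder G] [WellFoundedLT G] in
private theorem fnlW_card (H : TopH le K lam) (Q : ℕ → Cn le lam K (Jt G P)) :
    #(fnlW Q) ≤ lam := by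
  have h1 : fnlW Q ⊆ ⋃ n : ULift.{u} ℕ, Jt.g '' (Q n.down).sp := by
    rintro g ⟨n, j, hj, rfl⟩
    exact Set.mem_iUnion.2 ⟨⟨n⟩, j, hj, rfl⟩
  refine (Cardinal.mk_le_mk_of_subset h1).trans ((Cardinal.mk_iUnion_le _).trans ?_)
  have h2 : (⨆ n : ULift.{u} ℕ, #(Jt.g '' (Q n.down).sp)) ≤ lam :=
    ciSup_le' fun n => Cardinal.mk_image_le.trans (Q n.down).hsp
  have h3 : #(ULift.{u} ℕ) ≤ lam := by
    rw [Cardinal.mk_uLift, Cardinal.mk_nat, Cardinal.lift_aleph0]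
    exact H.inf.le
  calc #(ULift.{u} ℕ) * (⨆ n : ULift.{u} ℕ, #(Jt.g '' (Q n.down).sp)) ≤ lam * lam :=
        mul_le_mul' h3 h2
    _ = lam := Cardinal.mul_eq_self H.inf.le

private def fnlOk (e : G → K × K → Set (P × Cn le lam K G)) (Q : ℕ → Cn le lam K (Jt G P))
    (A : ℕ → Set G) (r0 : Cn le lam K G) (g : G) (z : Cn le lam K G × Gs G P) : Prop :=
  Ex (pdI G) e ∅ z.1 r0 ∧ (∀ g' m, (z.2.v g' m).Nonempty → g' ≤ g ∧ g' ∈ A m ∧ g' ∈ fnlW Q) ∧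
    ∀ n t, Lq (pdI G) e (Set.Iic g) z.1 (pb (tn n z.2) (Q n)) t

private def fnlRel (e : G → K × K → Set (P × Cn le lam K G)) (i : G)
    (z z' : Cn le lam K G × Gs G P) : Prop :=
  Ex (pdI G) e (Set.Iic i) z'.1 z.1 ∧ ∀ g' ≤ i, ∀ m, z'.2.v g' m = z.2.v g' m

open Classical in
private noncomputable def fnlG (Q : ℕ → Cn le lam K (Jt G P)) (S : Set G)
    (f : ↥(fnlW Q) → Cn le lam K G × Gs G P) : Gs G P :=
  ⟨fun g' m => if h : g' ∈ S ∧ g' ∈ fnlW Q then (f ⟨g', h.2⟩).2.v g' m else ∅⟩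

private theorem fnl_a {r0 : Cn le lam K G} {S : Set G} (hS : ∀ x ∈ S, ∀ y ≤ x, y ∈ S)
    {f : ↥(fnlW Q) → Cn le lam K G × Gs G P}
    (hok : ∀ i : ↥(fnlW Q), i.1 ∈ S → fnlOk e Q A r0 i.1 (f i))
    (hrel : ∀ i j : ↥(fnlW Q), i < j → j.1 ∈ S → fnlRel e i.1 (f i) (f j))
    (i : ↥(fnlW Q)) (hi : i.1 ∈ S) (g' : G) (hg' : g' ≤ i.1) (m : ℕ) :
    (fnlG Q S f).v g' m = (f i).2.v g' m := by
  unfold fnlG
  by_cases hW : g' ∈ fnlW Q
  · have h1 : g' ∈ S ∧ g' ∈ fnlW Q := ⟨hS _ hi _ hg', hW⟩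
    simp only [dif_pos h1]
    rcases hg'.eq_or_lt with h2 | h2
    · subst h2
      rfl
    · exact ((hrel ⟨g', hW⟩ i h2 hi).2 g' le_rfl m).symm
  · have h1 : ¬ (g' ∈ S ∧ g' ∈ fnlW Q) := fun h => hW h.2
    simp only [dif_neg h1]
    by_contra hne
    have h2 : ((f i).2.v g' m).Nonempty := Set.nonempty_iff_ne_empty.2 (Ne.symm hne)
    exact hW ((hok i hi).2.1 g' m h2).2.2

private theorem fnl_br {r0 : Cn le lam K G} {S : Set G} (hS : ∀ x ∈ S, ∀ y ≤ x, y ∈ S)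
    {f : ↥(fnlW Q) → Cn le lam K G × Gs G P}
    (hok : ∀ i : ↥(fnlW Q), i.1 ∈ S → fnlOk e Q A r0 i.1 (f i))
    (hrel : ∀ i j : ↥(fnlW Q), i < j → j.1 ∈ S → fnlRel e i.1 (f i) (f j))
    (i : ↥(fnlW Q)) (hi : i.1 ∈ S) (n : ℕ) :
    br (tn n (fnlG Q S f)) i.1 = br (tn n (f i).2) i.1 := by
  unfold br
  congr 1
  refine Gs_ext fun g m => ?_
  unfold cut tn
  by_cases hg : g ≤ i.1
  · simp only [hg, if_true]
    rw [fnl_a hS hok hrel i hi g hg m]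
  · simp only [hg, if_false]

private theorem fnl_b (H : TopH le K lam) {δ : K} {r0 : Cn le lam K G}
    (hδ : Lim (fun n => (Q n).h) δ) (hr0 : δ < r0.h)
    (hr1 : ∀ n, ∀ x ≤ (Q n).h, ∀ a t, Mem le r0.s (x, a) t ↔ Mem le (Q n).s (x, a) t)
    {S : Set G} (hS : ∀ x ∈ S, ∀ y ≤ x, y ∈ S)
    {f : ↥(fnlW Q) → Cn le lam K G × Gs G P}
    (hok : ∀ i : ↥(fnlW Q), i.1 ∈ S → fnlOk e Q A r0 i.1 (f i))
    (hrel : ∀ i j : ↥(fnlW Q), i < j → j.1 ∈ S → fnlRel e i.1 (f i) (f j))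
    {r : Cn le lam K G} (hr : Ex (pdI G) e ∅ r r0)
    (hrf : ∀ i : ↥(fnlW Q), i.1 ∈ S → Ex (pdI G) e (Set.Iic i.1) r (f i).1) (n : ℕ) (t : P) :
    Lq (pdI G) e S r (pb (tn n (fnlG Q S f)) (Q n)) t := by
  have hB0 : Bq r r0 t := (hr.1 t).1
  have hh : (Q n).h ≤ r0.h := ((hδ.1 n).trans hr0).le
  refine ⟨⟨hh.trans hB0.1, fun δ' hδ' a t' ht' => ?_⟩, fun i hi hisp => ?_⟩
  · exact (hB0.2 δ' (hδ'.trans hh) a t' ht').trans (hr1 n δ' hδ' a t')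
  · have hiW : i ∈ fnlW Q := ⟨n, _, hisp, rfl⟩
    have hbr := fnl_br hS hok hrel ⟨i, hiW⟩ hi n
    have hisp' : i ∈ (pb (tn n (f ⟨i, hiW⟩).2) (Q n)).sp := by
      change br (tn n (f ⟨i, hiW⟩).2) i ∈ (Q n).sp
      rw [← hbr]
      exact hisp
    have h1 := (hok ⟨i, hiW⟩ hi).2.2 n t
    have h2 := hrf ⟨i, hiW⟩ hi
    have h3 := h1.2 i (Set.mem_Iic.2 le_rfl) hisp'
    have h4 := (h2.1 t).2 i (Set.mem_Iic.2 le_rfl) h3.1
    have h5 := Cq_trans H pdI_H h1.1 (Lq_mono (Set.Iio_subset_Iic_self) (h2.1 t)) h4 h3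
    have hF : (pb (tn n (f ⟨i, hiW⟩).2) (Q n)).F i = (pb (tn n (fnlG Q S f)) (Q n)).F i := by
      change (Q n).F (br (tn n (f ⟨i, hiW⟩).2) i) = (Q n).F (br (tn n (fnlG Q S f)) i)
      rw [hbr]
    refine ⟨h5.1, fun ξ hξ => ?_, h5.2.2⟩
    have h6 := h5.2.1 ξ hξ
    rw [hF] at h6
    exact h6

private theorem fnl_c {r0 : Cn le lam K G} {S : Set G}
    {f : ↥(fnlW Q) → Cn le lam K G × Gs G P}
    (hok : ∀ i : ↥(fnlW Q), i.1 ∈ S → fnlOk e Q A r0 i.1 (f i)) (g' : G) (m : ℕ)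
    (h : ((fnlG Q S f).v g' m).Nonempty) : g' ∈ S ∧ g' ∈ A m ∧ g' ∈ fnlW Q := by
  unfold fnlG at h
  by_cases h1 : g' ∈ S ∧ g' ∈ fnlW Q
  · simp only [dif_pos h1] at h
    exact ⟨h1.1, ((hok ⟨g', h1.2⟩ h1.1).2.1 g' m h).2.1, h1.2⟩
  · simp only [dif_neg h1] at h
    exact absurd h Set.not_nonempty_empty

theorem fnl (H : TopH le K lam) (hT : TrS e C t0 p0 Q A) {δ : K} {r0 : Cn le lam K G}
    (hδ : Lim (fun n => (Q n).h) δ) (hr0 : δ < r0.h)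
    (hr1 : ∀ n, ∀ x ≤ (Q n).h, ∀ a t, Mem le r0.s (x, a) t ↔ Mem le (Q n).s (x, a) t)
    (hr2 : ∀ a t, Mem le r0.s (δ, a) t ↔ a = fun n => (Q n).h) :
    ∃ (r : Cn le lam K G) (w : Gs G P), Ex (pdI G) e ∅ r r0 ∧ (∀ n, tn n w ∈ Ug P A n) ∧
      ∀ n t, Lq (pdI G) e Set.univ r (pb (tn n w) (Q n)) t := by
  classical
  have hDIic : ∀ g : G, DC (pdI G) (Set.Iic g) := fun g i hi j hj =>
    (lt_of_lt_of_le hj hi).le
  have hD0 : DC (pdI G) (∅ : Set G) := fun i hi => absurd hi (Set.notMem_empty i)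
  have : Nonempty (Cn le lam K G × Gs G P) := ⟨(r0, ⟨fun _ _ => ∅⟩)⟩
  obtain ⟨f, hf1, hf2⟩ := rec_chain (T := ↥(fnlW Q)) (Z := Cn le lam K G × Gs G P)
    (fun g z => fnlOk e Q A r0 g.1 z) (fun i z z' => fnlRel e i.1 z z') (by
      intro g f hf hrel
      obtain ⟨r, hr1', hr2'⟩ := cls' (T := {i : ↥(fnlW Q) // i < g}) H (pdI_H (J := G))
        ((Cardinal.mk_subtype_le _).trans (fnlW_card H Q)) (fun i => (f i.1).1)
        (fun i => Set.Iic i.1.1) (fun i => hDIic _) (fun i j hij => Set.Iic_subset_Iic.2 hij)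
        (fun i j hij => (hrel i.1 j.1 hij j.2).1) ∅ hD0 (fun i => Set.empty_subset _) r0
        (fun i => (hf i.1 i.2).1)
      have hS : ∀ x ∈ Set.Iio g.1, ∀ y ≤ x, y ∈ Set.Iio g.1 := fun x hx y hy =>
        lt_of_le_of_lt hy hx
      have hok' : ∀ i : ↥(fnlW Q), i.1 ∈ Set.Iio g.1 → fnlOk e Q A r0 i.1 (f i) :=
        fun i hi => hf i hi
      have hrel' : ∀ i j : ↥(fnlW Q), i < j → j.1 ∈ Set.Iio g.1 → fnlRel e i.1 (f i) (f j) :=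
        fun i j hij hj => hrel i j hij hj
      have hrf : ∀ i : ↥(fnlW Q), i.1 ∈ Set.Iio g.1 →
          Ex (pdI G) e (Set.Iic i.1) r (f i).1 := fun i hi => hr1' ⟨i, hi⟩
      obtain ⟨r', w', h1, h2, h3, h4⟩ := fns H hT hδ hr0 hr1 hr2 g.1 r
        (fnlG Q (Set.Iio g.1) f) hr2'
        (fun g' m h => ⟨(fnl_c hok' g' m h).1, (fnl_c hok' g' m h).2.1⟩)
        (fun n t => fnl_b H hδ hr0 hr1 hS hok' hrel' hr2' hrf n t)
      refine ⟨(r', w'), ⟨Ex_trans H pdI_H hD0 (Ex_mono (Set.empty_subset _) h1) hr2',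
        fun g' m h => ?_, h4⟩, fun i hi => ⟨?_, fun g' hg' m => ?_⟩⟩
      · obtain ⟨h5, h6⟩ := h3 g' m h
        refine ⟨h5, h6, ?_⟩
        rcases h5.eq_or_lt with h7 | h7
        · rw [h7]
          exact g.2
        · have h8 : ((fnlG Q (Set.Iio g.1) f).v g' m).Nonempty := by
            rw [← h2 g' h7 m]
            exact h
          exact (fnl_c hok' g' m h8).2.2
      · refine Ex_trans H pdI_H (hDIic _) (Ex_mono ?_ h1) (hrf i hi)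
        intro x hx
        exact lt_of_le_of_lt hx hi
      · change w'.v g' m = (f i).2.v g' m
        rw [h2 g' (lt_of_le_of_lt hg' hi) m]
        exact fnl_a hS hok' hrel' i hi g' hg' m)
  obtain ⟨r, hr1', hr2'⟩ := cls' (T := ↥(fnlW Q)) H (pdI_H (J := G)) (fnlW_card H Q)
    (fun i => (f i).1) (fun i => Set.Iic i.1) (fun i => hDIic _)
    (fun i j hij => Set.Iic_subset_Iic.2 hij) (fun i j hij => (hf2 i j hij).1) ∅ hD0
    (fun i => Set.empty_subset _) r0 (fun i => (hf1 i).1)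
  have hok' : ∀ i : ↥(fnlW Q), i.1 ∈ (Set.univ : Set G) → fnlOk e Q A r0 i.1 (f i) :=
    fun i _ => hf1 i
  refine ⟨r, fnlG Q Set.univ f, hr2', fun n g m h => ?_, fun n t => ?_⟩
  · unfold tn at h
    by_cases hm : m < n
    · simp only [hm, if_true] at h
      exact ⟨hm, (fnl_c hok' g m h).2.1⟩
    · simp only [hm, if_false] at h
      exact absurd h Set.not_nonempty_empty
  · exact fnl_b H hδ hr0 hr1 (fun x _ y _ => Set.mem_univ y) hok' (fun i j hij _ => hf2 i j hij)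
      hr2' (fun i _ => hr1' i) n t

end Pool.Agent.UTop
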