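import Pool.Agent.Lib.UTop.Gam
import Pool.Agent.Lib.UlB.Frc

/-!
# Gc: GCH

Write `L = Lx pd e Set.univ`. `FGchI le I` is the statement of `UlB.FGch` for one `I`.

PROOF. `gc_small` (`#I ≤ lam`): let `p = (t0, p0)`; `hP` at `t0` gives `t1 ≤ t0`, `J0`, `g : J0 × I → Set P`. Answer: `q = (t1, p0)`, `J0`, `g' x = {z | Mem le g x z.1}`; (1) `Mem L g' x z ↔ Mem le g x z.1` for all `z` (as in `fN_lo`). Let `s : I → Set (P × Cn)`, `r ≤ q`. `dec` (`X = Z = univ`, `AM` trivial, `Y0 = univ`, `b = r.2`) gives `a`,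
`Ex pd e univ a r.2`, and with `s0 = rs pd e univ s a`: `Mem L s y z ↔ Mem le s0 y z.1` for all `z ≤ (r.1, a)` (`dnm`). `hP` gives `t2 ≤ r.1` and `j` with `Iff' le (Mem le s0 y) (Mem le g (j, y)) t2` for all `y`. Answer `r' = (t2, a)`, `j`.
`gc_big` (`succ lam ≤ #I`): `J0 = {c : I → Set (P × Cn) // ∀ y, #(c y) ≤ succ lam}`, `g (c, y) = c.1 y`, `q = p`; `nam0` gives for every `s` some `c` with `Mem L s y z ↔ Mem L c y z`. `#J0 ≤ succ #I`: `#(P × Cn) ≤ μ := succ (succ lam)` by `cn_card` with `G = univ` (`μ ^ lam = μ` because `μ = 2 ^ succ lam`), so there are at most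
`μ ^ (succ lam) = μ` sets of size `≤ succ lam`, and `μ ^ #I = (2 ^ succ lam) ^ #I = 2 ^ #I = succ #I` by `hI`.
-/

set_option autoImplicit false
universe u

namespace Pool.Agent.UTop

open Cardinal Pool.Agent.PolF Pool.Agent.UlB

/-- `⊩ 2 ^ #I ≤ (#I)⁺` -/
def FGchI {Q : Type u} (le : Q → Q → Prop) (I : Type u) : Prop :=
  ∀ p : Q, ∃ q, le q p ∧ ∃ (J : Type u) (g : J × I → Set Q),
    #J ≤ Order.succ #I ∧ ∀ (s : I → Set Q) (r : Q), le r q →
      ∃ r', le r' r ∧ ∃ j, ∀ y, Iff' le (Mem le s y) (Mem le g (j, y)) r'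

variable {P K J : Type u} [LinearOrder K] [WellFoundedLT K] [LinearOrder J] [WellFoundedLT J]
  {le : P → P → Prop} {lam : Cardinal.{u}} {pd : J → Set J}
  {e : J → K × K → Set (P × Cn le lam K J)}

theorem gc_small (H : TopH le K lam) (hpd : PdH pd) (I : Type u) (hI : #I ≤ lam)
    (hP : FGchI le I) : FGchI (Lx pd e Set.univ) I := by
  intro p
  obtain ⟨t1, ht1, J0, g, hJ0, hg⟩ := hP p.1
  have hLr := Lx_refl (pd := pd) (e := e) H Set.univ
  let g' : J0 × I → Set (P × Cn le lam K J) := fun x => {z | Mem le g x z.1}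
  have hg' : ∀ (x : J0 × I) (z : P × Cn le lam K J),
      Mem (Lx pd e Set.univ) g' x z ↔ Mem le g x z.1 := by
    intro x z
    constructor
    · intro h t ht
      obtain ⟨r, hr, w, hw, hrw⟩ := h (t, z.2) ⟨ht, Lq_refl H Set.univ z.2 t⟩
      have h1 : Mem le g x r.1 := Mem_down H.tr hrw.1 hw
      obtain ⟨r2, hr2, a, ha, hra⟩ := h1 r.1 (H.rf _)
      exact ⟨r2, H.tr _ _ _ hr2 hr.1, a, ha, hra⟩
    · intro h z1 hz1
      exact ⟨z1, hLr z1, z1, Mem_down H.tr hz1.1 h, hLr z1⟩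
  refine ⟨(t1, p.2), ⟨ht1, Lq_refl H Set.univ p.2 t1⟩, J0, g', hJ0, ?_⟩
  intro s r hr
  obtain ⟨a, ha, hd⟩ := dec (X := Set.univ) (Z := Set.univ) H hpd (fun _ _ => Set.subset_univ _)
    (fun _ _ => Set.subset_univ _) subset_rfl
    (fun q p h => ⟨q, h, Ex_refl H Set.univ q⟩) s (Set.univ : Set I)
    (by rw [mk_univ]; exact hI) r.2
  obtain ⟨t2, ht2, j, hj⟩ := hg (rs pd e Set.univ s a) r.1 hr.1
  refine ⟨(t2, a), ⟨ht2, ha.1 t2⟩, j, ?_⟩
  intro y z hz
  have h1 := dnm H hpd (X := Set.univ) (fun _ _ => Set.subset_univ _) (hd y (Set.mem_univ _))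
    (a1 := z.2) (t := z.1) hz.2
  rw [hg', ← hj y z.1 hz.1]
  exact h1

theorem gc_big (H : TopH le K lam) (hpd : PdH pd) (hG : GamH J lam) (I : Type u)
    (hI : Order.succ lam ≤ #I) (hI2 : (2 : Cardinal.{u}) ^ #I = Order.succ #I) :
    FGchI (Lx pd e Set.univ) I := by
  have hinf : ℵ₀ ≤ Order.succ lam := H.inf.le.trans (Order.le_succ lam)
  have hInf : ℵ₀ ≤ #I := hinf.trans hI
  have hpow : Order.succ (Order.succ lam) ^ lam = Order.succ (Order.succ lam) := by
    rw [← hG.pow, ← power_mul, mul_eq_left hinf (Order.le_succ lam)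
      (aleph0_pos.trans H.inf).ne']
  have hcn : #(Cn le lam K J) ≤ Order.succ (Order.succ lam) := by
    have h1 := cn_card (J := J) H (Order.succ (Order.succ lam)) (Order.le_succ _) hpow Set.univ
      (by rw [mk_univ, hG.crd])
    refine le_trans ?_ h1
    exact mk_le_of_injective (f := fun q : Cn le lam K J =>
      (⟨q, Set.subset_univ _⟩ : {q : Cn le lam K J // q.sp ⊆ Set.univ}))
      (fun a b h => congrArg Subtype.val h)
  have hQ : #(P × Cn le lam K J) ≤ Order.succ (Order.succ lam) := by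
    rw [mk_prod, lift_id, lift_id]
    exact mul_le_of_le (hinf.trans (Order.le_succ _))
      (H.hP.le.trans ((Order.le_succ lam).trans (Order.le_succ _))) hcn
  intro p
  refine ⟨p, Lx_refl H Set.univ p,
    {c : I → Set (P × Cn le lam K J) // ∀ y, #(c y) ≤ Order.succ lam},
    fun x => x.1.1 x.2, ?_, ?_⟩
  · have h1 : #{c : I → Set (P × Cn le lam K J) // ∀ y, #(c y) ≤ Order.succ lam} ≤
        #(I → {t : Set (P × Cn le lam K J) // #t ≤ Order.succ lam}) :=
      mk_le_of_injective (f := fun c y => ⟨c.1 y, c.2 y⟩) (by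
        intro c d h
        apply Subtype.ext
        funext y
        exact congrArg Subtype.val (congrFun h y))
    have h2 : #{t : Set (P × Cn le lam K J) // #t ≤ Order.succ lam} ≤
        (2 : Cardinal.{u}) ^ Order.succ lam := by
      refine (mk_bounded_set_le _ _).trans ?_
      have h3 : max #(P × Cn le lam K J) ℵ₀ ≤ (2 : Cardinal.{u}) ^ Order.succ lam := by
        rw [hG.pow]
        exact max_le hQ (hinf.trans (Order.le_succ _))
      refine (power_le_power_right h3).trans ?_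
      rw [← power_mul, mul_eq_self hinf]
    refine h1.trans ?_
    rw [← power_def]
    refine (power_le_power_right h2).trans ?_
    rw [← power_mul, mul_eq_right hInf hI (aleph0_pos.trans_le hinf).ne', hI2]
  · intro s r hr
    obtain ⟨c', hc', hm⟩ := nam0 (e := e) H hpd s
    exact ⟨r, Lx_refl H Set.univ r, ⟨c', hc'⟩, fun y z _ => hm y z⟩

end Pool.Agent.UTop
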