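import Pool.Agent.Lib.UTop.Trn

/-!
# Glu: the union of a chain, the part on the stationary set

`Ex pd e ∅ q p` speaks only about `h`, `s`, `cl`.

PROOF. `h` = the least upper bound of the `(r i).h` (`H.bdd` gives upper bounds, `WellFounded.min`), `s x = ⋃ i, (r i).s x`,
`cl = (⋃ i, (r i).cl) ∪ {h}`, `sp = ∅`, `F = ∅`. Facts: (a) `x < h → ∃ i, x < (r i).h`. (b) if `x ≤ (r i).h` and `x ∈ (r j).cl` then
`x ∈ (r i).cl` (`hE i j`, `Ex.2`; in the case `Ex (r i) (r j)` note `x ≤ (r j).h` by `clh`). (c) if `δ ≤ (r i).h` and `Mem le (r j).s (δ, a) t` then `Mem le (r i).s (δ, a) t` (by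
`Bq (r j) (r i) t`, or by `Bq (r i) (r j) t` and `δ < (r j).h`, `mem_sel`). (d) if `Mem le s (δ, a) t` then every `t' ≤ t` has `t'' ≤ t'` and `i` with
`Mem le (r i).s (δ, a) t''`; hence by (c) and `Mem_loc`: if `δ ≤ (r i).h`, `Mem le s (δ, a) t ↔ Mem le (r i).s (δ, a) t`.
`cld`: `x` a limit of `cl`. If `x ≤ (r i).h` for some `i`, the points `z < x` of `cl` are in `(r i).cl` by (b) (they are `≠ h`), so `x ∈ (r i).cl`.
Otherwise `h ≤ x`; `h < x` is impossible (`clh`), so `x = h`. `sel`: by (b) `δ ∉ cl`, `δ < (r i).h ≤ h`. `inc`: by (d) some `t'' ≤ t` and `i`, `j` with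
`Mem le (r i).s (δ, a) t''`, `Mem le (r j).s (δ, b) t''`; use (c) and `(r i).inc`. `hs`: a union of `≤ lam` sets of size `≤ lam`
(`Cardinal.mk_iUnion_le`, `H.inf`).
`lu`: let `f i` be given by `(r i).lu c`. For `ξ < h` let `n ξ` = the least element of `cl`
above `ξ`. There is `i` with `n ξ ≤ (r i).h`: if `n ξ < h` by (a); if `n ξ = h`, some `i` has `ξ < (r i).h ∈ cl`, so `(r i).h = h`. So one can choose `I : K → T` with
`η ≤ (r (I η)).h` for every `η` of the form `n ξ`. Put `f ξ = f (I (n ξ)) ξ` for `ξ < h`, `f ξ = ∅` otherwise. Let `Mem le s (δ, a) t`; by `Unf_loc` and (d) assume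
`Mem le (r i).s (δ, a) t`; `δ ∉ cl`, `δ < h`, `a 0 < δ`. By `cld` there is `b < δ` with no element of `cl` in `(b, δ]`. For `b < ξ < δ`: `n ξ = n δ`, so `f ξ = f (I (n δ)) ξ`. `δ < n δ ≤ (r (I (n δ))).h`, so
`Mem le (r (I (n δ))).s (δ, a) t` by (c), and `Unf le (f (I (n δ))) c δ a t`; `Unf_congr` with `b`.
`Ex pd e ∅ r' (r i)`: `(r i).h ≤ h`, (d); for `x ≤ (r i).h`: `x ∈ cl ↔ x ∈ (r i).cl` by (b) (if `x = h` then `(r i).h = h`, `hcl`).
-/

set_option autoImplicit false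
universe u

namespace Pool.Agent.UTop

open Cardinal Pool.Agent.PolF

variable {P K J : Type u} [LinearOrder K] [WellFoundedLT K] [LinearOrder J] [WellFoundedLT J]
  {le : P → P → Prop} {lam : Cardinal.{u}} {pd : J → Set J}
  {e : J → K × K → Set (P × Cn le lam K J)}

private theorem glu_ex {pd : J → Set J} {e : J → K × K → Set (P × Cn le lam K J)}
    {q p : Cn le lam K J} (h : Ex pd e ∅ q p) :
    (∀ t, Bq q p t) ∧ ∀ x ≤ p.h, x ∈ q.cl ↔ x ∈ p.cl :=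
  ⟨fun t => (h.1 t).1, h.2⟩

private theorem glu_mem (H : TopH le K lam) {s : K × (ℕ → K) → Set P} {y : K × (ℕ → K)} {t x : P}
    (hx : x ∈ s y) (h : le t x) : Mem le s y t :=
  fun q hq => ⟨q, H.rf q, x, hx, H.tr _ _ _ hq h⟩

theorem glu (H : TopH le K lam) {T : Type u} [Nonempty T] (hT : #T ≤ lam)
    (r : T → Cn le lam K J) (hE : ∀ i j, Ex pd e ∅ (r j) (r i) ∨ Ex pd e ∅ (r i) (r j)) :
    ∃ r' : Cn le lam K J, (∀ i, Ex pd e ∅ r' (r i)) ∧ (∀ x < r'.h, ∃ i, x < (r i).h) ∧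
      ∀ x, r'.s x = ⋃ i, (r i).s x := by
  classical
  have wf : WellFounded ((· < ·) : K → K → Prop) := wellFounded_lt
  obtain ⟨b0, hb0⟩ := H.bdd (Set.range fun i => (r i).h) (Cardinal.mk_range_le.trans hT)
  have hne : {b : K | ∀ i, (r i).h ≤ b}.Nonempty := ⟨b0, fun i => (hb0 _ ⟨i, rfl⟩).le⟩
  obtain ⟨h, hle, hmin⟩ : ∃ h : K, (∀ i, (r i).h ≤ h) ∧ ∀ b, (∀ i, (r i).h ≤ b) → h ≤ b := by
    refine ⟨wf.min _ hne, wf.min_mem _ hne, fun b hb => ?_⟩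
    exact not_lt.1 (wf.not_lt_min {b : K | ∀ i, (r i).h ≤ b} hb)
  have ha : ∀ x < h, ∃ i, x < (r i).h := by
    intro x hx
    by_contra hc
    push Not at hc
    exact absurd (hmin x hc) (not_le.2 hx)
  have hcl : ∀ i j x, x ≤ (r i).h → x ∈ (r j).cl → x ∈ (r i).cl := by
    intro i j x hx hj
    rcases hE i j with h1 | h1
    · exact (h1.2 x hx).1 hj
    · exact (h1.2 x ((r j).clh x hj)).2 hj
  have hs : ∀ i j δ a t, δ ≤ (r i).h → Mem le (r j).s (δ, a) t → Mem le (r i).s (δ, a) t := by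
    intro i j δ a t hδ hm
    rcases hE i j with h1 | h1
    · exact (((glu_ex h1).1 t).2 δ hδ a t (H.rf t)).1 hm
    · exact (((glu_ex h1).1 t).2 δ (mem_sel H hm).2.2.1.le a t (H.rf t)).2 hm
  set s : K × (ℕ → K) → Set P := fun x => ⋃ i, (r i).s x with hsdef
  have hup : ∀ i y t, Mem le (r i).s y t → Mem le s y t := by
    intro i y t hm q hq
    obtain ⟨q', hq', x, hx, hqx⟩ := hm q hq
    exact ⟨q', hq', x, Set.mem_iUnion.2 ⟨i, hx⟩, hqx⟩
  have hd1 : ∀ y t, Mem le s y t → ∀ t', le t' t → ∃ t'', le t'' t' ∧ ∃ i, Mem le (r i).s y t'' := by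
    intro y t hm t' ht'
    obtain ⟨q', hq', x, hx, hqx⟩ := hm t' ht'
    obtain ⟨i, hi⟩ := Set.mem_iUnion.1 hx
    exact ⟨q', hq', i, glu_mem H hi hqx⟩
  have hd2 : ∀ i δ a t, δ ≤ (r i).h → (Mem le s (δ, a) t ↔ Mem le (r i).s (δ, a) t) := by
    intro i δ a t hδ
    refine ⟨fun hm => ?_, hup i _ t⟩
    refine Mem_loc H.tr H.rf fun q hq => ?_
    obtain ⟨t'', ht'', j, hj⟩ := hd1 _ _ hm q hq
    exact ⟨t'', ht'', hs i j δ a t'' hδ hj⟩
  set cl : Set K := (⋃ i, (r i).cl) ∪ {h} with hcldef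
  have hclh : ∀ x ∈ cl, x ≤ h := by
    rintro x (hx | hx)
    · obtain ⟨i, hi⟩ := Set.mem_iUnion.1 hx
      exact ((r i).clh x hi).trans (hle i)
    · exact le_of_eq hx
  have hcl2 : ∀ i x, x ≤ (r i).h → (x ∈ cl ↔ x ∈ (r i).cl) := by
    intro i x hx
    constructor
    · rintro (h1 | h1)
      · obtain ⟨j, hj⟩ := Set.mem_iUnion.1 h1
        exact hcl i j x hx hj
      · have h1 : x = h := h1
        have : (r i).h = x := le_antisymm ((hle i).trans_eq h1.symm) hx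
        rw [← this]; exact (r i).hcl
    · intro h1
      exact Or.inl (Set.mem_iUnion.2 ⟨i, h1⟩)
  have hcld : ∀ x, (∃ y, y < x) → (∀ y < x, ∃ z ∈ cl, y < z ∧ z < x) → x ∈ cl := by
    intro x hy hx
    by_cases hi : ∃ i, x ≤ (r i).h
    · obtain ⟨i, hi⟩ := hi
      rw [hcl2 i x hi]
      refine (r i).cld x hy fun y hyx => ?_
      obtain ⟨z, hz, h1, h2⟩ := hx y hyx
      exact ⟨z, (hcl2 i z (h2.le.trans hi)).1 hz, h1, h2⟩
    · push Not at hi
      have h1 : h ≤ x := hmin x fun i => (hi i).le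
      rcases h1.lt_or_eq with h2 | h2
      · obtain ⟨z, hz, h3, -⟩ := hx h h2
        exact absurd (hclh z hz) (not_le.2 h3)
      · exact Or.inr h2.symm
  have hsel : ∀ i δ, δ < (r i).h → δ ∉ (r i).cl → δ < h ∧ δ ∉ cl := by
    intro i δ h1 h2
    exact ⟨h1.trans_le (hle i), fun h3 => h2 ((hcl2 i δ h1.le).1 h3)⟩
  have hhcl : h ∈ cl := Or.inr rfl
  -- the least element of `cl` above a point
  obtain ⟨n, hn⟩ : ∃ n : K → K, ∀ x < h, n x ∈ cl ∧ x < n x ∧ ∀ z ∈ cl, x < z → n x ≤ z := by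
    have : ∀ x : K, ∃ y : K, x < h → y ∈ cl ∧ x < y ∧ ∀ z ∈ cl, x < z → y ≤ z := by
      intro x
      by_cases hx : x < h
      · have hne' : {z : K | z ∈ cl ∧ x < z}.Nonempty := ⟨h, hhcl, hx⟩
        refine ⟨wf.min _ hne', fun _ => ⟨(wf.min_mem _ hne').1, (wf.min_mem _ hne').2, ?_⟩⟩
        intro z hz hxz
        have hz' : z ∈ {z : K | z ∈ cl ∧ x < z} := ⟨hz, hxz⟩
        exact not_lt.1 (wf.not_lt_min {z : K | z ∈ cl ∧ x < z} hz')
      · exact ⟨x, fun h' => absurd h' hx⟩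
    choose n hn using this
    exact ⟨n, hn⟩
  obtain ⟨I, hI⟩ : ∃ I : K → T, ∀ y, (∃ i, y ≤ (r i).h) → y ≤ (r (I y)).h := by
    have : ∀ y : K, ∃ i : T, (∃ i, y ≤ (r i).h) → y ≤ (r i).h := by
      intro y
      by_cases hy : ∃ i, y ≤ (r i).h
      · obtain ⟨i, hi⟩ := hy
        exact ⟨i, fun _ => hi⟩
      · exact ⟨Classical.arbitrary T, fun h' => absurd h' hy⟩
    choose I hI using this
    exact ⟨I, hI⟩
  have hlu : ∀ c : K × K → Set P, ∃ f : K → Set P, ∀ δ a t, Mem le s (δ, a) t →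
      Unf le f c δ a t := by
    intro c
    have h0 : ∀ i, ∃ f : K → Set P, ∀ δ a t, Mem le (r i).s (δ, a) t → Unf le f c δ a t :=
      fun i => (r i).lu c
    choose f hf using h0
    refine ⟨fun x => f (I (n x)) x, fun δ a t hm => Unf_loc H fun t' ht' => ?_⟩
    obtain ⟨t2, ht2, i, hi⟩ := hd1 _ _ hm t' ht'
    refine ⟨t2, ht2, ?_⟩
    obtain ⟨hmono, hlim, hδi, hδc⟩ := mem_sel H hi
    obtain ⟨hδh, hδcl⟩ := hsel i δ hδi hδc
    have hb : ∃ b < δ, ∀ z ∈ cl, b < z → ¬ z < δ := by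
      by_contra hc
      push Not at hc
      refine hδcl (hcld δ ⟨a 0, hlim.1 0⟩ fun y hy => ?_)
      obtain ⟨z, hz, h1, h2⟩ := hc y hy
      exact ⟨z, hz, h1, h2⟩
    obtain ⟨b, hbδ, hb⟩ := hb
    have hnδ := hn δ hδh
    have hneq : ∀ x, b < x → x < δ → n x = n δ := by
      intro x h1 h2
      have hnx := hn x (h2.trans hδh)
      apply le_antisymm
      · exact hnx.2.2 _ hnδ.1 (h2.trans hnδ.2.1)
      · refine hnδ.2.2 _ hnx.1 ?_
        have h3 : δ ≤ n x := not_lt.1 (hb _ hnx.1 (h1.trans hnx.2.1))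
        refine lt_of_le_of_ne h3 fun h4 => hδcl ?_
        rw [h4]; exact hnx.1
    have hex : ∃ i, n δ ≤ (r i).h := by
      obtain ⟨j, hj⟩ := ha δ hδh
      exact ⟨j, hnδ.2.2 _ (Or.inl (Set.mem_iUnion.2 ⟨j, (r j).hcl⟩)) hj⟩
    have hIδ := hI _ hex
    have hm2 : Mem le (r (I (n δ))).s (δ, a) t2 :=
      hs _ i δ a t2 (hnδ.2.1.le.trans hIδ) hi
    refine Unf_congr H hbδ (f := f (I (n δ))) ?_ (hf _ δ a t2 hm2)
    intro k hk q _
    have : n (a k) = n δ := hneq _ hk (hlim.1 k)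
    simp only [Mem, this]
  have hcard : #{x // (s x).Nonempty} ≤ lam := by
    have h1 : {x | (s x).Nonempty} ⊆ ⋃ i, {x | ((r i).s x).Nonempty} := by
      rintro x ⟨y, hy⟩
      obtain ⟨i, hi⟩ := Set.mem_iUnion.1 hy
      exact Set.mem_iUnion.2 ⟨i, y, hi⟩
    calc #{x // (s x).Nonempty} = #({x | (s x).Nonempty} : Set (K × (ℕ → K))) := rfl
      _ ≤ #(⋃ i, {x | ((r i).s x).Nonempty} : Set (K × (ℕ → K))) := Cardinal.mk_le_mk_of_subset h1
      _ ≤ Cardinal.sum fun i => #({x | ((r i).s x).Nonempty} : Set (K × (ℕ → K))) :=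
        Cardinal.mk_iUnion_le_sum_mk
      _ ≤ Cardinal.sum fun _ : T => lam := Cardinal.sum_le_sum _ _ fun i => (r i).hs
      _ = #T * lam := by rw [Cardinal.sum_const']
      _ ≤ lam * lam := mul_le_mul_left hT lam
      _ = lam := Cardinal.mul_eq_self H.inf.le
  refine ⟨⟨h, cl, s, ∅, fun _ _ => ∅, hhcl, hclh, hcld, ?_, ?_, hcard, ?_, ?_, hlu⟩, ?_, ha,
    fun x => rfl⟩
  · rintro δ a ⟨x, hx⟩
    obtain ⟨i, hi⟩ := Set.mem_iUnion.1 hx
    obtain ⟨h1, h2, h3, h4⟩ := (r i).sel δ a ⟨x, hi⟩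
    exact ⟨h1, h2, hsel i δ h3 h4⟩
  · intro δ a b t hma hmb
    obtain ⟨t1, ht1, i, hi⟩ := hd1 _ _ hma t (H.rf t)
    obtain ⟨t2, ht2, j, hj⟩ := hd1 _ _ hmb t1 ht1
    refine (r i).inc δ a b t2 (Mem_down H.tr ht2 hi) ?_
    exact hs i j δ b t2 (mem_sel H hi).2.2.1.le hj
  · simp
  · rintro g ξ ⟨x, hx⟩
    exact absurd hx (Set.notMem_empty x)
  · intro i
    refine ⟨fun t => ⟨⟨hle i, fun δ hδ a q _ => hd2 i δ a q hδ⟩, fun j hj => absurd hj (Set.notMem_empty j)⟩,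
      fun x hx => hcl2 i x hx⟩

end Pool.Agent.UTop
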