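import Pool.Agent.Lib.UTop.Trn

/-!
# Mix: mixing

PROOF. `a'`: `h = a.h`, `cl = b.cl ∪ {a.h}`, `s (δ, c) = b.s (δ, c)` if `δ ≤ b.h`, else `{t' | le t' t ∧ Mem le a.s (δ, c) t'}`, `sp = a.sp`,
`F g ξ = b.F g ξ` if `g ∈ X`, `g ∈ b.sp`, `ξ < b.h`, else `a.F g ξ` (`out`: `g ∈ a.sp` because `g ∈ X ∩ b.sp` and `Lq pd e X a b t`; `b.h ≤ a.h`). `cld`: a limit `x ≤ a.h` of `cl` is a limit of
`b.cl`; `a.h < x` is impossible. `sel`: if `δ ≤ b.h` then `δ < b.h ≤ a.h`, `δ ∉ b.cl`; if `b.h < δ` use `mem_sel` for `a`. `inc`: for `b.h < δ`, `Mem le a'.s (δ, c) t0` implies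
`Mem le a.s (δ, c) t0` (`Mem_loc`). `hs`: the union of two sets of size `≤ lam`. `lu`: for a colouring `c0` let `f1`, `f2` be given by `b.lu c0`, `a.lu c0`, `f ξ = f1 ξ` if `ξ < b.h`, else `f2 ξ`. If `δ ≤ b.h` all
`c n < δ < b.h` (`Unf_congr` with any bound, e.g. `c 0`); if `b.h < δ`, `Mem le a.s (δ, c) t'`, `Unf_congr` with the bound `b.h`.
(1) `Lq pd e X a' a t` and `Lq pd e X a a' t`: equal heights, so the third clause of `Cq` is void (`mem_sel`). `Bq`: for `δ ≤ b.h` by `Bq a b t`; for `b.h < δ` and `t1 ≤ t`: `Mem le a'.s (δ, c) t1 ↔ Mem le a.s (δ, c) t1`.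
Coordinates: for `g ∈ X ∩ b.sp`, `ξ < b.h` by the second clause of `Cq g a b t`; otherwise the values are equal.
(2) `Ex pd e X a' b`: `s` and `F` are equal below `b.h`; new points: `b.h < δ`, `Mem le a'.s (δ, c) t1`: by `Ob_loc` one may assume `le t1 t` and `Mem le a.s (δ, c) t1` (below every `t2 ≤ t1` there is
`t3 ≤ t2` below an element of the set, `Mem_down`). `Cq g a b t` gives `Ob pd e g t1 a δ c`, `Ob_congr` to `a'`: `Lq pd e (pd g) a' a t1` by (1) (`Lq_mono`, `hX`, `Lq_down`), the values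
of `a'.F g` and `a.F g` at `c n` agree at `t1` by (1).
-/

set_option autoImplicit false
universe u

namespace Pool.Agent.UTop

open Cardinal Pool.Agent.PolF

variable {P K J : Type u} [LinearOrder K] [LinearOrder J] [WellFoundedLT J]
  {le : P → P → Prop} {lam : Cardinal.{u}} {pd : J → Set J}
  {e : J → K × K → Set (P × Cn le lam K J)}

private theorem mix_iff_refl (H : TopH le K lam) {Y : Type u} {A B : Y → Set P} {x : Y} {t : P}
    (h : A x = B x) : Iff' le (Mem le A x) (Mem le B x) t := by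
  intro q _
  unfold Mem
  rw [h]

open Classical in
/-- the selection of the mixed condition -/
private noncomputable def mixS (a b : Cn le lam K J) (t : P) (x : K × (ℕ → K)) : Set P :=
  if x.1 ≤ b.h then b.s x else {t' | le t' t ∧ Mem le a.s x t'}

open Classical in
/-- the coordinates of the mixed condition -/
private noncomputable def mixF (X : Set J) (a b : Cn le lam K J) (g : J) (ξ : K) : Set P :=
  if g ∈ X ∧ g ∈ b.sp ∧ ξ < b.h then b.F g ξ else a.F g ξ

private theorem mixS_le {a b : Cn le lam K J} {t : P} {δ : K} {c : ℕ → K} (h : δ ≤ b.h) :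
    mixS a b t (δ, c) = b.s (δ, c) := by
  unfold mixS
  rw [if_pos h]

private theorem mixS_lt {a b : Cn le lam K J} {t : P} {δ : K} {c : ℕ → K} (h : b.h < δ) :
    mixS a b t (δ, c) = {t' | le t' t ∧ Mem le a.s (δ, c) t'} := by
  unfold mixS
  rw [if_neg (not_le.2 h)]

private theorem mixS_mem_le {a b : Cn le lam K J} {t t1 : P} {δ : K} {c : ℕ → K} (h : δ ≤ b.h) :
    Mem le (mixS a b t) (δ, c) t1 ↔ Mem le b.s (δ, c) t1 := by
  unfold Mem
  rw [mixS_le h]

/-- below every condition there is one below `t` -/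
private theorem mixS_get (H : TopH le K lam) {a b : Cn le lam K J} {t t1 : P} {δ : K} {c : ℕ → K}
    (h : b.h < δ) (hm : Mem le (mixS a b t) (δ, c) t1) :
    ∃ r, le r t1 ∧ le r t ∧ Mem le a.s (δ, c) r := by
  obtain ⟨r, hr, t4, ht4, hr4⟩ := hm t1 (H.rf t1)
  rw [mixS_lt h] at ht4
  exact ⟨r, hr, H.tr _ _ _ hr4 ht4.1, Mem_down H.tr hr4 ht4.2⟩

private theorem mixS_mem_lt (H : TopH le K lam) {a b : Cn le lam K J} {t t1 : P} {δ : K}
    {c : ℕ → K} (h : b.h < δ) (hm : Mem le (mixS a b t) (δ, c) t1) : Mem le a.s (δ, c) t1 := by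
  refine Mem_loc H.tr H.rf fun q hq => ?_
  obtain ⟨r, hr1, -, hr2⟩ := mixS_get H h (Mem_down H.tr hq hm)
  exact ⟨r, hr1, hr2⟩

private theorem mixS_mem_lt' (H : TopH le K lam) {a b : Cn le lam K J} {t t1 : P} {δ : K}
    {c : ℕ → K} (h : b.h < δ) (ht : le t1 t) (hm : Mem le a.s (δ, c) t1) :
    Mem le (mixS a b t) (δ, c) t1 := by
  intro q hq
  refine ⟨q, H.rf q, q, ?_, H.rf q⟩
  rw [mixS_lt h]
  exact ⟨H.tr _ _ _ hq ht, Mem_down H.tr hq hm⟩

/-- the mixed condition -/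
private noncomputable def mixC (H : TopH le K lam) (X : Set J) (a b : Cn le lam K J) (t : P)
    (h : Lq pd e X a b t) : Cn le lam K J where
  h := a.h
  cl := b.cl ∪ {a.h}
  s := mixS a b t
  sp := a.sp
  F := mixF X a b
  hcl := Or.inr rfl
  clh := by
    rintro x (hx | hx)
    · exact (b.clh x hx).trans h.1.1
    · rw [Set.mem_singleton_iff.1 hx]
  cld := by
    intro x hy hx
    by_cases hxa : x ≤ a.h
    · refine Or.inl (b.cld x hy fun y hyx => ?_)
      obtain ⟨z, hz, hyz, hzx⟩ := hx y hyx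
      rcases hz with hz | hz
      · exact ⟨z, hz, hyz, hzx⟩
      · rw [Set.mem_singleton_iff.1 hz] at hzx
        exact absurd hxa (not_le.2 hzx)
    · obtain ⟨z, hz, hyz, -⟩ := hx a.h (not_le.1 hxa)
      rcases hz with hz | hz
      · exact absurd ((b.clh z hz).trans h.1.1) (not_le.2 hyz)
      · rw [Set.mem_singleton_iff.1 hz] at hyz
        exact absurd hyz (lt_irrefl _)
  sel := by
    intro δ c hn
    rcases le_or_gt δ b.h with hδ | hδ
    · rw [mixS_le hδ] at hn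
      obtain ⟨h1, h2, h3, h4⟩ := b.sel δ c hn
      have h5 : δ < a.h := h3.trans_le h.1.1
      refine ⟨h1, h2, h5, ?_⟩
      rintro (h6 | h6)
      · exact h4 h6
      · rw [Set.mem_singleton_iff.1 h6] at h5
        exact lt_irrefl _ h5
    · rw [mixS_lt hδ] at hn
      obtain ⟨t', -, ht'⟩ := hn
      obtain ⟨h1, h2, h3, -⟩ := mem_sel H ht'
      refine ⟨h1, h2, h3, ?_⟩
      rintro (h6 | h6)
      · exact absurd (b.clh _ h6) (not_le.2 hδ)
      · rw [Set.mem_singleton_iff.1 h6] at h3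
        exact lt_irrefl _ h3
  inc := by
    intro δ c c' t0 h1 h2
    rcases le_or_gt δ b.h with hδ | hδ
    · exact b.inc δ c c' t0 ((mixS_mem_le hδ).1 h1) ((mixS_mem_le hδ).1 h2)
    · exact a.inc δ c c' t0 (mixS_mem_lt H hδ h1) (mixS_mem_lt H hδ h2)
  hs := by
    have h1 : {x | (mixS a b t x).Nonempty} ⊆ {x | (b.s x).Nonempty} ∪ {x | (a.s x).Nonempty} := by
      rintro ⟨δ, c⟩ hx
      rcases le_or_gt δ b.h with hδ | hδ
      · have hx' : (mixS a b t (δ, c)).Nonempty := hx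
        rw [mixS_le hδ] at hx'
        exact Or.inl hx'
      · have hx' : (mixS a b t (δ, c)).Nonempty := hx
        rw [mixS_lt hδ] at hx'
        obtain ⟨t', -, ht'⟩ := hx'
        obtain ⟨-, -, t4, ht4, -⟩ := ht' t' (H.rf t')
        exact Or.inr ⟨t4, ht4⟩
    have h2 : #{x // (b.s x).Nonempty} ≤ lam := b.hs
    have h3 : #{x // (a.s x).Nonempty} ≤ lam := a.hs
    calc #{x // (mixS a b t x).Nonempty}
        ≤ #(({x | (b.s x).Nonempty} ∪ {x | (a.s x).Nonempty} : Set (K × (ℕ → K)))) :=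
          mk_le_mk_of_subset h1
      _ ≤ #{x // (b.s x).Nonempty} + #{x // (a.s x).Nonempty} := mk_union_le _ _
      _ ≤ lam + lam := add_le_add h2 h3
      _ = lam := add_eq_self H.inf.le
  hsp := a.hsp
  out := by
    intro g ξ hn
    unfold mixF at hn
    split_ifs at hn with hc
    · exact ⟨(h.2 g hc.1 hc.2.1).1, hc.2.2.trans_le h.1.1⟩
    · exact a.out g ξ hn
  lu := by
    classical
    intro c0
    obtain ⟨f1, hf1⟩ := b.lu c0
    obtain ⟨f2, hf2⟩ := a.lu c0
    refine ⟨fun ξ => if ξ < b.h then f1 ξ else f2 ξ, ?_⟩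
    intro δ c t0 hm
    rcases le_or_gt δ b.h with hδ | hδ
    · have h1 := (mixS_mem_le hδ).1 hm
      obtain ⟨-, h3, h4, -⟩ := mem_sel H h1
      refine Unf_congr H (h3.1 0) ?_ (hf1 δ c t0 h1)
      intro n _
      refine mix_iff_refl H ?_
      exact if_pos ((h3.1 n).trans h4)
    · have h1 := mixS_mem_lt H hδ hm
      refine Unf_congr H hδ ?_ (hf2 δ c t0 h1)
      intro n hn
      refine mix_iff_refl H ?_
      exact if_neg (not_lt.2 hn.le)

theorem mix (H : TopH le K lam) (hpd : PdH pd) {X : Set J} (hX : DC pd X) {a b : Cn le lam K J}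
    {t : P} (h : Lq pd e X a b t) :
    ∃ a' : Cn le lam K J, Ex pd e X a' b ∧ Lq pd e X a' a t ∧ Lq pd e X a a' t := by
  classical
  have hs : ∀ δ c, Iff' le (Mem le (mixS a b t) (δ, c)) (Mem le a.s (δ, c)) t := by
    intro δ c t1 ht1
    rcases le_or_gt δ b.h with hδ | hδ
    · rw [mixS_mem_le hδ]
      exact (h.1.2 δ hδ c t1 ht1).symm
    · exact ⟨mixS_mem_lt H hδ, mixS_mem_lt' H hδ ht1⟩
  have hF : ∀ i, ∀ ξ, Iff' le (Mem le (mixF X a b i) ξ) (Mem le (a.F i) ξ) t := by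
    intro i ξ
    by_cases hc : i ∈ X ∧ i ∈ b.sp ∧ ξ < b.h
    · intro t1 ht1
      have h1 := (h.2 i hc.1 hc.2.1).2.1 ξ hc.2.2 t1 ht1
      have h2 : Mem le (mixF X a b i) ξ t1 ↔ Mem le (b.F i) ξ t1 := by
        have h3 : mixF X a b i ξ = b.F i ξ := by
          unfold mixF
          rw [if_pos hc]
        unfold Mem
        rw [h3]
      rw [h2]
      exact h1.symm
    · refine mix_iff_refl H ?_
      unfold mixF
      rw [if_neg hc]
  have h1 : Lq pd e X (mixC H X a b t h) a t := by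
    refine ⟨⟨le_refl _, fun δ _ c => hs δ c⟩, ?_⟩
    intro i _ hi
    refine ⟨hi, fun ξ _ => hF i ξ, ?_⟩
    intro δ c hδ t' _ hm
    exact absurd (mem_sel H hm).2.2.1 (not_lt.2 hδ.le)
  have h2 : Lq pd e X a (mixC H X a b t h) t := by
    refine ⟨⟨le_refl _, fun δ _ c t1 ht1 => (hs δ c t1 ht1).symm⟩, ?_⟩
    intro i _ hi
    refine ⟨hi, fun ξ _ t1 ht1 => (hF i ξ t1 ht1).symm, ?_⟩
    intro δ c hδ t' _ hm
    exact absurd (mem_sel H hm).2.2.1 (not_lt.2 hδ.le)
  refine ⟨mixC H X a b t h, ⟨?_, ?_⟩, h1, h2⟩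
  · intro t'
    refine ⟨⟨h.1.1, fun δ hδ c => mix_iff_refl H (mixS_le hδ)⟩, ?_⟩
    intro i hiX hib
    have hia := (h.2 i hiX hib).1
    refine ⟨hia, ?_, ?_⟩
    · intro ξ hξ
      refine mix_iff_refl H ?_
      show mixF X a b i ξ = b.F i ξ
      unfold mixF
      rw [if_pos ⟨hiX, hib, hξ⟩]
    · intro δ c hδ t1 _ hm
      refine Ob_loc H hpd fun t2 ht2 => ?_
      obtain ⟨r, hr1, hr2, hr3⟩ := mixS_get H hδ (Mem_down H.tr ht2 hm)
      refine ⟨r, hr1, ?_⟩
      have h4 := (h.2 i hiX hib).2.2 δ c hδ r hr2 hr3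
      refine Ob_congr H hpd (Lq_down H hr2 (Lq_mono (hX i hiX) h1)) ?_ h4
      intro n q hq
      exact hF i (c n) q (H.tr _ _ _ hq hr2)
  · intro x hx
    constructor
    · rintro (h3 | h3)
      · exact h3
      · rw [Set.mem_singleton_iff.1 h3] at hx ⊢
        rw [le_antisymm hx h.1.1]
        exact b.hcl
    · intro h3
      exact Or.inl h3

end Pool.Agent.UTop
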