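import Pool.Agent.Lib.UTop.Rec
import Pool.Agent.Lib.UTop.Cls
import Pool.Agent.Lib.UTop.Mix

/-!
# Red: reduction to the small forcing

PROOF. Let `T = (#(P × ι)).ord.ToType` with an equivalence to `P × ι`, `k ↦ (tk, ik)`; `#T ≤ lam` (`H.hP`, `Cardinal.mul_le_of_le`, `H.inf`). `rec_chain` with `Z = Cn`, `ok k z := Ex pd e X z b ∧ ∃ t', le t' tk ∧ D ik t' z`,
`rel k z z' := Ex pd e X z' z`. Step at `k` with `f`: `cls'` for `T' = {i // i < k}`, `r i = f i`, `Y = fun _ => X`, `X0 = X` gives `r` with `Ex pd e X r (f i)` for all `i < k`, and `Ex pd e X r b`. `hd ik tk r` gives `t'`, `c'`; `mix` for `Lq pd e X c' r t'` gives `a'` with `Ex pd e X a' r`, `Lq pd e X a' c' t'`; by `ho`, `D ik t' a'` (`H.rf`). End: `cls'` for the whole of `T` gives `a`; for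
`k` with `(tk, ik) = (t, i)`: `Ex pd e X a (f k)` and `ho`.
-/

set_option autoImplicit false
universe u

namespace Pool.Agent.UTop

open Cardinal Pool.Agent.PolF

variable {P K J : Type u} [LinearOrder K] [WellFoundedLT K] [LinearOrder J] [WellFoundedLT J]
  {le : P → P → Prop} {lam : Cardinal.{u}} {pd : J → Set J}
  {e : J → K × K → Set (P × Cn le lam K J)}

theorem red (H : TopH le K lam) (hpd : PdH pd) {X : Set J} (hX : DC pd X) {ι : Type u}
    (hι : #ι ≤ lam) (D : ι → P → Cn le lam K J → Prop) (b : Cn le lam K J)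
    (ho : ∀ i t t' c c', D i t c → le t' t → Lq pd e X c' c t' → D i t' c')
    (hd : ∀ i t c, Lq pd e X c b t → ∃ t' c', le t' t ∧ Lq pd e X c' c t' ∧ D i t' c') :
    ∃ a : Cn le lam K J, Ex pd e X a b ∧ ∀ i t, ∃ t', le t' t ∧ D i t' a := by
  classical
  let lo : LinearOrder (P × ι) := IsWellOrder.linearOrder WellOrderingRel
  have wf : WellFoundedLT (P × ι) := ⟨(WellOrderingRel.isWellOrder (α := P × ι)).wf⟩
  have hne : Nonempty (Cn le lam K J) := ⟨b⟩
  have hT : #(P × ι) ≤ lam := by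
    rw [Cardinal.mk_prod, Cardinal.lift_id, Cardinal.lift_id]
    exact Cardinal.mul_le_of_le H.inf.le H.hP.le hι
  obtain ⟨f, hok, hrel⟩ := rec_chain (T := P × ι) (Z := Cn le lam K J)
    (fun k z => Ex pd e X z b ∧ ∃ t', le t' k.1 ∧ D k.2 t' z)
    (fun _ z z' => Ex pd e X z' z) (by
      intro k f hok hrel
      obtain ⟨r, hr, hrb⟩ := cls' H hpd (T := {i : P × ι // i < k})
        ((Cardinal.mk_subtype_le _).trans hT) (fun i => f i.1) (fun _ => X) (fun _ => hX)
        monotone_const (fun i j hij => hrel i.1 j.1 hij j.2) X hX (fun _ => subset_rfl) b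
        (fun i => (hok i.1 i.2).1)
      obtain ⟨t', c', ht, hL, hD⟩ := hd k.2 k.1 r (hrb.1 k.1)
      obtain ⟨a', hE, hL', -⟩ := mix H hpd hX hL
      exact ⟨a', ⟨Ex_trans H hpd hX hE hrb, t', ht, ho k.2 t' t' c' a' hD (H.rf t') hL'⟩,
        fun i hi => Ex_trans H hpd hX hE (hr ⟨i, hi⟩)⟩)
  obtain ⟨a, ha, hab⟩ := cls' H hpd (T := P × ι) hT f (fun _ => X) (fun _ => hX)
    monotone_const (fun i j hij => hrel i j hij) X hX (fun _ => subset_rfl) b
    (fun i => (hok i).1)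
  refine ⟨a, hab, fun i t => ?_⟩
  obtain ⟨t', ht, hD⟩ := (hok (t, i)).2
  exact ⟨t', ht, ho i t' t' (f (t, i)) a hD (H.rf t') ((ha (t, i)).1 t')⟩

end Pool.Agent.UTop
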