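import Pool.Agent.Lib.UTop.Gam
import Pool.Agent.Lib.UTop.Hgt
import Pool.Agent.Lib.UTop.Red

/-!
# Gnl: conditions which know a point of the club

Write `L = Lx (pdI G) e univ`.

PROOF. `gn_mono`: `p.h ≤ p'.h`, `Mem_down` for `(t', p') ≤ (t', p)`. `gn_ex`: `red` with `X = univ`, `ι = PUnit`, `b = p`, `D _ t c := (∀ t', le t' t → ¬ le t' t0) ∨ ∃ y, l < y ∧ y < c.h ∧ Mem L C y (t, c)`. Open: clear. Dense at `(t, c)`, `Lq univ c p t`: if the first alternative fails there is `t' ≤ t`, `t' ≤ t0`; `(t', c) ≤ (t0, p0)`, so by `hC l` there are `z ≤ (t', c)` and `y > l` with `Mem L C y z`;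
`hgt` gives `q'` with `Ex univ q' z.2`, `y < q'.h`; then `(z.1, q')` is as required. For `t ≤ t0` the first alternative is impossible at `t' ≤ t` (`H.rf`).
-/

set_option autoImplicit false
universe u

namespace Pool.Agent.UTop

open Cardinal Pool.Agent.PolF

variable {P K G : Type u} [LinearOrder K] [WellFoundedLT K] [LinearOrder G] [WellFoundedLT G]
  {le : P → P → Prop} {lam : Cardinal.{u}}

/-- below `t0`, `p` decides densely a point of `C` between `l` and its height -/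
def Gn (e : G → K × K → Set (P × Cn le lam K G)) (C : K → Set (P × Cn le lam K G)) (t0 : P) (l : K)
    (p : Cn le lam K G) : Prop :=
  ∀ t, le t t0 → ∃ t', le t' t ∧ ∃ y, l < y ∧ y < p.h ∧
    Mem (Lx (pdI G) e Set.univ) C y (t', p)

variable {e : G → K × K → Set (P × Cn le lam K G)} {C : K → Set (P × Cn le lam K G)} {t0 : P}

theorem gn_mono (H : TopH le K lam) {l : K} {p p' : Cn le lam K G}
    (h : Ex (pdI G) e Set.univ p' p) (hp : Gn e C t0 l p) : Gn e C t0 l p' := by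
  intro t ht
  obtain ⟨t', ht', y, hly, hy, hm⟩ := hp t ht
  exact ⟨t', ht', y, hly, lt_of_lt_of_le hy (h.1 t').1.1,
    Mem_down (Lx_trans H pdI_H Set.univ (fun g _ => Set.subset_univ _))
      (show Lx (pdI G) e Set.univ (t', p') (t', p) from ⟨H.rf t', h.1 t'⟩) hm⟩

theorem gn_ex (H : TopH le K lam) {p0 : Cn le lam K G}
    (hC : ∀ b : K, Exi (Lx (pdI G) e Set.univ)
      (fun y : {y : K // b < y} => Mem (Lx (pdI G) e Set.univ) C y.1) (t0, p0))
    (l : K) {p : Cn le lam K G} (h : Ex (pdI G) e Set.univ p p0) :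
    ∃ p', Ex (pdI G) e Set.univ p' p ∧ Gn e C t0 l p' := by
  have hU : DC (pdI G) (Set.univ : Set G) := fun g _ => Set.subset_univ _
  have htr := Lx_trans (e := e) H pdI_H Set.univ hU
  obtain ⟨a, ha, hD⟩ := red (e := e) H pdI_H hU (ι := PUnit) (by
      rw [Cardinal.mk_punit]
      exact Cardinal.one_lt_aleph0.le.trans H.inf.le)
    (fun _ t c => (∀ t', le t' t → ¬ le t' t0) ∨ ∃ y, l < y ∧ y < c.h ∧
      Mem (Lx (pdI G) e Set.univ) C y (t, c)) p (by
      rintro - t t' c c' (hD | ⟨y, hly, hy, hm⟩) htt hL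
      · exact Or.inl fun t1 h1 => hD t1 (H.tr _ _ _ h1 htt)
      · exact Or.inr ⟨y, hly, lt_of_lt_of_le hy hL.1.1,
          Mem_down htr (show Lx (pdI G) e Set.univ (t', c') (t, c) from ⟨htt, hL⟩) hm⟩) (by
      rintro - t c hL
      by_cases hn : ∀ t', le t' t → ¬ le t' t0
      · exact ⟨t, c, H.rf t, Lq_refl H _ _ _, Or.inl hn⟩
      · push Not at hn
        obtain ⟨t1, h1, h10⟩ := hn
        have h0 : Lx (pdI G) e Set.univ (t1, c) (t0, p0) :=
          ⟨h10, Lq_trans H pdI_H hU (Lq_down H h1 hL) (h.1 t1)⟩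
        obtain ⟨z, hz, ⟨y, hly⟩, hm⟩ := hC l (t1, c) h0
        obtain ⟨q', hE, hyq, -, -, -⟩ := hgt (e := e) H pdI_H z.2 y
        refine ⟨z.1, q', H.tr _ _ _ hz.1 h1, Lq_trans H pdI_H hU ((hE Set.univ).1 z.1) hz.2,
          Or.inr ⟨y, hly, hyq, ?_⟩⟩
        exact Mem_down htr
          (show Lx (pdI G) e Set.univ (z.1, q') z from ⟨H.rf z.1, (hE Set.univ).1 z.1⟩) hm)
  refine ⟨a, ha, fun t ht => ?_⟩
  obtain ⟨t', ht', hD | hD⟩ := hD PUnit.unit t
  · exact absurd (H.tr _ _ _ ht' ht) (hD t' (H.rf t'))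
  · exact ⟨t', ht', hD⟩

end Pool.Agent.UTop
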