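import Pool.Agent.Lib.UTop.Gam

/-!
# Jdf: trees of conditions, definitions

A guess is a function `v : Γ → ℕ → Set P`; `v g m` is the guessed value (a name over `P`) at the point
number `m` of the ladder for the coordinate `g`. The coordinates of a tree of conditions are pairs
`⟨g, v⟩`, `v` a guess below or at `g`; `br v` is the branch of the guess `v`, `pull` the condition on a
branch.
-/

set_option autoImplicit false
universe u

namespace Pool.Agent.UTop

open Cardinal Pool.Agent.PolF

/-- guesses -/
structure Gs (G P : Type u) where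
  v : G → ℕ → Set P

open Classical in
noncomputable instance (G P : Type u) : LinearOrder (Gs G P) :=
  linearOrderOfSTO (WellOrderingRel (α := Gs G P))

instance (G P : Type u) : WellFoundedLT (Gs G P) :=
  ⟨(WellOrderingRel.isWellOrder (α := Gs G P)).wf⟩

/-- coordinates of trees of conditions -/
structure Jt (G P : Type u) where
  g : G
  w : Gs G P

theorem Jt_inj (G P : Type u) : Function.Injective
    (fun j : Jt G P => (toLex (j.g, j.w) : G ×ₗ Gs G P)) := by
  rintro ⟨g, w⟩ ⟨g', w'⟩ h
  have h' : (g, w) = (g', w') := h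
  rw [Prod.mk.injEq] at h'
  rw [h'.1, h'.2]

noncomputable instance (G P : Type u) [LinearOrder G] : LinearOrder (Jt G P) :=
  LinearOrder.lift' (fun j : Jt G P => (toLex (j.g, j.w) : G ×ₗ Gs G P)) (Jt_inj G P)

instance (G P : Type u) [LinearOrder G] [WellFoundedLT G] : WellFoundedLT (Jt G P) :=
  ⟨InvImage.wf (fun j : Jt G P => (toLex (j.g, j.w) : G ×ₗ Gs G P))
    (wellFounded_lt : WellFounded ((· < ·) : G ×ₗ Gs G P → G ×ₗ Gs G P → Prop))⟩

theorem Jt_lt {G P : Type u} [LinearOrder G] {i j : Jt G P} (h : i.g < j.g) : i < j :=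
  Prod.Lex.lt_iff.2 (Or.inl h)

section
variable {G P : Type u} [LinearOrder G]

open Classical in
/-- the restriction of a guess to the coordinates `≤ g` -/
noncomputable def cut (g : G) (w : Gs G P) : Gs G P := ⟨fun g' m => if g' ≤ g then w.v g' m else ∅⟩

open Classical in
/-- the restriction of a guess to the first `n` points of the ladder -/
noncomputable def tn (n : ℕ) (w : Gs G P) : Gs G P := ⟨fun g' m => if m < n then w.v g' m else ∅⟩

/-- the branch of the guess `w` -/
noncomputable def br (w : Gs G P) (g : G) : Jt G P := ⟨g, cut g w⟩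

/-- the coordinates on which a coordinate of the tree depends -/
def pdT (G P : Type u) [LinearOrder G] (j : Jt G P) : Set (Jt G P) :=
  {i | i.g < j.g ∧ i.w = cut i.g j.w}

/-- the guesses for the first `n` points, at the point `m` for the coordinates in `A m` -/
def Ug (P : Type u) (A : ℕ → Set G) (n : ℕ) : Set (Gs G P) :=
  {w | ∀ g m, (w.v g m).Nonempty → m < n ∧ g ∈ A m}

omit [LinearOrder G] in
theorem Gs_ext {w w' : Gs G P} (h : ∀ g m, w.v g m = w'.v g m) : w = w' := by
  cases w; cases w'
  congr 1
  funext g m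
  exact h g m

theorem cut_cut {g g' : G} (h : g ≤ g') (w : Gs G P) : cut g (cut g' w) = cut g w := by
  refine Gs_ext fun x m => ?_
  unfold cut
  by_cases hx : x ≤ g
  · simp only [hx, hx.trans h, if_true]
  · simp only [hx, if_false]

theorem cut_tn (g : G) (n : ℕ) (w : Gs G P) : cut g (tn n w) = tn n (cut g w) := by
  refine Gs_ext fun x m => ?_
  unfold cut tn
  by_cases hx : x ≤ g <;> by_cases hm : m < n <;> simp only [hx, hm, if_true, if_false]

theorem br_inj (w : Gs G P) : Function.Injective (br w) := fun _ _ h => congrArg Jt.g h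

theorem pdT_br (w : Gs G P) (g : G) : pdT G P (br w g) = br w '' Set.Iio g := by
  ext i
  constructor
  · rintro ⟨h1, h2⟩
    refine ⟨i.g, h1, ?_⟩
    have h3 : i.w = cut i.g w := by
      rw [h2]
      exact cut_cut (le_of_lt h1) w
    cases i
    simp only at h3
    rw [h3]
    rfl
  · rintro ⟨g', h, rfl⟩
    refine ⟨h, ?_⟩
    exact (cut_cut (le_of_lt h) w).symm

theorem pdT_H : PdH (pdT G P) := by
  refine ⟨fun j i hi => Jt_lt hi.1, fun j i hi k hk => ⟨hk.1.trans hi.1, ?_⟩⟩
  rw [hk.2, hi.2]
  exact cut_cut hk.1.le _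

theorem br_DC (w : Gs G P) : DC (pdT G P) (Set.range (br w)) := by
  rintro _ ⟨g, rfl⟩
  rw [pdT_br]
  exact Set.image_subset_range _ _

end

section
variable {P K J J' : Type u} [LinearOrder K] {le : P → P → Prop} {lam : Cardinal.{u}}

/-- the condition on a set of coordinates, relabelled -/
def pull (f : J → J') (hf : Function.Injective f) (q : Cn le lam K J') : Cn le lam K J where
  h := q.h
  cl := q.cl
  s := q.s
  sp := f ⁻¹' q.sp
  F := fun g => q.F (f g)
  hcl := q.hcl
  clh := q.clh
  cld := q.cld
  sel := q.sel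
  inc := q.inc
  hs := q.hs
  hsp := (mk_preimage_of_injective f q.sp hf).trans q.hsp
  out := fun g ξ h => q.out (f g) ξ h
  lu := q.lu

/-- the condition, relabelled, with no other coordinates -/
def push (f : J → J') (q : Cn le lam K J) : Cn le lam K J' where
  h := q.h
  cl := q.cl
  s := q.s
  sp := f '' q.sp
  F := fun j ξ => {t | ∃ g, f g = j ∧ t ∈ q.F g ξ}
  hcl := q.hcl
  clh := q.clh
  cld := q.cld
  sel := q.sel
  inc := q.inc
  hs := q.hs
  hsp := mk_image_le.trans q.hsp
  out := by
    rintro j ξ ⟨t, g, rfl, ht⟩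
    exact ⟨⟨g, (q.out g ξ ⟨t, ht⟩).1, rfl⟩, (q.out g ξ ⟨t, ht⟩).2⟩
  lu := q.lu

theorem pull_push (f : J → J') (hf : Function.Injective f) (q : Cn le lam K J) :
    pull f hf (push f q) = q := by
  cases q with
  | mk h cl s sp F =>
    unfold pull push
    congr 1
    · exact Set.preimage_image_eq sp hf
    · funext g ξ
      ext t
      constructor
      · rintro ⟨g', hg', ht⟩
        rw [← hf hg']
        exact ht
      · intro ht
        exact ⟨g, rfl, ht⟩

end

section
variable {P K G : Type u} [LinearOrder K] [WellFoundedLT K] [LinearOrder G] [WellFoundedLT G]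
  {le : P → P → Prop} {lam : Cardinal.{u}}

/-- the condition on the branch `w` -/
noncomputable def pb (w : Gs G P) (q : Cn le lam K (Jt G P)) : Cn le lam K G :=
  pull (br w) (br_inj w) q

/-- the names of the colourings for trees of conditions -/
def eT (e : G → K × K → Set (P × Cn le lam K G)) (j : Jt G P) (x : K × K) :
    Set (P × Cn le lam K (Jt G P)) :=
  {z | Mem (Lx (pdI G) e (Set.Iio j.g)) (e j.g) x (z.1, pb j.w z.2)}

end

end Pool.Agent.UTop
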