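import Pool.Agent.Lib.UTop.Spl
import Pool.Agent.Lib.UTop.Ent
import Pool.Agent.Lib.UTop.Gnl

/-!
# Nxt: one step of the construction

PROOF. `spl` gives `Q1`. For `w ∈ Ug P A (n+1)`: `Ex univ (pb w Q1) (pb (tn n w) Q)` and `tn n w ∈ Ug P A n` (`tn_ug`), so `Ex univ (pb w Q1) p0`. `ent` with `Gd = Gn e C t0 Q.h` (`gn_mono`, `gn_ex`), `U = Ug P A (n+1)` (`ug_card`), gives `Q'` with `Ex (pdT G P) (eT e) univ Q' Q1`. By `tre_Ex`, `Ex_mono`: `Ex (pdI G) e univ (pb w Q') (pb w Q1)` for all `w`. Values: `g ∈ A n`,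
`br (tn n w) g ∈ Q.sp`, i.e. `g ∈ (pb (tn n w) Q).sp`, so `g ∈ (pb w Q1).sp` (first clause of `Cq`), and since `Q.h < Q1.h = (pb w Q1).h`, `Mem le ((pb w Q').F g) Q.h t ↔ Mem le ((pb w Q1).F g) Q.h t`, where `(pb w Q1).F g Q.h = w.v g n`.
-/

set_option autoImplicit false
universe u

namespace Pool.Agent.UTop

open Cardinal Pool.Agent.PolF

variable {P K G : Type u} [LinearOrder K] [WellFoundedLT K] [LinearOrder G] [WellFoundedLT G]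
  {le : P → P → Prop} {lam : Cardinal.{u}} {e : G → K × K → Set (P × Cn le lam K G)}
  {C : K → Set (P × Cn le lam K G)} {t0 : P} {p0 : Cn le lam K G}

theorem nxt (H : TopH le K lam)
    (hC : ∀ b : K, Exi (Lx (pdI G) e Set.univ)
      (fun y : {y : K // b < y} => Mem (Lx (pdI G) e Set.univ) C y.1) (t0, p0))
    {A : ℕ → Set G} {n : ℕ} (hA : ∀ m ≤ n, #(A m) < lam) (Q : Cn le lam K (Jt G P))
    (hQ : ∀ w ∈ Ug P A n, Ex (pdI G) e Set.univ (pb w Q) p0) :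
    ∃ Q' : Cn le lam K (Jt G P), Q.h < Q'.h ∧ Ex (pdT G P) (eT e) ∅ Q' Q ∧
      ∀ w ∈ Ug P A (n + 1), Ex (pdI G) e Set.univ (pb w Q') (pb (tn n w) Q) ∧
        Gn e C t0 Q.h (pb w Q') ∧ ∀ g ∈ A n, br (tn n w) g ∈ Q.sp →
          ∀ t, Mem le ((pb w Q').F g) Q.h t ↔ Mem le (fun _ : K => w.v g n) Q.h t := by
  obtain ⟨t00⟩ := H.ne
  have hDu : DC (pdI G) (Set.univ : Set G) := fun _ _ _ _ => Set.mem_univ _
  have hDe : DC (pdT G P) (∅ : Set (Jt G P)) := fun _ hg => absurd hg (Set.notMem_empty _)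
  obtain ⟨Q1, h1, h2, h3⟩ := spl (e := e) H (hA n le_rfl) Q
  have h4 : ∀ w ∈ Ug P A (n + 1), Ex (pdI G) e Set.univ (pb w Q1) p0 := fun w hw =>
    Ex_trans H pdI_H hDu ((h3 w hw).1 Set.univ) (hQ _ (tn_ug (Nat.le_succ n) hw))
  obtain ⟨Q', h5, h6⟩ := ent H (Gn e C t0 Q.h) p0 (fun p p' h hp => gn_mono H h hp)
    (fun p h => gn_ex H hC Q.h h) (Ug P A (n + 1))
    (ug_card H fun m hm => hA m (Nat.lt_succ_iff.1 hm)).le Q1 h4
  have h7 : Q1.h ≤ Q'.h := (h5.1 t00).1.1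
  refine ⟨Q', h1.trans_le h7, Ex_trans H pdT_H hDe (Ex_mono (Set.empty_subset _) h5) h2, ?_⟩
  intro w hw
  have h8 : Ex (pdI G) e Set.univ (pb w Q') (pb w Q1) :=
    (tre_Ex H w Set.univ Q' Q1).1 (Ex_mono (Set.subset_univ _) h5)
  refine ⟨Ex_trans H pdI_H hDu h8 ((h3 w hw).1 Set.univ), h6 w hw, fun g hg hgs t => ?_⟩
  have h9 : g ∈ (pb w Q1).sp :=
    ((((h3 w hw).1 Set.univ).1 t).2 g (Set.mem_univ g) hgs).1
  have h10 := ((h8.1 t).2 g (Set.mem_univ g) h9).2.1 Q.h h1 t (H.rf t)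
  refine h10.trans ?_
  unfold Mem
  rw [(h3 w hw).2 g hg hgs]

end Pool.Agent.UTop
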