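import Mathlib

/-!
# Rec: transfinite construction of chains

PROOF. Fix `z0 : Z` and define `F : T → Z` by `WellFounded.fix`: `F t` is the choice of some `z` with
`ok t z ∧ ∀ i < t, rel i (F i) z` if there is one, else `z0`. By well-founded induction on `t`:
`ok t (F t) ∧ ∀ i < t, rel i (F i) (F t)`, because `step t F` applies by the induction hypothesis.
-/

set_option autoImplicit false
universe u v

namespace Pool.Agent.UTop

theorem rec_chain {T : Type u} [LinearOrder T] [WellFoundedLT T] {Z : Type v} [Nonempty Z]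
    (ok : T → Z → Prop) (rel : T → Z → Z → Prop)
    (step : ∀ (t : T) (f : T → Z), (∀ i < t, ok i (f i)) →
      (∀ i j, i < j → j < t → rel i (f i) (f j)) → ∃ z, ok t z ∧ ∀ i < t, rel i (f i) z) :
    ∃ f : T → Z, (∀ t, ok t (f t)) ∧ ∀ i j, i < j → rel i (f i) (f j) := by
  classical
  obtain ⟨z0⟩ := ‹Nonempty Z›
  let wf : WellFounded (fun a b : T => a < b) := wellFounded_lt
  let G : (t : T) → ((i : T) → i < t → Z) → Z := fun t g =>
    if h : ∃ z, ok t z ∧ ∀ (i : T) (hi : i < t), rel i (g i hi) z then h.choose else z0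
  let f : T → Z := wf.fix G
  have hf : ∀ t, f t = G t (fun i _ => f i) := fun t => wf.fix_eq G t
  have key : ∀ t, (ok t (f t) ∧ ∀ i < t, rel i (f i) (f t)) := by
    intro t
    induction t using wf.induction with
    | _ t ih =>
      have h1 : ∃ z, ok t z ∧ ∀ i < t, rel i (f i) z :=
        step t f (fun i hi => (ih i hi).1) (fun i j hij hj => (ih j hj).2 i hij)
      have h2 : ∃ z, ok t z ∧ ∀ (i : T) (_ : i < t), rel i (f i) z := h1
      have h3 : f t = h2.choose := by
        rw [hf]
        exact dif_pos h2
      rw [h3]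
      exact h2.choose_spec
  exact ⟨f, fun t => (key t).1, fun i j hij => (key j).2 i hij⟩

end Pool.Agent.UTop
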