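import Pool.Agent.Lib.UTop.Dec

/-!
# Rnd: deciding the colouring at all selected ladders

PROOF. Let `r 0 = r`, and `r (k+1)` given by `dec` (with `X = pd g`, the name `e g`, `Y0 = {y | ∃ δ a n, ((r k).s (δ, a)).Nonempty ∧ y = (δ, a n)}`, the image of `{x // ((r k).s x).Nonempty} × ℕ`, of size `≤ lam` by `hs`, `H.inf`),
for `Z`: `Ex pd e Z (r (k+1)) (r k)`. `cls` for `T = ULift ℕ`, `Y = fun _ => Z` gives `r'` with `Ex pd e Z r' (r k)` for all `k`, and every `x < r'.h` is `< (r k).h` for some `k`. If `t0 ∈ r'.s (δ, a)`, then `δ < r'.h` (`mem_sel`),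
so `δ < (r k).h` for some `k`, and `Mem le (r k).s (δ, a) t0` (`Bq r' (r k) t0`), so `((r k).s (δ, a)).Nonempty`, and `(δ, a n)` is decided by `r (k+1)`, and by `r'` (`Dd_open`, `Lq_mono hgZ`). (`DC pd (pd g)` by `hpd.tr`.)
`rnd` returns `r'` with `Ex pd e Z r' r` as `r = r 0`.
-/

set_option autoImplicit false
universe u

namespace Pool.Agent.UTop

open Cardinal Pool.Agent.PolF

variable {P K J : Type u} [LinearOrder K] [WellFoundedLT K] [LinearOrder J] [WellFoundedLT J]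
  {le : P → P → Prop} {lam : Cardinal.{u}} {pd : J → Set J}
  {e : J → K × K → Set (P × Cn le lam K J)}

private theorem rnd_step (H : TopH le K lam) (hpd : PdH pd) {Z : Set J} (hZ : DC pd Z) {g : J}
    (hgZ : pd g ⊆ Z) (hA : AM pd e (pd g) Z) (b : Cn le lam K J) :
    ∃ a : Cn le lam K J, Ex pd e Z a b ∧ ∀ (δ : K) (l : ℕ → K) (n : ℕ),
      (b.s (δ, l)).Nonempty → ∀ t, ∃ t', le t' t ∧ Dd pd e (pd g) (e g) (δ, l n) (t', a) := by
  have hdc : DC pd (pd g) := fun i hi => hpd.tr g i hi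
  let f : {x // (b.s x).Nonempty} × ULift.{u} ℕ → K × K := fun z => (z.1.1.1, z.1.1.2 z.2.down)
  have hY0 : #(Set.range f) ≤ lam := by
    refine Cardinal.mk_range_le.trans ?_
    rw [Cardinal.mk_prod, Cardinal.lift_id, Cardinal.lift_id]
    calc #{x // (b.s x).Nonempty} * #(ULift.{u} ℕ) ≤ lam * lam := by
          refine mul_le_mul' b.hs ?_
          rw [Cardinal.mk_uLift, Cardinal.mk_nat, Cardinal.lift_aleph0]
          exact H.inf.le
      _ = lam := Cardinal.mul_eq_self H.inf.le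
  obtain ⟨a, h1, h2⟩ := dec H hpd hdc hZ hgZ hA (e g) (Set.range f) hY0 b
  refine ⟨a, h1, fun δ l n hn t => ?_⟩
  exact h2 (δ, l n) ⟨(⟨(δ, l), hn⟩, ⟨n⟩), rfl⟩ t

theorem rnd (H : TopH le K lam) (hpd : PdH pd) {Z : Set J} (hZ : DC pd Z) {g : J}
    (hgZ : pd g ⊆ Z) (hA : AM pd e (pd g) Z) (r : Cn le lam K J) :
    ∃ r' : Cn le lam K J, Ex pd e Z r' r ∧ ∀ δ a, (r'.s (δ, a)).Nonempty → ∀ (n : ℕ) t,
      ∃ t', le t' t ∧ Dd pd e (pd g) (e g) (δ, a n) (t', r') := by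
  choose st hst1 hst2 using rnd_step (e := e) H hpd hZ hgZ hA
  let R : ℕ → Cn le lam K J := fun k => st^[k] r
  have hR : ∀ k, R (k + 1) = st (R k) := fun k => Function.iterate_succ_apply' st k r
  have hmono : ∀ i j, i ≤ j → Ex pd e Z (R j) (R i) := by
    intro i j hij
    induction j, hij using Nat.le_induction with
    | base => exact Ex_refl H _ _
    | succ j _ ih => exact Ex_trans H hpd hZ (by rw [hR]; exact hst1 _) ih
  have hT : #(ULift.{u} ℕ) ≤ lam := by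
    rw [Cardinal.mk_uLift, Cardinal.mk_nat, Cardinal.lift_aleph0]
    exact H.inf.le
  obtain ⟨r', h1, h2⟩ := cls (e := e) H hpd hT (fun i => R i.down) (fun _ => Z) (fun _ => hZ)
    (fun i j => by
      rcases le_total i.down j.down with h | h
      · exact Or.inl ⟨subset_rfl, hmono _ _ h⟩
      · exact Or.inr ⟨subset_rfl, hmono _ _ h⟩)
  refine ⟨r', h1 ⟨0⟩, ?_⟩
  intro δ a hne n t
  obtain ⟨t0, ht0⟩ := hne
  obtain ⟨-, -, hδ, -⟩ := r'.sel δ a ⟨t0, ht0⟩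
  obtain ⟨i, hi⟩ := h2 δ hδ
  have hm : Mem le r'.s (δ, a) t0 := fun q hq => ⟨q, H.rf q, t0, ht0, hq⟩
  have hm2 : Mem le (R i.down).s (δ, a) t0 :=
    (((h1 i).1 t0).1.2 δ hi.le a t0 (H.rf _)).1 hm
  obtain ⟨q2, -, b, hb, -⟩ := hm2 t0 (H.rf _)
  obtain ⟨t', ht', hd⟩ := hst2 (R i.down) δ a n ⟨b, hb⟩ t
  refine ⟨t', ht', ?_⟩
  rw [← hR] at hd
  exact Dd_open H hpd (fun i hi => hpd.tr g i hi) ⟨H.rf t', Lq_mono hgZ ((h1 ⟨i.down + 1⟩).1 t')⟩ hd

end Pool.Agent.UTop
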