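import Pool.Agent.Lib.UTop.Jdf

/-!
# Ucd: there are fewer than `lam` guesses

PROOF. `fn_card`: such an `f` is determined by the set `{(g, x) | x ∈ f g}`, a subset of `B × P`: at most `2 ^ (#B * #P) < lam` (`H.sl`, `Cardinal.mul_lt_of_lt`). `ug_card`: induction on `n`. `Ug P A 0` has at most one element. `w ↦ (tn n w, w.v · n)` is injective on `Ug P A (n+1)`, with values in `Ug P A n` and in the set of
`fn_card` for `B = A n`; the product of two cardinals `< lam` is `< lam`. `tn_ug`: definitions. `lev_card`: `j ↦ (⟨j.g, tn n j.w⟩, j.w.v · n)` is injective on the set.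
-/

set_option autoImplicit false
universe u

namespace Pool.Agent.UTop

open Cardinal Pool.Agent.PolF

variable {P K G : Type u} [LinearOrder K] [LinearOrder G] {le : P → P → Prop}
  {lam : Cardinal.{u}}

omit [LinearOrder G] in
theorem fn_card (H : TopH le K lam) {B : Set G} (hB : #B < lam) :
    #{f : G → Set P // ∀ g, (f g).Nonempty → g ∈ B} < lam := by
  refine lt_of_le_of_lt ?_ (H.sl (#B * #P) (Cardinal.mul_lt_of_lt H.inf.le hB H.hP))
  have e : (2 : Cardinal.{u}) ^ (#B * #P) = #(Set (B × P)) := by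
    rw [Cardinal.mk_set, Cardinal.mk_prod, Cardinal.lift_id, Cardinal.lift_id]
  rw [e]
  refine Cardinal.mk_le_of_injective
    (f := fun f : {f : G → Set P // ∀ g, (f g).Nonempty → g ∈ B} =>
      ({z | z.2 ∈ f.1 z.1.1} : Set (B × P))) ?_
  rintro ⟨f, hf⟩ ⟨f', hf'⟩ h
  apply Subtype.ext
  funext g
  ext x
  have h1 : ∀ (hg : g ∈ B), x ∈ f g ↔ x ∈ f' g := by
    intro hg
    have h2 := congrArg (fun s : Set (B × P) => (⟨⟨g, hg⟩, x⟩ : B × P) ∈ s) h
    exact iff_of_eq h2
  constructor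
  · intro hx
    exact (h1 (hf g ⟨x, hx⟩)).1 hx
  · intro hx
    exact (h1 (hf' g ⟨x, hx⟩)).2 hx

omit [LinearOrder G] in
private theorem ucd_tn {n m : ℕ} (h : m < n) (w : Gs G P) (g : G) : (tn n w).v g m = w.v g m := by
  unfold tn
  simp only [if_pos h]

omit [LinearOrder G] in
private theorem ucd_tn_not {n m : ℕ} (h : ¬ m < n) (w : Gs G P) (g : G) : (tn n w).v g m = ∅ := by
  unfold tn
  simp only [if_neg h]

omit [LinearOrder G] in
theorem tn_ug {A : ℕ → Set G} {n m : ℕ} (h : n ≤ m) {w : Gs G P} (hw : w ∈ Ug P A m) :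
    tn n w ∈ Ug P A n := by
  intro g k hk
  by_cases hkn : k < n
  · rw [ucd_tn hkn] at hk
    exact ⟨hkn, (hw g k hk).2⟩
  · rw [ucd_tn_not hkn] at hk
    exact absurd hk Set.not_nonempty_empty

omit [LinearOrder G] in
/-- a guess for `n + 1` points is determined by the first `n` points and the last point -/
private theorem ucd_ext {A : ℕ → Set G} {n : ℕ} {w w' : Gs G P} (hw : w ∈ Ug P A (n + 1))
    (hw' : w' ∈ Ug P A (n + 1)) (h1 : tn n w = tn n w') (h2 : ∀ g, w.v g n = w'.v g n) :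
    w = w' := by
  refine Gs_ext fun g m => ?_
  rcases lt_trichotomy m n with h | h | h
  · rw [← ucd_tn h w g, ← ucd_tn h w' g, h1]
  · rw [h]
    exact h2 g
  · have h3 : ∀ v : Gs G P, v ∈ Ug P A (n + 1) → v.v g m = ∅ := by
      intro v hv
      by_contra hne
      have h4 := (hv g m (Set.nonempty_iff_ne_empty.2 hne)).1
      omega
    rw [h3 w hw, h3 w' hw']

omit [LinearOrder G] in
theorem ug_card (H : TopH le K lam) {A : ℕ → Set G} {n : ℕ} (hA : ∀ m < n, #(A m) < lam) :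
    #(Ug P A n) < lam := by
  induction n with
  | zero =>
    have hs : Subsingleton (Ug P A 0) := by
      refine ⟨fun a b => Subtype.ext (Gs_ext fun g m => ?_)⟩
      have h3 : ∀ v : Ug P A 0, v.1.v g m = ∅ := by
        intro v
        by_contra hne
        exact absurd (v.2 g m (Set.nonempty_iff_ne_empty.2 hne)).1 (Nat.not_lt_zero _)
      rw [h3 a, h3 b]
    exact lt_of_le_of_lt (Cardinal.le_one_iff_subsingleton.2 hs)
      (lt_trans Cardinal.one_lt_aleph0 H.inf)
  | succ n ih =>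
    have h1 := ih (fun m hm => hA m (hm.trans (Nat.lt_succ_self n)))
    have h2 := fn_card H (hA n (Nat.lt_succ_self n))
    refine lt_of_le_of_lt ?_ (Cardinal.mul_lt_of_lt H.inf.le h1 h2)
    have e : #(Ug P A n) * #{f : G → Set P // ∀ g, (f g).Nonempty → g ∈ A n} =
        #((Ug P A n) × {f : G → Set P // ∀ g, (f g).Nonempty → g ∈ A n}) := by
      rw [Cardinal.mk_prod, Cardinal.lift_id, Cardinal.lift_id]
    rw [e]
    refine Cardinal.mk_le_of_injective (f := fun w : Ug P A (n + 1) =>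
      ((⟨tn n w.1, tn_ug (Nat.le_succ n) w.2⟩ : Ug P A n),
        (⟨fun g => w.1.v g n, fun g hg => (w.2 g n hg).2⟩ :
          {f : G → Set P // ∀ g, (f g).Nonempty → g ∈ A n}))) ?_
    intro w w' h
    rw [Prod.mk.injEq] at h
    exact Subtype.ext (ucd_ext w.2 w'.2 (congrArg Subtype.val h.1)
      (fun g => congrFun (congrArg Subtype.val h.2) g))

omit [LinearOrder G] in
theorem lev_card (H : TopH le K lam) {A : ℕ → Set G} {n : ℕ} (hA : #(A n) < lam)
    {S : Set (Jt G P)} (hS : #S ≤ lam) :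
    #{j : Jt G P | (⟨j.g, tn n j.w⟩ : Jt G P) ∈ S ∧ j.w ∈ Ug P A (n + 1)} ≤ lam := by
  have h2 := (fn_card H hA).le
  refine le_trans ?_ (Cardinal.mul_le_of_le H.inf.le hS h2)
  have e : #S * #{f : G → Set P // ∀ g, (f g).Nonempty → g ∈ A n} =
      #(S × {f : G → Set P // ∀ g, (f g).Nonempty → g ∈ A n}) := by
    rw [Cardinal.mk_prod, Cardinal.lift_id, Cardinal.lift_id]
  rw [e]
  refine Cardinal.mk_le_of_injective
    (f := fun j : {j : Jt G P | (⟨j.g, tn n j.w⟩ : Jt G P) ∈ S ∧ j.w ∈ Ug P A (n + 1)} =>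
      ((⟨⟨j.1.g, tn n j.1.w⟩, j.2.1⟩ : S),
        (⟨fun g => j.1.w.v g n, fun g hg => (j.2.2 g n hg).2⟩ :
          {f : G → Set P // ∀ g, (f g).Nonempty → g ∈ A n}))) ?_
  rintro ⟨⟨g, w⟩, h1, h2⟩ ⟨⟨g', w'⟩, h1', h2'⟩ h
  rw [Prod.mk.injEq] at h
  have h3 := congrArg Subtype.val h.1
  have h4 : g = g' := congrArg Jt.g h3
  have h5 : tn n w = tn n w' := congrArg Jt.w h3
  have h6 : w = w' := ucd_ext h2 h2' h5 (fun x => congrFun (congrArg Subtype.val h.2) x)
  subst h4
  subst h6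
  rfl

end Pool.Agent.UTop
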