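import Pool.Agent.Lib.UTop.Tre
import Pool.Agent.Lib.UTop.Ucd

/-!
# Spl: splitting a tree of conditions

PROOF. `h' > Q.h` by `H.bdd {Q.h}`. Let `sp' = {j | ⟨j.g, tn n j.w⟩ ∈ Q.sp ∧ j.w ∈ Ug P A (n+1)}` (`#sp' ≤ lam` by `lev_card`), `F' j ξ = ∅` if `j ∉ sp'`; for `j ∈ sp'`: `Q.F ⟨j.g, tn n j.w⟩ ξ` if `ξ < Q.h`; if `ξ = Q.h`: `j.w.v j.g n` if `j.g ∈ A n`, else `∅`; `∅` if `Q.h < ξ`. `Q' = {Q with h := h', cl := Q.cl ∪ {h'}, sp := sp', F := F'}` (`sel`, `cld` as in `Hgt.lean`).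
Let `w ∈ Ug P A (n+1)`. `(pb w Q').sp = {g | br w g ∈ sp'}`; `br w g = ⟨g, cut g w⟩`, `⟨g, tn n (cut g w)⟩ = br (tn n w) g` (`cut_tn`), `cut g w ∈ Ug P A (n+1)`; so `br w g ∈ sp' ↔ br (tn n w) g ∈ Q.sp`. For `ξ < Q.h`, `(pb w Q').F g ξ = (pb (tn n w) Q).F g ξ` (if `br (tn n w) g ∉ Q.sp` both are `∅` by `out`), and
`(pb w Q').F g Q.h = (cut g w).v g n = w.v g n` for `g ∈ A n`, `br (tn n w) g ∈ Q.sp`. So `Ex (pdI G) e X (pb w Q') (pb (tn n w) Q)`: `s` is the same, hence the third clause of `Cq` is void (`mem_sel` for `Q`), `cl` as in `Hgt.lean`. The same for `Ex (pdT G P) (eT e) ∅ Q' Q`.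
-/

set_option autoImplicit false
universe u

namespace Pool.Agent.UTop

open Cardinal Pool.Agent.PolF

variable {P K G : Type u} [LinearOrder K] [WellFoundedLT K] [LinearOrder G] [WellFoundedLT G]
  {le : P → P → Prop} {lam : Cardinal.{u}} {e : G → K × K → Set (P × Cn le lam K G)}

theorem spl (H : TopH le K lam) {A : ℕ → Set G} {n : ℕ} (hA : #(A n) < lam)
    (Q : Cn le lam K (Jt G P)) : ∃ Q' : Cn le lam K (Jt G P), Q.h < Q'.h ∧
      Ex (pdT G P) (eT e) ∅ Q' Q ∧ ∀ w ∈ Ug P A (n + 1),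
        (∀ X, Ex (pdI G) e X (pb w Q') (pb (tn n w) Q)) ∧
        ∀ g ∈ A n, br (tn n w) g ∈ Q.sp → (pb w Q').F g Q.h = w.v g n := by
  classical
  have hfin : #({Q.h} : Set K) ≤ lam :=
    (Cardinal.lt_aleph0_of_finite _).le.trans H.inf.le
  obtain ⟨h', hh'⟩ := H.bdd {Q.h} hfin
  have hq : Q.h < h' := hh' Q.h rfl
  let up : Jt G P → Jt G P := fun j => ⟨j.g, tn n j.w⟩
  let sp' : Set (Jt G P) := {j | up j ∈ Q.sp ∧ j.w ∈ Ug P A (n + 1)}
  let F' : Jt G P → K → Set P := fun j ξ =>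
    if j ∈ sp' then (if ξ < Q.h then Q.F (up j) ξ else if ξ = Q.h then j.w.v j.g n else ∅)
    else ∅
  have hF1 : ∀ j ξ, j ∈ sp' → ξ < Q.h → F' j ξ = Q.F (up j) ξ := by
    intro j ξ h1 h2
    change (if j ∈ sp' then _ else _) = _
    rw [if_pos h1, if_pos h2]
  have hF2 : ∀ j, j ∈ sp' → F' j Q.h = j.w.v j.g n := by
    intro j h1
    change (if j ∈ sp' then _ else _) = _
    rw [if_pos h1, if_neg (lt_irrefl _), if_pos rfl]
  have hout : ∀ j ξ, (F' j ξ).Nonempty → j ∈ sp' ∧ ξ < h' := by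
    intro j ξ h1
    have h2 : (if j ∈ sp' then (if ξ < Q.h then Q.F (up j) ξ else
      if ξ = Q.h then j.w.v j.g n else ∅) else ∅ : Set P).Nonempty := h1
    by_cases h3 : j ∈ sp'
    · refine ⟨h3, ?_⟩
      rw [if_pos h3] at h2
      by_cases h4 : ξ < Q.h
      · exact h4.trans hq
      · rw [if_neg h4] at h2
        by_cases h5 : ξ = Q.h
        · rw [h5]; exact hq
        · rw [if_neg h5] at h2
          exact absurd h2 Set.not_nonempty_empty
    · rw [if_neg h3] at h2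
      exact absurd h2 Set.not_nonempty_empty
  let Q' : Cn le lam K (Jt G P) :=
    { Q with
      h := h'
      cl := Q.cl ∪ {h'}
      sp := sp'
      F := F'
      hcl := Or.inr rfl
      clh := by
        rintro x (hx | hx)
        · exact (Q.clh x hx).trans hq.le
        · exact (Set.mem_singleton_iff.1 hx).le
      cld := by
        intro x hx hy
        rcases le_or_gt x h' with hxh | hxh
        · refine Or.inl (Q.cld x hx fun y hyx => ?_)
          obtain ⟨z, hz, hyz, hzx⟩ := hy y hyx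
          rcases hz with hz | hz
          · exact ⟨z, hz, hyz, hzx⟩
          · rw [Set.mem_singleton_iff.1 hz] at hzx
            exact absurd (lt_of_lt_of_le hzx hxh) (lt_irrefl _)
        · obtain ⟨z, hz, hyz, hzx⟩ := hy h' hxh
          rcases hz with hz | hz
          · exact absurd (hyz.trans_le ((Q.clh z hz).trans hq.le)) (lt_irrefl _)
          · rw [Set.mem_singleton_iff.1 hz] at hyz
            exact absurd hyz (lt_irrefl _)
      sel := by
        intro δ a hs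
        obtain ⟨h1, h2, h3, h4⟩ := Q.sel δ a hs
        refine ⟨h1, h2, h3.trans hq, ?_⟩
        rintro (h | h)
        · exact h4 h
        · rw [Set.mem_singleton_iff.1 h] at h3
          exact absurd (h3.trans hq) (lt_irrefl _)
      hsp := lev_card H hA Q.hsp
      out := hout }
  have hcl : ∀ x ≤ Q.h, x ∈ Q.cl ∪ {h'} ↔ x ∈ Q.cl := by
    intro x hx
    refine ⟨?_, fun h => Or.inl h⟩
    rintro (h | h)
    · exact h
    · rw [Set.mem_singleton_iff.1 h] at hx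
      exact absurd (hq.trans_le hx) (lt_irrefl _)
  have hbr : ∀ (w : Gs G P) (g : G), up (br w g) = br (tn n w) g := by
    intro w g
    change (⟨g, tn n (cut g w)⟩ : Jt G P) = ⟨g, cut g (tn n w)⟩
    rw [cut_tn]
  have hcut : ∀ w ∈ Ug P A (n + 1), ∀ g, cut g w ∈ Ug P A (n + 1) := by
    intro w hw g g' m hne
    refine hw g' m ?_
    have h1 : (if g' ≤ g then w.v g' m else ∅ : Set P).Nonempty := hne
    by_cases h2 : g' ≤ g
    · rwa [if_pos h2] at h1
    · rw [if_neg h2] at h1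
      exact absurd h1 Set.not_nonempty_empty
  have hsp : ∀ w ∈ Ug P A (n + 1), ∀ g, br (tn n w) g ∈ Q.sp → br w g ∈ sp' := by
    intro w hw g hg
    refine ⟨?_, hcut w hw g⟩
    rw [hbr w g]
    exact hg
  refine ⟨Q', hq, ⟨fun t => ⟨⟨hq.le, fun δ _ a s _ => Iff.rfl⟩, fun i hi _ => absurd hi
    (Set.notMem_empty i)⟩, hcl⟩, fun w hw => ⟨fun X => ⟨fun t => ⟨⟨hq.le, fun δ _ a s _ => Iff.rfl⟩,
    fun i _ hi => ⟨hsp w hw i hi, fun ξ hξ s _ => ?_, fun δ a hδ s _ hm => ?_⟩⟩, hcl⟩,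
    fun g _ hg => ?_⟩⟩
  · have h1 : (pb w Q').F i ξ = (pb (tn n w) Q).F i ξ := by
      change F' (br w i) ξ = Q.F (br (tn n w) i) ξ
      rw [hF1 _ _ (hsp w hw i hi) hξ, hbr]
    unfold Mem
    rw [h1]
  · have hm' : Mem le Q.s (δ, a) s := hm
    exact absurd hδ (lt_asymm (mem_sel H hm').2.2.1)
  · change F' (br w g) Q.h = w.v g n
    rw [hF2 _ (hsp w hw g hg)]
    change (if g ≤ g then w.v g n else ∅) = w.v g n
    rw [if_pos le_rfl]

end Pool.Agent.UTop
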