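import Pool.Agent.Lib.UTop.Nxt

/-!
# Sqn: the sequence of trees of conditions

PROOF. (0) For every `Q : Cn le lam K (Jt G P)` there is `b : ℕ → Set G`, increasing, with `#(b m) < lam` and `∀ j ∈ Q.sp, ∃ m, j.g ∈ b m`: with `l` as in `H.cof`, `lam ≤ Cardinal.sum l` (otherwise `c = ⨆ n, l n < lam`, `succ c ≤ 2 ^ c < lam` by `H.sl`, against `H.cof`); `S = Jt.g '' Q.sp` has size `≤ lam`, so there is an injection `φ`
of `S` into `Σ n, (l n).out` (`Cardinal.mk_sigma`); `b m` = the set of the `g ∈ S` with `(φ g).1 ≤ m`, of size at most the finite sum of the `l n`, `n ≤ m`, so `< lam` (`Cardinal.add_lt_of_lt`). Choose such a function `pc : Cn .. → ℕ → Set G` (`choose`).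
Recursion on `n`: states `(Q, A, b)` with `A, b : ℕ → Set G`; invariant at `n`: `∀ m, #(A m) < lam`; `b` increasing, `∀ m, #(b m) < lam`; `∀ j ∈ Q.sp, ∃ m, j.g ∈ b m`; `∀ w ∈ Ug P A n, Ex (pdI G) e univ (pb w Q) p0`. Start: `Q0 = push (br ⟨fun _ _ => ∅⟩) p0`, `A = fun _ => ∅`, `b = pc Q0` (`Ug P A 0` contains only `⟨fun _ _ => ∅⟩`, `pull_push`, `Ex_refl`). Step: `A' = Function.update A n (b n)`,
`Q'` from `nxt` for `A'`, `n`, `Q` (`Ug P A' n = Ug P A n`), `b' m = b m ∪ pc Q' m`. (The invariant at `n+1`: `Ex_trans` with `tn n w ∈ Ug P A n`.) Let `(Q n, A n, b n)` be the sequence (e.g. by `Nat.rec` on the subtype of the states with the invariant), `A∞ m = A (m+1) m = b m m`. `A n` and `A∞` agree below `n`, so `Ug P (A n) n = Ug P A∞ n`, `Ug P (A (n+1)) (n+1) = Ug P A∞ (n+1)`.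
`cov`: `j.g ∈ b n m1` for some `m1`; for `m ≥ max n m1`: `j.g ∈ b n m ⊆ b m m = A∞ m`.
-/

set_option autoImplicit false
universe u

namespace Pool.Agent.UTop

open Cardinal Pool.Agent.PolF

variable {P K G : Type u} [LinearOrder K] [WellFoundedLT K] [LinearOrder G] [WellFoundedLT G]
  {le : P → P → Prop} {lam : Cardinal.{u}}

/-- the sequence of trees of conditions for the stationarity argument -/
structure TrS (e : G → K × K → Set (P × Cn le lam K G)) (C : K → Set (P × Cn le lam K G)) (t0 : P)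
    (p0 : Cn le lam K G) (Q : ℕ → Cn le lam K (Jt G P)) (A : ℕ → Set G) : Prop where
  lt : ∀ n, (Q n).h < (Q (n + 1)).h
  ex : ∀ n, Ex (pdT G P) (eT e) ∅ (Q (n + 1)) (Q n)
  base : ∀ n, ∀ w ∈ Ug P A n, Ex (pdI G) e Set.univ (pb w (Q n)) p0
  step : ∀ n, ∀ w ∈ Ug P A (n + 1), Ex (pdI G) e Set.univ (pb w (Q (n + 1))) (pb (tn n w) (Q n))
  gn : ∀ n, ∀ w ∈ Ug P A (n + 1), Gn e C t0 (Q n).h (pb w (Q (n + 1)))
  val : ∀ n, ∀ w ∈ Ug P A (n + 1), ∀ g ∈ A n, br (tn n w) g ∈ (Q n).sp →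
    ∀ t, Mem le ((pb w (Q (n + 1))).F g) (Q n).h t ↔ Mem le (fun _ : K => w.v g n) (Q n).h t
  cov : ∀ n, ∀ j ∈ (Q n).sp, ∃ m0, ∀ m, m0 ≤ m → j.g ∈ A m

private theorem seq_ex {S : Type*} (I : ℕ → S → Prop) (R : ℕ → S → S → Prop) (s0 : S)
    (h0 : I 0 s0) (hs : ∀ n s, I n s → ∃ s', I (n + 1) s' ∧ R n s s') :
    ∃ f : ℕ → S, (∀ n, I n (f n)) ∧ ∀ n, R n (f n) (f (n + 1)) := by
  have _ : Nonempty S := ⟨s0⟩
  choose! F hF using hs
  let f : ℕ → S := fun n => Nat.rec s0 (fun n s => F n s) n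
  have hI : ∀ n, I n (f n) := by
    intro n
    induction n with
    | zero => exact h0
    | succ n ih => exact (hF n _ ih).1
  exact ⟨f, hI, fun n => (hF n _ (hI n)).2⟩

private theorem pc_ex (H : TopH le K lam) (S : Set G) (hS : #S ≤ lam) :
    ∃ b : ℕ → Set G, (∀ m, #(b m) < lam) ∧ Monotone b ∧ ∀ g ∈ S, ∃ m, g ∈ b m := by
  obtain ⟨l, hl, hl'⟩ := H.cof
  have h1 : lam ≤ Cardinal.sum l := by
    by_contra hc
    push Not at hc
    have h2 : Order.succ (Cardinal.sum l) < lam :=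
      lt_of_le_of_lt (Order.succ_le_of_lt (Cardinal.cantor _)) (H.sl _ hc)
    obtain ⟨n, hn⟩ := hl' _ h2
    exact absurd (hn.trans (Cardinal.le_sum l n)) (not_le.2 (Order.lt_succ _))
  have h2 : #S ≤ #(Σ n, (l n).out) := by
    rw [Cardinal.mk_sigma]
    simp only [Cardinal.mk_out]
    exact hS.trans h1
  obtain ⟨φ⟩ := h2
  let T : ℕ → Set G := fun n => {g | ∃ x : (l n).out, ∃ h : g ∈ S, φ ⟨g, h⟩ = ⟨n, x⟩}
  have hT : ∀ n, #(T n) < lam := by
    intro n
    refine lt_of_le_of_lt ?_ (hl n)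
    rw [← Cardinal.mk_out (l n)]
    have h3 : ∀ g : T n, ∃ x : (l n).out, ∃ h : g.1 ∈ S, φ ⟨g.1, h⟩ = ⟨n, x⟩ := fun g => g.2
    choose x hx hφx using h3
    refine Cardinal.mk_le_of_injective (f := x) ?_
    intro g g' hg
    have h4 := hφx g
    rw [hg] at h4
    have h5 := φ.injective (h4.trans (hφx g').symm)
    have h6 := congrArg Subtype.val h5
    exact Subtype.ext h6
  refine ⟨fun m => {g | ∃ n ≤ m, g ∈ T n}, ?_, ?_, ?_⟩
  · intro m
    induction m with
    | zero =>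
      refine lt_of_le_of_lt (Cardinal.mk_le_mk_of_subset ?_) (hT 0)
      rintro g ⟨n, hn, hg⟩
      rw [Nat.le_zero.1 hn] at hg
      exact hg
    | succ m ih =>
      have h3 : {g | ∃ n ≤ m + 1, g ∈ T n} ⊆ {g | ∃ n ≤ m, g ∈ T n} ∪ T (m + 1) := by
        rintro g ⟨n, hn, hg⟩
        rcases Nat.lt_or_ge m n with h | h
        · have h4 : n = m + 1 := le_antisymm hn h
          rw [h4] at hg
          exact Or.inr hg
        · exact Or.inl ⟨n, h, hg⟩
      refine lt_of_le_of_lt ((Cardinal.mk_le_mk_of_subset h3).trans (Cardinal.mk_union_le _ _)) ?_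
      exact Cardinal.add_lt_of_lt H.inf.le ih (hT (m + 1))
  · intro m m' hm g hg
    obtain ⟨n, hn, hg⟩ := hg
    exact ⟨n, hn.trans hm, hg⟩
  · intro g hg
    exact ⟨(φ ⟨g, hg⟩).1, (φ ⟨g, hg⟩).1, le_rfl, (φ ⟨g, hg⟩).2, hg, rfl⟩

private theorem Ug_congr {A A' : ℕ → Set G} {n : ℕ} (h : ∀ m < n, A m = A' m) :
    Ug P A n = Ug P A' n := by
  ext w
  constructor
  · intro hw g m hm
    obtain ⟨h1, h2⟩ := hw g m hm
    exact ⟨h1, h m h1 ▸ h2⟩
  · intro hw g m hm
    obtain ⟨h1, h2⟩ := hw g m hm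
    exact ⟨h1, (h m h1).symm ▸ h2⟩

private theorem Ug_tn {A : ℕ → Set G} {n : ℕ} {w : Gs G P} (hw : w ∈ Ug P A (n + 1)) :
    tn n w ∈ Ug P A n := by
  intro g m hm
  unfold tn at hm
  by_cases h : m < n
  · simp only [if_pos h] at hm
    exact ⟨h, (hw g m hm).2⟩
  · simp only [if_neg h] at hm
    exact absurd hm Set.not_nonempty_empty

/-- the states of the construction -/
private structure St (P K G : Type u) [LinearOrder K] [LinearOrder G] (le : P → P → Prop)
    (lam : Cardinal.{u}) where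
  q : Cn le lam K (Jt G P)
  a : ℕ → Set G
  b : ℕ → Set G

private def SI (e : G → K × K → Set (P × Cn le lam K G)) (p0 : Cn le lam K G) (n : ℕ)
    (s : St P K G le lam) : Prop :=
  (∀ m, #(s.a m) < lam) ∧ (∀ m, #(s.b m) < lam) ∧ Monotone s.b ∧
    (∀ j ∈ s.q.sp, ∃ m, j.g ∈ s.b m) ∧
    ∀ w ∈ Ug P s.a n, Ex (pdI G) e Set.univ (pb w s.q) p0

private def SR (e : G → K × K → Set (P × Cn le lam K G)) (C : K → Set (P × Cn le lam K G)) (t0 : P)
    (n : ℕ) (s s' : St P K G le lam) : Prop :=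
  s'.a = Function.update s.a n (s.b n) ∧ (∀ m, s.b m ⊆ s'.b m) ∧ s.q.h < s'.q.h ∧
    Ex (pdT G P) (eT e) ∅ s'.q s.q ∧
    ∀ w ∈ Ug P s'.a (n + 1), Ex (pdI G) e Set.univ (pb w s'.q) (pb (tn n w) s.q) ∧
      Gn e C t0 s.q.h (pb w s'.q) ∧ ∀ g ∈ s'.a n, br (tn n w) g ∈ s.q.sp →
        ∀ t, Mem le ((pb w s'.q).F g) s.q.h t ↔ Mem le (fun _ : K => w.v g n) s.q.h t

theorem sqn (H : TopH le K lam) {e : G → K × K → Set (P × Cn le lam K G)}
    {C : K → Set (P × Cn le lam K G)} {t0 : P} {p0 : Cn le lam K G}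
    (hC : ∀ b : K, Exi (Lx (pdI G) e Set.univ)
      (fun y : {y : K // b < y} => Mem (Lx (pdI G) e Set.univ) C y.1) (t0, p0)) :
    ∃ (Q : ℕ → Cn le lam K (Jt G P)) (A : ℕ → Set G), TrS e C t0 p0 Q A := by
  classical
  have hpd : PdH (pdI G) := pdI_H
  have hDu : DC (pdI G) (Set.univ : Set G) := fun _ _ => Set.subset_univ _
  have hlam0 : 0 < lam := Cardinal.aleph0_pos.trans H.inf
  have hpc : ∀ q : Cn le lam K (Jt G P), ∃ b : ℕ → Set G, (∀ m, #(b m) < lam) ∧ Monotone b ∧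
      ∀ j ∈ q.sp, ∃ m, j.g ∈ b m := by
    intro q
    obtain ⟨b, h1, h2, h3⟩ := pc_ex H (Jt.g '' q.sp) (Cardinal.mk_image_le.trans q.hsp)
    exact ⟨b, h1, h2, fun j hj => h3 j.g ⟨j, hj, rfl⟩⟩
  let w0 : Gs G P := ⟨fun _ _ => ∅⟩
  obtain ⟨b0, hb1, hb2, hb3⟩ := hpc (push (br w0) p0)
  obtain ⟨f, hI, hR⟩ := seq_ex (SI e p0) (SR e C t0)
    (⟨push (br w0) p0, fun _ => ∅, b0⟩ : St P K G le lam)
    (by
      refine ⟨fun m => ?_, hb1, hb2, hb3, fun w hw => ?_⟩
      · change #(∅ : Set G) < lam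
        rw [Cardinal.mk_eq_zero]
        exact hlam0
      · have h1 : w = w0 := by
          refine Gs_ext fun g m => ?_
          by_contra h2
          have h3 : (w.v g m).Nonempty := by
            rw [Set.nonempty_iff_ne_empty]
            exact h2
          exact absurd (hw g m h3).1 (Nat.not_lt_zero m)
        rw [h1]
        change Ex (pdI G) e Set.univ (pull (br w0) (br_inj w0) (push (br w0) p0)) p0
        rw [pull_push]
        exact Ex_refl H _ _)
    (by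
      intro n s hs
      obtain ⟨h1, h2, h3, h4, h5⟩ := hs
      have hU : Ug P (Function.update s.a n (s.b n)) n = Ug P s.a n :=
        Ug_congr fun m hm => Function.update_of_ne hm.ne _ _
      have ha : ∀ m, #(Function.update s.a n (s.b n) m) < lam := by
        intro m
        by_cases hm : m = n
        · subst hm
          rw [Function.update_self]
          exact h2 m
        · rw [Function.update_of_ne hm]
          exact h1 m
      obtain ⟨Q', hQ1, hQ2, hQ3⟩ := nxt H hC (A := Function.update s.a n (s.b n)) (n := n)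
        (fun m _ => ha m) s.q (fun w hw => h5 w (hU ▸ hw))
      obtain ⟨b, hb1, hb2, hb3⟩ := hpc Q'
      refine ⟨⟨Q', Function.update s.a n (s.b n), fun m => s.b m ∪ b m⟩,
        ⟨ha, fun m => ?_, fun m m' hm => Set.union_subset_union (h3 hm) (hb2 hm),
          fun j hj => ?_, fun w hw => ?_⟩, rfl, fun m => Set.subset_union_left, hQ1, hQ2, hQ3⟩
      · exact lt_of_le_of_lt (Cardinal.mk_union_le _ _) (Cardinal.add_lt_of_lt H.inf.le (h2 m) (hb1 m))
      · obtain ⟨m, hm⟩ := hb3 j hj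
        exact ⟨m, Or.inr hm⟩
      · have h6 : tn n w ∈ Ug P s.a n := hU ▸ Ug_tn hw
        exact Ex_trans H hpd hDu (hQ3 w hw).1 (h5 _ h6))
  have hA : ∀ n m, m < n → (f n).a m = (f (m + 1)).a m := by
    intro n
    induction n with
    | zero => intro m hm; exact absurd hm (Nat.not_lt_zero m)
    | succ n ih =>
      intro m hm
      rcases Nat.lt_or_ge m n with h | h
      · rw [(hR n).1, Function.update_of_ne h.ne]
        exact ih m h
      · have h1 : m = n := le_antisymm (Nat.lt_succ_iff.1 hm) h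
        rw [h1]
  have hAb : ∀ m, (f (m + 1)).a m = (f m).b m := by
    intro m
    rw [(hR m).1, Function.update_self]
  have hb : ∀ n n', n ≤ n' → ∀ m, (f n).b m ⊆ (f n').b m := by
    intro n n' h
    induction h with
    | refl => exact fun m => Set.Subset.refl _
    | step _ ih => exact fun m => (ih m).trans ((hR _).2.1 m)
  have hUg : ∀ n, Ug P (fun m => (f (m + 1)).a m) n = Ug P (f n).a n := fun n =>
    Ug_congr fun m hm => (hA n m hm).symm
  refine ⟨fun n => (f n).q, fun m => (f (m + 1)).a m, ?_⟩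
  refine ⟨fun n => (hR n).2.2.1, fun n => (hR n).2.2.2.1, fun n w hw => ?_, fun n w hw => ?_,
    fun n w hw => ?_, fun n w hw => ?_, fun n j hj => ?_⟩
  · rw [hUg] at hw
    exact (hI n).2.2.2.2 w hw
  · rw [hUg] at hw
    exact ((hR n).2.2.2.2 w hw).1
  · rw [hUg] at hw
    exact ((hR n).2.2.2.2 w hw).2.1
  · rw [hUg] at hw
    exact ((hR n).2.2.2.2 w hw).2.2
  · obtain ⟨m1, hm1⟩ := (hI n).2.2.2.1 j hj
    refine ⟨max n m1, fun m hm => ?_⟩
    change j.g ∈ (f (m + 1)).a m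
    rw [hAb]
    exact hb n m ((le_max_left _ _).trans hm) m ((hI n).2.2.1 ((le_max_right _ _).trans hm) hm1)

end Pool.Agent.UTop
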