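import Pool.Agent.Lib.UTop.Rnd

/-!
# Stp: one coordinate

PROOF. `rnd` gives `r1`. `c' = rs pd e (pd g) (e g) r1 : K × K → Set P`, `f` from `r1.lu c'`. `r' = upd r1 (insert g r1.sp) F` with `F i = r1.F i` for `i ≠ g`, `F g ξ = f0 ξ` if `ξ < h0`, `f ξ` if `h0 ≤ ξ < r1.h`, `∅` otherwise (`h0 ≤ r.h ≤ r1.h`).
As `g ∉ Z` and `r'`, `r1` have the same `h`, `s`, `cl`: `Lq pd e Z r' r1 t` and `Lq pd e Z r1 r' t` (third clause void by `mem_sel`), so `Ex pd e Z r' r` (`Ex_trans`). Let `h0 < δ`, `Mem le r'.s (δ, a) t`. `r1.lu` gives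
`Unf le f c' δ a t`. `Ob_iff`: let `z1 ≤ (t, r')` (`Lx pd e (pd g)`). Some `t2 ≤ z1.1`, `b < δ` have `∀ n, b < a n → Iff' le (Mem le f (a n)) (Mem le c' (δ, a n)) t2`. Take `z2 = (t2, z1.2)` and the bound `max b h0`. If `max b h0 < a n` then
`F g (a n) = f (a n)` (as `a n < δ < r'.h`), and for `z ≤ z2`, `Mem (Lx pd e (pd g)) (e g) (δ, a n) z ↔ Mem le c' (δ, a n) z.1` by `dnm` (`Lq pd e (pd g) z.2 r1 z.1` by transitivity, `Lq_mono hgZ`; `(r1.s (δ, a)).Nonempty`).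
`Mem le (r'.F g) (a n) z.1 ↔ Mem le f (a n) z.1` because the values are equal sets (unfold `Mem`).
-/

set_option autoImplicit false
set_option linter.unusedSectionVars false
universe u

namespace Pool.Agent.UTop

open Cardinal Pool.Agent.PolF

variable {P K J : Type u} [LinearOrder K] [WellFoundedLT K] [LinearOrder J] [WellFoundedLT J]
  {le : P → P → Prop} {lam : Cardinal.{u}} {pd : J → Set J}
  {e : J → K × K → Set (P × Cn le lam K J)}

private theorem stp_mem {Y Y' : Type u} {A : Y → Set P} {B : Y' → Set P} {x : Y} {y : Y'} {t : P}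
    (h : A x = B y) : Mem le A x t ↔ Mem le B y t := by
  unfold Mem
  rw [h]

open Classical in
/-- the new coordinate -/
private noncomputable def stpF (g : J) (h0 h1 : K) (f0 f : K → Set P) (F : J → K → Set P) :
    J → K → Set P :=
  fun i ξ => if i = g then (if ξ < h0 then f0 ξ else if ξ < h1 then f ξ else ∅) else F i ξ

private theorem stpF_ne {g : J} {h0 h1 : K} {f0 f : K → Set P} {F : J → K → Set P} {i : J}
    (hi : i ≠ g) (ξ : K) : stpF g h0 h1 f0 f F i ξ = F i ξ := by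
  unfold stpF
  rw [if_neg hi]

private theorem stpF_lt {g : J} {h0 h1 : K} {f0 f : K → Set P} {F : J → K → Set P} {ξ : K}
    (hξ : ξ < h0) : stpF g h0 h1 f0 f F g ξ = f0 ξ := by
  unfold stpF
  rw [if_pos rfl, if_pos hξ]

private theorem stpF_ge {g : J} {h0 h1 : K} {f0 f : K → Set P} {F : J → K → Set P} {ξ : K}
    (hξ : h0 ≤ ξ) (hξ' : ξ < h1) : stpF g h0 h1 f0 f F g ξ = f ξ := by
  unfold stpF
  rw [if_pos rfl, if_neg (not_lt.2 hξ), if_pos hξ']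

private theorem stpF_out {g : J} {h0 h1 : K} (hh : h0 ≤ h1) {f0 f : K → Set P}
    {F : J → K → Set P} {sp : Set J} (ho : ∀ i ξ, (F i ξ).Nonempty → i ∈ sp ∧ ξ < h1) (i : J)
    (ξ : K) (hne : (stpF g h0 h1 f0 f F i ξ).Nonempty) : i ∈ insert g sp ∧ ξ < h1 := by
  by_cases hi : i = g
  · subst hi
    refine ⟨Set.mem_insert _ _, ?_⟩
    by_contra hξ
    have h1 : ¬ ξ < h0 := fun h => hξ (h.trans_le hh)
    unfold stpF at hne
    rw [if_pos rfl, if_neg h1, if_neg hξ] at hne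
    exact Set.not_nonempty_empty hne
  · rw [stpF_ne hi] at hne
    exact ⟨Set.mem_insert_of_mem _ (ho i ξ hne).1, (ho i ξ hne).2⟩

private theorem stp_card (H : TopH le K lam) (g : J) (sp : Set J) (h : Cardinal.mk sp ≤ lam) :
    #(insert g sp : Set J) ≤ lam :=
  (Cardinal.mk_insert_le).trans (Cardinal.add_le_of_le H.inf.le h
    (Cardinal.one_lt_aleph0.le.trans H.inf.le))

private theorem stp_Lq1 (H : TopH le K lam) {Z : Set J} {g : J} (hg : g ∉ Z)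
    {q p : Cn le lam K J} (eh : q.h = p.h) (es : q.s = p.s) (esp : p.sp ⊆ insert g q.sp)
    (eF : ∀ i, i ≠ g → ∀ ξ, q.F i ξ = p.F i ξ) (t : P) : Lq pd e Z q p t := by
  refine ⟨⟨eh.ge, fun δ _ a => ?_⟩, fun i hi hp => ?_⟩
  · rw [es]
    exact fun s _ => Iff.rfl
  · have hne : i ≠ g := fun h => hg (h ▸ hi)
    refine ⟨?_, fun ξ _ s _ => stp_mem (eF i hne ξ), fun δ a hδ s _ hm => ?_⟩
    · rcases esp hp with h | h
      · exact absurd h hne
      · exact h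
    · have h1 := (mem_sel H hm).2.2.1
      rw [eh] at h1
      exact absurd hδ (lt_asymm h1)

theorem stp (H : TopH le K lam) (hpd : PdH pd) {Z : Set J} (hZ : DC pd Z) {g : J} (hg : g ∉ Z)
    (hgZ : pd g ⊆ Z) (hA : AM pd e (pd g) Z) (r : Cn le lam K J) (h0 : K) (hh : h0 ≤ r.h)
    (f0 : K → Set P) :
    ∃ r' : Cn le lam K J, Ex pd e Z r' r ∧ g ∈ r'.sp ∧ (∀ ξ < h0, r'.F g ξ = f0 ξ) ∧
      ∀ δ a t, h0 < δ → Mem le r'.s (δ, a) t → Ob pd e g t r' δ a := by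
  obtain ⟨r1, hr1, hd1⟩ := rnd H hpd hZ hgZ hA r
  obtain ⟨f, hf⟩ := r1.lu (rs pd e (pd g) (e g) r1)
  obtain ⟨t00⟩ := H.ne
  have hh1 : h0 ≤ r1.h := hh.trans (hr1.1 t00).1.1
  have hout := stpF_out (g := g) hh1 (f0 := f0) (f := f) r1.out
  obtain ⟨r', er'⟩ : ∃ r' : Cn le lam K J, r' = upd r1 (insert g r1.sp)
      (stpF g h0 r1.h f0 f r1.F) (stp_card H g r1.sp r1.hsp) hout := ⟨_, rfl⟩
  have eh : r'.h = r1.h := by rw [er']; rfl
  have es : r'.s = r1.s := by rw [er']; rfl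
  have ecl : r'.cl = r1.cl := by rw [er']; rfl
  have esp : r'.sp = insert g r1.sp := by rw [er']; rfl
  have eF : r'.F = stpF g h0 r1.h f0 f r1.F := by rw [er']; rfl
  have L1 : ∀ t, Lq pd e Z r' r1 t := fun t => stp_Lq1 H hg eh es
    (by rw [esp]; exact fun x hx => Set.mem_insert_of_mem _ (Set.mem_insert_of_mem _ hx))
    (fun i hi ξ => by rw [eF]; exact stpF_ne hi ξ) t
  have E1 : Ex pd e Z r' r1 := ⟨L1, fun x _ => by rw [ecl]⟩
  refine ⟨r', Ex_trans H hpd hZ E1 hr1, by rw [esp]; exact Set.mem_insert _ _,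
    fun ξ hξ => by rw [eF]; exact stpF_lt hξ, ?_⟩
  intro δ a t hδ hm
  have hsel := mem_sel H hm
  rw [es] at hm
  rw [eh] at hsel
  have hne : (r1.s (δ, a)).Nonempty := by
    obtain ⟨_, _, x, hx, _⟩ := hm t (H.rf t)
    exact ⟨x, hx⟩
  have hu := hf δ a t hm
  rw [Ob_iff hpd]
  intro z1 hz1
  obtain ⟨t2, ht2, ⟨b, hb⟩, hi⟩ := hu z1.1 hz1.1
  refine ⟨(t2, z1.2), ⟨ht2, Lq_refl H _ _ _⟩, ⟨max b h0, max_lt hb hδ⟩, ?_⟩
  rintro n hn z hz
  have hn1 : b < a n := lt_of_le_of_lt (le_max_left _ _) hn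
  have hn2 : h0 ≤ a n := (lt_of_le_of_lt (le_max_right _ _) hn).le
  have hn3 : a n < r1.h := (hsel.2.1.1 n).trans hsel.2.2.1
  have e1 : Mem le (r'.F g) (a n) z.1 ↔ Mem le f (a n) z.1 :=
    stp_mem (by rw [eF]; exact stpF_ge hn2 hn3)
  have e2 : Mem le f (a n) z.1 ↔ Mem le (rs pd e (pd g) (e g) r1) (δ, a n) z.1 :=
    hi n hn1 z.1 hz.1
  have hle : le z.1 z1.1 := H.tr _ _ _ hz.1 ht2
  have hq : Lq pd e (pd g) z.2 r1 z.1 :=
    Lq_trans H hpd (DC_pd hpd g) hz.2 (Lq_trans H hpd (DC_pd hpd g) (Lq_down H hle hz1.2) (Lq_mono hgZ (L1 z.1)))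
  have e3 := dnm H hpd (DC_pd hpd g) (hd1 δ a hne n) hq
  exact e1.trans (e2.trans e3.symm)

end Pool.Agent.UTop
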