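import Pool.Agent.Lib.UTop.Jdf

/-!
# Tr: transport along a relabelling of the coordinates

PROOF. `agr`: equal heights: the third clause of `Cq` is void (`mem_sel`); the rest is clear. `tr_Lq`: write `L' = Lx pd' e' (pd' (f g))`, `L = Lx (pdI G) e (Iio g)`, `π z = (z.1, pull f hf z.2)`. By well-founded induction on `g` prove (O g): `Ob pd' e' (f g) t q δ a ↔ Ob (pdI G) e g t (pull f hf q) δ a` for all `t q δ a`.
(1) If (O g') holds for all `g' ∈ X` then the statement of `tr_Lq` holds for `X` (`Bq` and the values of `F` are the same: `(pull f hf q).F g' = q.F (f g')`, `g' ∈ (pull f hf q).sp ↔ f g' ∈ q.sp`). Assume (O g') for `g' < g`. By (1) for `X = Iio g` and `h1`: (2) `L' z' z ↔ L (π z') (π z)`.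
(3) `Mem L' (e' (f g)) x z ↔ Mem L (e g) x (π z)`: (→) `Mem_loc` for `L`: let `z1 ≤ π z`; `Z1 = (z1.1, push f z1.2)` has `π Z1 = z1` (`pull_push`), so `Z1 ≤ z` by (2); there are `Z2 ≤ Z1`, `W ∈ e' (f g) x`, `Z2 ≤ W`; by `h2` `Mem L (e g) x (π W)`, hence at `π Z2 ≤ z1`. (←) for `Z1 ≤ z`: `Mem L (e g) x (π Z1)`, so `Z1 ∈ e' (f g) x`.
(O g): `Ob_iff` on both sides (with `hpd'`, `pdI_H`). (→) Let `z1 ≤ (t, pull q)`, `Z1 = (z1.1, push f z1.2) ≤ (t, q)`; take `Z2 ≤ Z1` and `b`; answer `π Z2`, `b`: for `z ≤ π Z2`, `Z = (z.1, push f z.2) ≤ Z2`, `π Z = z`, and (3). (←) Let `Z1 ≤ (t, q)`; `π Z1 ≤ (t, pull q)`; take `z2 ≤ π Z1`, `b`; answer `(z2.1, push f z2.2)`, `b`; for `Z ≤` it,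
`π Z ≤ z2`, and (3).
-/

set_option autoImplicit false
set_option linter.unusedSectionVars false
universe u

namespace Pool.Agent.UTop

open Cardinal Pool.Agent.PolF

variable {P K G J' : Type u} [LinearOrder K] [WellFoundedLT K] [LinearOrder G] [WellFoundedLT G]
  [LinearOrder J'] [WellFoundedLT J'] {le : P → P → Prop} {lam : Cardinal.{u}}

/-- conditions which agree on the coordinates in `X` -/
theorem agr (H : TopH le K lam) {pd' : J' → Set J'} {e' : J' → K × K → Set (P × Cn le lam K J')}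
    {X : Set J'} {p q : Cn le lam K J'} (hh : q.h = p.h) (hs : q.s = p.s)
    (hX : ∀ g ∈ X, (g ∈ p.sp → g ∈ q.sp) ∧ q.F g = p.F g) (t : P) : Lq pd' e' X q p t := by
  refine ⟨⟨hh.ge, fun δ _ a => ?_⟩, fun g hg hp =>
    ⟨(hX g hg).1 hp, fun ξ _ => ?_, fun δ a hδ t' _ hm => ?_⟩⟩
  · intro r _
    rw [hs]
  · intro r _
    rw [(hX g hg).2]
  · exfalso
    have h1 : δ < q.h := (mem_sel H hm).2.2.1
    rw [hh] at h1
    exact lt_asymm hδ h1

private theorem tr_step {pd' : J' → Set J'}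
    {e' : J' → K × K → Set (P × Cn le lam K J')} {e : G → K × K → Set (P × Cn le lam K G)}
    (f : G → J') (hf : Function.Injective f) (X : Set G)
    (hO : ∀ g ∈ X, ∀ t q δ a, Ob pd' e' (f g) t q δ a ↔
      Ob (pdI G) e g t (pull f hf q) δ a) (q p : Cn le lam K J') (t : P) :
    Lq pd' e' (f '' X) q p t ↔ Lq (pdI G) e X (pull f hf q) (pull f hf p) t := by
  constructor
  · rintro ⟨h1, h2⟩
    refine ⟨h1, fun g hg hp => ?_⟩
    obtain ⟨h3, h4, h5⟩ := h2 (f g) ⟨g, hg, rfl⟩ hp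
    exact ⟨h3, h4, fun δ a hδ t' ht' hm => (hO g hg t' q δ a).1 (h5 δ a hδ t' ht' hm)⟩
  · rintro ⟨h1, h2⟩
    refine ⟨h1, ?_⟩
    rintro _ ⟨g, hg, rfl⟩ hp
    obtain ⟨h3, h4, h5⟩ := h2 g hg hp
    exact ⟨h3, h4, fun δ a hδ t' ht' hm => (hO g hg t' q δ a).2 (h5 δ a hδ t' ht' hm)⟩

private theorem tr_Mem (H : TopH le K lam) {pd' : J' → Set J'}
    {e' : J' → K × K → Set (P × Cn le lam K J')} {e : G → K × K → Set (P × Cn le lam K G)}
    (f : G → J') (hf : Function.Injective f) (g : G)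
    (hL : ∀ z' z : P × Cn le lam K J', Lx pd' e' (pd' (f g)) z' z ↔
      Lx (pdI G) e (Set.Iio g) (z'.1, pull f hf z'.2) (z.1, pull f hf z.2))
    (x : K × K)
    (h2 : ∀ z, z ∈ e' (f g) x ↔
      Mem (Lx (pdI G) e (Set.Iio g)) (e g) x (z.1, pull f hf z.2)) (z : P × Cn le lam K J') :
    Mem (Lx pd' e' (pd' (f g))) (e' (f g)) x z ↔
      Mem (Lx (pdI G) e (Set.Iio g)) (e g) x (z.1, pull f hf z.2) := by
  have htr := Lx_trans (e := e) H pdI_H (Set.Iio g) (pdI_DC g)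
  constructor
  · intro hm
    refine Mem_loc htr (fun z => Lx_refl H _ z) fun z1 hz1 => ?_
    have hZ1 : Lx pd' e' (pd' (f g)) (z1.1, push f z1.2) z := by
      rw [hL]
      rw [pull_push f hf z1.2]
      exact hz1
    obtain ⟨Z2, hZ2, W, hW, hZW⟩ := hm _ hZ1
    have h3 := (h2 W).1 hW
    have h4 := (hL Z2 W).1 hZW
    have h5 := (hL Z2 (z1.1, push f z1.2)).1 hZ2
    simp only [pull_push f hf z1.2] at h5
    exact ⟨(Z2.1, pull f hf Z2.2), h5, Mem_down htr h4 h3⟩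
  · intro hm Z1 hZ1
    refine ⟨Z1, Lx_refl H _ _, Z1, ?_, Lx_refl H _ _⟩
    rw [h2]
    exact Mem_down htr ((hL Z1 z).1 hZ1) hm

theorem tr_Lq (H : TopH le K lam) {pd' : J' → Set J'} (hpd' : PdH pd')
    {e' : J' → K × K → Set (P × Cn le lam K J')} {e : G → K × K → Set (P × Cn le lam K G)}
    (f : G → J') (hf : Function.Injective f) (h1 : ∀ g, pd' (f g) = f '' Set.Iio g)
    (h2 : ∀ g x z, z ∈ e' (f g) x ↔
      Mem (Lx (pdI G) e (Set.Iio g)) (e g) x (z.1, pull f hf z.2))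
    (X : Set G) (q p : Cn le lam K J') (t : P) :
    Lq pd' e' (f '' X) q p t ↔ Lq (pdI G) e X (pull f hf q) (pull f hf p) t := by
  suffices hO : ∀ g : G, ∀ t q δ a, Ob pd' e' (f g) t q δ a ↔
      Ob (pdI G) e g t (pull f hf q) δ a from tr_step f hf X (fun g _ => hO g) q p t
  intro g
  induction g using WellFoundedLT.induction with
  | ind g ih =>
  intro t q δ a
  have hL : ∀ z' z : P × Cn le lam K J', Lx pd' e' (pd' (f g)) z' z ↔
      Lx (pdI G) e (Set.Iio g) (z'.1, pull f hf z'.2) (z.1, pull f hf z.2) := by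
    intro z' z
    unfold Lx
    rw [h1 g]
    exact and_congr_right fun _ =>
      tr_step f hf (Set.Iio g) (fun i hi => ih i hi) z'.2 z.2 z'.1
  have hM := fun x z => tr_Mem H f hf g hL x (h2 g x) z
  rw [Ob_iff hpd', Ob_iff pdI_H]
  constructor
  · intro ho z1 hz1
    have hZ1 : Lx pd' e' (pd' (f g)) (z1.1, push f z1.2) (t, q) := by
      rw [hL]
      rw [pull_push f hf z1.2]
      exact hz1
    obtain ⟨Z2, hZ2, b, hb⟩ := ho _ hZ1
    have h5 := (hL Z2 (z1.1, push f z1.2)).1 hZ2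
    simp only [pull_push f hf z1.2] at h5
    refine ⟨(Z2.1, pull f hf Z2.2), h5, b, fun n hn z hz => ?_⟩
    have hZ : Lx pd' e' (pd' (f g)) (z.1, push f z.2) Z2 := by
      rw [hL]
      rw [pull_push f hf z.2]
      exact hz
    have h6 := hb n hn _ hZ
    rw [hM] at h6
    simp only [pull_push f hf z.2] at h6
    exact h6
  · intro ho Z1 hZ1
    obtain ⟨z2, hz2, b, hb⟩ := ho _ ((hL Z1 (t, q)).1 hZ1)
    refine ⟨(z2.1, push f z2.2), ?_, b, fun n hn Z hZ => ?_⟩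
    · rw [hL]
      rw [pull_push f hf z2.2]
      exact hz2
    · rw [hM]
      have h7 := (hL Z (z2.1, push f z2.2)).1 hZ
      simp only [pull_push f hf z2.2] at h7
      exact hb n hn _ h7

end Pool.Agent.UTop
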