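import Pool.Agent.Lib.UTop.Tr

/-!
# Tre: the order of a tree of conditions on a branch

PROOF. `tr_Lq` with `f = br w`, `pd' = pdT G P`, `e' = eT e`; `h1 = pdT_br w`. `h2`: `z ∈ eT e (br w g) x` is by definition `Mem L (e g) x (z.1, pb (cut g w) z.2)`, `L = Lx (pdI G) e (Iio g)`. `pb (cut g w) z.2` and `pb w z.2` agree on the coordinates `g' < g`: `br (cut g w) g' = br w g'` because `cut g' (cut g w) = cut g' w` (`cut_cut`), so by `agr` in both directions
`(z.1, pb w z.2)` and `(z.1, pb (cut g w) z.2)` are `≤` each other for `L`, and `Mem_down`. `tre_Ex`: moreover `(pb w q).cl = q.cl`, `(pb w q).h = q.h`.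
-/

set_option autoImplicit false
universe u

namespace Pool.Agent.UTop

open Cardinal Pool.Agent.PolF

variable {P K G : Type u} [LinearOrder K] [WellFoundedLT K] [LinearOrder G] [WellFoundedLT G]
  {le : P → P → Prop} {lam : Cardinal.{u}} {e : G → K × K → Set (P × Cn le lam K G)}

private theorem tre_mem (H : TopH le K lam) (w : Gs G P) (g : G) (x : K × K)
    (z : P × Cn le lam K (Jt G P)) : z ∈ eT e (br w g) x ↔
      Mem (Lx (pdI G) e (Set.Iio g)) (e g) x (z.1, pull (br w) (br_inj w) z.2) := by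
  have hb : ∀ g' ∈ Set.Iio g, br (cut g w) g' = br w g' := fun g' hg' => by
    unfold br
    rw [cut_cut (le_of_lt hg')]
  have htr := Lx_trans (e := e) H (pdI_H (J := G)) (Set.Iio g) (pdI_DC g)
  have h1 : Lx (pdI G) e (Set.Iio g) (z.1, pb w z.2) (z.1, pb (cut g w) z.2) := by
    refine ⟨H.rf _, agr (q := pb w z.2) (p := pb (cut g w) z.2) H rfl rfl
      (fun g' hg' => ⟨fun h => ?_, ?_⟩) z.1⟩
    · change br w g' ∈ z.2.sp
      rw [← hb g' hg']
      exact h
    · change z.2.F (br w g') = z.2.F (br (cut g w) g')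
      rw [hb g' hg']
  have h2 : Lx (pdI G) e (Set.Iio g) (z.1, pb (cut g w) z.2) (z.1, pb w z.2) := by
    refine ⟨H.rf _, agr (q := pb (cut g w) z.2) (p := pb w z.2) H rfl rfl
      (fun g' hg' => ⟨fun h => ?_, ?_⟩) z.1⟩
    · change br (cut g w) g' ∈ z.2.sp
      rw [hb g' hg']
      exact h
    · change z.2.F (br (cut g w) g') = z.2.F (br w g')
      rw [hb g' hg']
  exact ⟨fun h => Mem_down htr h1 h, fun h => Mem_down htr h2 h⟩

theorem tre (H : TopH le K lam) (w : Gs G P) (X : Set G) (q p : Cn le lam K (Jt G P)) (t : P) :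
    Lq (pdT G P) (eT e) (br w '' X) q p t ↔ Lq (pdI G) e X (pb w q) (pb w p) t := by
  exact tr_Lq H pdT_H (br w) (br_inj w) (pdT_br w) (fun g x z => tre_mem H w g x z) X q p t

theorem tre_Ex (H : TopH le K lam) (w : Gs G P) (X : Set G) (q p : Cn le lam K (Jt G P)) :
    Ex (pdT G P) (eT e) (br w '' X) q p ↔ Ex (pdI G) e X (pb w q) (pb w p) := by
  exact and_congr (forall_congr' fun t => tre H w X q p t) Iff.rfl

end Pool.Agent.UTop
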